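import Pool.Agent.helper8.M4.TTO
import Pool.Agent.helper95.M4.V1

/-! # M4 (MP_1b8d20_an), block V: the top word is unique, and near a top point it is the same word
or its child at a wall. -/

set_option autoImplicit false

namespace Pool.Agent.M4

open Complex ComplexConjugate Filter Topology

theorem Go_excl {b b' : Bool} {L N R : ℂ} (h : Go b L N R) (h' : Go b' L N R) : b = b' := by
  cases b <;> cases b'
  · rfl
  · exact absurd h.im (not_lt.2 h'.im.le)
  · exact absurd h.im (not_lt.2 h'.im.le)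
  · rfl

theorem Go_top {b : Bool} {L N R : ℂ} (h : Go b L N R) (h' : Top L N R) : False := by
  cases b
  · exact absurd h.lt (not_lt.2 h'.thR)
  · exact absurd h.lt (not_lt.2 h'.thL)

theorem Ch_suffix {v w : List Bool} {z : ℂ} (h : Ch w z) (hv : v <:+ w) : Ch v z := by
  obtain ⟨u, rfl⟩ := hv
  induction u with
  | nil => exact h
  | cons b u ih => exact ih h.1

theorem Ch_le_InT {v w : List Bool} {z : ℂ} (hv : InT v z) (hw : Ch w z) : w <:+ v := by
  induction w with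
  | nil => exact List.nil_suffix
  | cons b w ih =>
    obtain ⟨u, hu⟩ := ih hw.1
    rcases List.eq_nil_or_concat u with rfl | ⟨u', b', rfl⟩
    · rw [List.nil_append] at hu
      subst hu
      exact absurd hv.2 (fun h => Go_top hw.2 h)
    · have h1 : (b' :: w) <:+ v := ⟨u', by rw [← hu]; simp⟩
      have h2 := Ch_suffix hv.1 h1
      have h3 := Go_excl hw.2 h2.2
      rw [h3]
      exact h1

theorem InT_unique {v w : List Bool} {z : ℂ} (hv : InT v z) (hw : InT w z) : v = w :=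
  (Ch_le_InT hw hv.1).eq_of_length_le (Ch_le_InT hv hw.1).length_le

/-- near a top point the top word is the same word or its child at a wall -/
theorem InT_near {w : List Bool} {z : ℂ} (hz : InT w z) : ∀ᶠ y in 𝓝 z, ∀ w', InT w' y →
    w' = w ∨ (w' = true :: w ∧ ‖Lf w z‖ = ‖Nf w z - I * Rf w z‖ ∧ NZ (true :: w) z) ∨
      (w' = false :: w ∧ ‖Rf w z‖ = ‖Lf w z - I * Nf w z‖ ∧ NZ (false :: w) z) := by
  obtain ⟨dL, dN, dR⟩ := Diff_Tr w
  have cL := dL.continuous
  have cN := dN.continuous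
  have cR := dR.continuous
  have had := ADM w z hz.1
  have hm := Mk_Tr w z
  have hNZ := NZ_of_Ch hz.1
  have hCh : ∀ᶠ y in 𝓝 z, Ch w y := (CHO w).mem_nhds hz.1
  have o2 : IsOpen {z : ℂ | 0 < (Nf w z * conj (Rf w z)).re} :=
    isOpen_lt continuous_const (continuous_re.comp (cN.mul (Complex.continuous_conj.comp cR)))
  have o3 : IsOpen {z : ℂ | 0 < (Lf w z * conj (Nf w z)).re} :=
    isOpen_lt continuous_const (continuous_re.comp (cL.mul (Complex.continuous_conj.comp cN)))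
  have e2 : ∀ᶠ y in 𝓝 z, 0 < (Nf w y * conj (Rf w y)).re := o2.mem_nhds hz.2.reNR
  have e3 : ∀ᶠ y in 𝓝 z, 0 < (Lf w y * conj (Nf w y)).re := o3.mem_nhds hz.2.reLN
  have oL : IsOpen {z : ℂ | ‖Lf w z‖ < ‖Nf w z - I * Rf w z‖} := isOpen_lt cL.norm (cN.sub (continuous_const.mul cR)).norm
  have oR : IsOpen {z : ℂ | ‖Rf w z‖ < ‖Lf w z - I * Nf w z‖} := isOpen_lt cR.norm (cL.sub (continuous_const.mul cN)).norm
  -- a word at a nearby point is `w` or starts with a move at `w`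
  have hmove : ∀ y, Ch w y → ∀ w', InT w' y → w' = w ∨ ∃ b, (b :: w) <:+ w' ∧ Ch (b :: w) y := by
    intro y hy w' hw'
    obtain ⟨u, hu⟩ := Ch_le_InT hw' hy
    rcases List.eq_nil_or_concat u with rfl | ⟨u', b', rfl⟩
    · left; rw [List.nil_append] at hu; exact hu.symm
    · right
      have h1 : (b' :: w) <:+ w' := ⟨u', by rw [← hu]; simp⟩
      exact ⟨b', h1, Ch_suffix hw'.1 h1⟩
  rcases hz.2.thL.lt_or_eq with hL | hL
  · have eL : ∀ᶠ y in 𝓝 z, ‖Lf w y‖ < ‖Nf w y - I * Rf w y‖ := oL.mem_nhds hL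
    rcases hz.2.thR.lt_or_eq with hR | hR
    · have eR : ∀ᶠ y in 𝓝 z, ‖Rf w y‖ < ‖Lf w y - I * Nf w y‖ := oR.mem_nhds hR
      filter_upwards [hCh, e2, e3, eL, eR] with y h1 h2 h3 h4 h5
      intro w' hw'
      exact Or.inl (InT_unique hw' ⟨h1, h2, h3, h4.le, h5.le, Or.inl h4⟩)
    · -- ideal on the right
      have him := IDR_im had hm hz.2.reNR hz.2.reLN hR hL
      obtain ⟨g1, g2, g3, g4⟩ := IDR_child had hm hz.2.reLN him hR
      have cK : Continuous fun y => Lf w y * Nf w y - Rf w y := (cL.mul cN).sub cR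
      have u1 : IsOpen {y : ℂ | 0 < ((Lf w y * Nf w y - Rf w y) * conj (Nf w y)).re} :=
        isOpen_lt continuous_const (continuous_re.comp (cK.mul (Complex.continuous_conj.comp cN)))
      have u2 : IsOpen {y : ℂ | 0 < (Lf w y * conj (Lf w y * Nf w y - Rf w y)).re} :=
        isOpen_lt continuous_const (continuous_re.comp (cL.mul (Complex.continuous_conj.comp cK)))
      have u3 : IsOpen {y : ℂ | ‖Lf w y‖ < ‖(Lf w y * Nf w y - Rf w y) - I * Nf w y‖} :=
        isOpen_lt cL.norm (cK.sub (continuous_const.mul cN)).norm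
      have u4 : IsOpen {y : ℂ | ‖Nf w y‖ < ‖Lf w y - I * (Lf w y * Nf w y - Rf w y)‖} :=
        isOpen_lt cN.norm (cL.sub (continuous_const.mul cK)).norm
      have v1 : ∀ᶠ y in 𝓝 z, 0 < ((Lf w y * Nf w y - Rf w y) * conj (Nf w y)).re := u1.mem_nhds g1
      have v2 : ∀ᶠ y in 𝓝 z, 0 < (Lf w y * conj (Lf w y * Nf w y - Rf w y)).re := u2.mem_nhds g2
      have v3 : ∀ᶠ y in 𝓝 z, ‖Lf w y‖ < ‖(Lf w y * Nf w y - Rf w y) - I * Nf w y‖ := u3.mem_nhds g3
      have v4 : ∀ᶠ y in 𝓝 z, ‖Nf w y‖ < ‖Lf w y - I * (Lf w y * Nf w y - Rf w y)‖ := u4.mem_nhds g4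
      have hnz : NZ (false :: w) z := by
        refine ⟨hNZ, fun h0 => ?_⟩
        have h0' : Lf w z * Nf w z - Rf w z = 0 := h0
        rw [h0', zero_mul, zero_re] at g1
        exact lt_irrefl _ g1
      filter_upwards [hCh, e2, e3, eL, v1, v2, v3, v4] with y h1 h2 h3 h4 w1 w2 w3 w4
      intro w' hw'
      rcases hmove y h1 w' hw' with h | ⟨b, hb, hbc⟩
      · exact Or.inl h
      · cases b with
        | true => exact absurd hbc.2.lt (not_lt.2 h4.le)
        | false =>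
          have : InT (false :: w) y := ⟨hbc, ⟨w1, w2, w3.le, w4.le, Or.inl w3⟩⟩
          exact Or.inr (Or.inr ⟨InT_unique hw' this, hR, hnz⟩)
  · -- ideal on the left
    have hR : ‖Rf w z‖ < ‖Lf w z - I * Nf w z‖ := by
      rcases hz.2.ne with h | h
      · exact absurd hL h.ne
      · exact h
    have eR : ∀ᶠ y in 𝓝 z, ‖Rf w y‖ < ‖Lf w y - I * Nf w y‖ := oR.mem_nhds hR
    have him := IDL_im had hm hz.2.reNR hz.2.reLN hL hR
    obtain ⟨g1, g2, g3, g4⟩ := IDL_child had hm hz.2.reNR him hL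
    have cK : Continuous fun y => Nf w y * Rf w y - Lf w y := (cN.mul cR).sub cL
    have u1 : IsOpen {y : ℂ | 0 < ((Nf w y * Rf w y - Lf w y) * conj (Rf w y)).re} :=
      isOpen_lt continuous_const (continuous_re.comp (cK.mul (Complex.continuous_conj.comp cR)))
    have u2 : IsOpen {y : ℂ | 0 < (Nf w y * conj (Nf w y * Rf w y - Lf w y)).re} :=
      isOpen_lt continuous_const (continuous_re.comp (cN.mul (Complex.continuous_conj.comp cK)))
    have u3 : IsOpen {y : ℂ | ‖Nf w y‖ < ‖(Nf w y * Rf w y - Lf w y) - I * Rf w y‖} :=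
      isOpen_lt cN.norm (cK.sub (continuous_const.mul cR)).norm
    have u4 : IsOpen {y : ℂ | ‖Rf w y‖ < ‖Nf w y - I * (Nf w y * Rf w y - Lf w y)‖} :=
      isOpen_lt cR.norm (cN.sub (continuous_const.mul cK)).norm
    have v1 : ∀ᶠ y in 𝓝 z, 0 < ((Nf w y * Rf w y - Lf w y) * conj (Rf w y)).re := u1.mem_nhds g1
    have v2 : ∀ᶠ y in 𝓝 z, 0 < (Nf w y * conj (Nf w y * Rf w y - Lf w y)).re := u2.mem_nhds g2
    have v3 : ∀ᶠ y in 𝓝 z, ‖Nf w y‖ < ‖(Nf w y * Rf w y - Lf w y) - I * Rf w y‖ := u3.mem_nhds g3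
    have v4 : ∀ᶠ y in 𝓝 z, ‖Rf w y‖ < ‖Nf w y - I * (Nf w y * Rf w y - Lf w y)‖ := u4.mem_nhds g4
    have hnz : NZ (true :: w) z := by
      refine ⟨hNZ, fun h0 => ?_⟩
      have h0' : Nf w z * Rf w z - Lf w z = 0 := h0
      rw [h0', zero_mul, zero_re] at g1
      exact lt_irrefl _ g1
    filter_upwards [hCh, e2, e3, eR, v1, v2, v3, v4] with y h1 h2 h3 h4 w1 w2 w3 w4
    intro w' hw'
    rcases hmove y h1 w' hw' with h | ⟨b, hb, hbc⟩
    · exact Or.inl h
    · cases b with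
      | false => exact absurd hbc.2.lt (not_lt.2 h4.le)
      | true =>
        have : InT (true :: w) y := ⟨hbc, ⟨w1, w2, w3.le, w4.le, Or.inl w3⟩⟩
        exact Or.inr (Or.inl ⟨InT_unique hw' this, hL, hnz⟩)

end Pool.Agent.M4
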