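import Pool.Agent.helper66.M4.VStmt
import Pool.Agent.helper74.M4.BASEE

/-! # M4, block V complete -/

set_option autoImplicit false

namespace Pool.Agent.M4

theorem BASEE : BASEE_stmt := fun _ hz h2 _ hη => BASE_E hz h2 hη

/-- **Block V.** -/
theorem PP_V : PP_stmt (PE (EE vs ds)) := PP_of BASEE

end Pool.Agent.M4
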