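import Pool.Agent.helper66.M4.End1

/-! # M4 (MP_1b8d20_an), END, part 2: no periodic point where the lower left entries are discrete -/

set_option autoImplicit false

namespace Pool.Agent.M4.W66

open Complex Matrix Pool.Agent.FZ Pool.Agent.FZR Filter Topology

/-- A bounded solution of a periodic sign sequence gives signs `a` of period `N` such that the
trace of the monodromy is real and in `[-2,2]`. -/
theorem BP_trace {w : ℂ} (h : BP w) : ∃ (a : ℕ → ℂ) (N : ℕ), (∀ i, a i = 1 ∨ a i = -1) ∧ 0 < N ∧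
    (Bm a w N 0 0 + Bm a w N 1 1).im = 0 ∧ |(Bm a w N 0 0 + Bm a w N 1 1).re| ≤ 2 := by
  obtain ⟨c, hc, ⟨p, hp, hper⟩, φ, hφ, ⟨B, hB⟩, i0, hi0⟩ := h
  -- the signs `A`
  obtain ⟨A, hA, hA0, hA1⟩ := exists_path (0 : ℂ) (fun i => -c i) (fun i => sgn_neg (hc i))
    (1 : ℂ) (1 : ℂ)
  have hA' : ∀ n, A (n + 1) = c n * A (n - 1) := by
    intro n
    rw [hA n]
    simp
  have hAs : ∀ n : ℤ, (A n = 1 ∨ A n = -1) ∧ (A (n + 1) = 1 ∨ A (n + 1) = -1) := by
    intro n
    induction n using Int.induction_on with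
    | zero => rw [hA0, zero_add, hA1]; exact ⟨Or.inl rfl, Or.inl rfl⟩
    | succ i ih =>
      refine ⟨ih.2, ?_⟩
      rw [hA' ((i : ℤ) + 1), add_sub_cancel_right]
      exact sgn_mul (hc _) ih.1
    | pred i ih =>
      have e : -(i : ℤ) - 1 + 1 = -i := by ring
      rw [e]
      refine ⟨?_, ih.1⟩
      have h1 := hA' (-(i : ℤ))
      have h2 : A (-(i : ℤ) - 1) = c (-(i : ℤ)) * A (-(i : ℤ) + 1) := by
        rw [h1, ← mul_assoc, sgn_sq (hc _), one_mul]
      rw [h2]
      exact sgn_mul (hc _) ih.2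
  have hAsq : ∀ n, A n * A n = 1 := fun n => sgn_sq (hAs n).1
  have hcp : ∀ (n : ℤ) (k : ℕ), c (n + k * p) = c n := by
    intro n k
    induction k with
    | zero => simp
    | succ k ih =>
      have e : n + ((k + 1 : ℕ) : ℤ) * p = (n + k * p) + p := by push_cast; ring
      rw [e, hper, ih]
  -- periodicity of `A`
  have hr : ∀ n : ℤ, A (n + 2 * p + 1) * A (n + 1) = A (n + 2 * p - 1) * A (n - 1) := by
    intro n
    rw [hA' n, hA' (n + 2 * p)]
    have e : c (n + 2 * p) = c n := hcp n 2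
    rw [e]
    have := sgn_sq (hc n)
    linear_combination (A (n + 2 * p - 1) * A (n - 1)) * this
  have hr2 : ∀ (n : ℤ) (k : ℕ), A (n + 2 * k + 2 * p) * A (n + 2 * k) = A (n + 2 * p) * A n := by
    intro n k
    induction k with
    | zero => simp
    | succ k ih =>
      have h1 := hr (n + 2 * k + 1)
      have e1 : n + 2 * (k : ℤ) + 1 + 2 * p + 1 = n + 2 * ((k + 1 : ℕ) : ℤ) + 2 * p := by
        push_cast; ring
      have e2 : n + 2 * (k : ℤ) + 1 + 1 = n + 2 * ((k + 1 : ℕ) : ℤ) := by push_cast; ring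
      have e3 : n + 2 * (k : ℤ) + 1 + 2 * p - 1 = n + 2 * k + 2 * p := by ring
      have e4 : n + 2 * (k : ℤ) + 1 - 1 = n + 2 * k := by ring
      rw [e1, e2, e3, e4] at h1
      rw [h1, ih]
  have hAper : ∀ n : ℤ, A (n + 4 * p) = A n := by
    intro n
    have h1 := hr2 n p
    have e : n + 2 * (p : ℤ) + 2 * p = n + 4 * p := by ring
    rw [e] at h1
    have h2 := hAsq (n + 2 * p)
    calc A (n + 4 * p) = A (n + 4 * p) * (A (n + 2 * p) * A (n + 2 * p)) := by rw [h2, mul_one]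
      _ = (A (n + 4 * p) * A (n + 2 * p)) * A (n + 2 * p) := by ring
      _ = (A (n + 2 * p) * A n) * A (n + 2 * p) := by rw [h1]
      _ = (A (n + 2 * p) * A (n + 2 * p)) * A n := by ring
      _ = A n := by rw [h2, one_mul]
  have hAperk : ∀ (n j : ℤ), A (n + 4 * p * j) = A n := by
    intro n j
    induction j using Int.induction_on with
    | zero => simp
    | succ i ih =>
      have e : n + 4 * p * ((i : ℤ) + 1) = n + 4 * p * i + 4 * p := by ring
      rw [e, hAper, ih]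
    | pred i ih =>
      have h1 := hAper (n + 4 * p * (-(i : ℤ) - 1))
      have e : n + 4 * p * (-(i : ℤ) - 1) + 4 * p = n + 4 * p * (-(i : ℤ)) := by ring
      rw [e] at h1
      rw [← h1, ih]
  -- the sequence `ψ`
  obtain ⟨ψ, hψ⟩ : ∃ ψ : ℤ → ℂ, ∀ n, ψ n = A n * φ n := ⟨_, fun _ => rfl⟩
  have hψr : ∀ n, ψ (n + 1) = A (n + 1) * A n * w * ψ n - ψ (n - 1) := by
    intro n
    rw [hψ, hψ, hψ, hφ n, smul_eq_mul, smul_eq_mul]
    have h1 : A (n + 1) * c n = A (n - 1) := by
      rw [hA' n]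
      have := sgn_sq (hc n)
      linear_combination A (n - 1) * this
    have h2 := hAsq n
    linear_combination (-φ (n - 1)) * h1 - (A (n + 1) * w * φ n) * h2
  have hψB : ∀ n, ‖ψ n‖ ≤ B := by
    intro n
    rw [hψ, norm_mul, sgn_norm (hAs n).1, one_mul]
    exact hB n
  obtain ⟨a, ha⟩ : ∃ a : ℕ → ℂ, ∀ n : ℕ, a n = A ((n : ℤ) + 1) * A n := ⟨_, fun _ => rfl⟩
  obtain ⟨N, hN⟩ : ∃ N : ℕ, N = 4 * p := ⟨_, rfl⟩
  have hNz : (N : ℤ) = 4 * p := by rw [hN]; push_cast; ring
  -- transfer by `Bm`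
  have htr : ∀ (j : ℤ) (n : ℕ),
      ψ (N * j + n) = Bm a w n 0 0 * ψ (N * j) + Bm a w n 0 1 * ψ (N * j - 1) ∧
      ψ (N * j + n - 1) = Bm a w n 1 0 * ψ (N * j) + Bm a w n 1 1 * ψ (N * j - 1) := by
    intro j n
    induction n with
    | zero => simp [Bm]
    | succ n ih =>
      obtain ⟨h1, h2⟩ := ih
      have e1 : A (N * j + n + 1) = A ((n : ℤ) + 1) := by
        have := hAperk ((n : ℤ) + 1) j
        rw [← hNz] at this
        rw [← this]
        congr 1
        ring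
      have e2 : A (N * j + n) = A (n : ℤ) := by
        have := hAperk (n : ℤ) j
        rw [← hNz] at this
        rw [← this]
        congr 1
        ring
      have e3 : (N : ℤ) * j + ((n + 1 : ℕ) : ℤ) = N * j + n + 1 := by push_cast; ring
      have f1 : Bm a w (n + 1) 0 0 = a n * w * Bm a w n 0 0 - Bm a w n 1 0 := by
        simp [Bm, Matrix.mul_apply, Fin.sum_univ_two]
        ring
      have f2 : Bm a w (n + 1) 0 1 = a n * w * Bm a w n 0 1 - Bm a w n 1 1 := by
        simp [Bm, Matrix.mul_apply, Fin.sum_univ_two]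
        ring
      have f3 : Bm a w (n + 1) 1 0 = Bm a w n 0 0 := by
        simp [Bm, Matrix.mul_apply, Fin.sum_univ_two]
      have f4 : Bm a w (n + 1) 1 1 = Bm a w n 0 1 := by
        simp [Bm, Matrix.mul_apply, Fin.sum_univ_two]
      rw [e3, add_sub_cancel_right, f1, f2, f3, f4]
      refine ⟨?_, h1⟩
      rw [hψr, e1, e2, ← ha n, h1, h2]
      ring
  have hx : ∀ j : ℤ, ψ (N * (j + 1)) = Bm a w N 0 0 * ψ (N * j) + Bm a w N 0 1 * ψ (N * j - 1) := by
    intro j
    have := (htr j N).1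
    rw [← this]
    congr 1
    ring
  have hy : ∀ j : ℤ, ψ (N * (j + 1) - 1) =
      Bm a w N 1 0 * ψ (N * j) + Bm a w N 1 1 * ψ (N * j - 1) := by
    intro j
    have := (htr j N).2
    rw [← this]
    congr 1
    ring
  have hdet := Bm_det a w N
  refine ⟨a, N, fun i => by rw [ha]; exact sgn_mul (hAs _).1 (hAs _).1, by omega, ?_⟩
  by_cases h0 : ψ 0 = 0
  · by_cases h1 : ψ (-1) = 0
    · exfalso
      -- `ψ` vanishes identically
      have hz : ∀ n : ℤ, ψ n = 0 ∧ ψ (n - 1) = 0 := by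
        intro n
        induction n using Int.induction_on with
        | zero => exact ⟨h0, by rw [zero_sub]; exact h1⟩
        | succ i ih =>
          rw [add_sub_cancel_right]
          refine ⟨?_, ih.1⟩
          rw [hψr, ih.1, ih.2]
          ring
        | pred i ih =>
          refine ⟨ih.2, ?_⟩
          have h3 := hψr (-(i : ℤ) - 1)
          rw [sub_add_cancel, ih.1, ih.2] at h3
          linear_combination h3
      have := (hz i0).1
      rw [hψ] at this
      rcases mul_eq_zero.1 this with h | h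
      · exact sgn_ne (hAs i0).1 h
      · exact hi0 h
    · refine trace_real (x := fun j => ψ (N * j - 1)) (C := B) (fun j => ?_)
        (fun j => hψB _) (by simpa using h1)
      show ψ (N * (j + 1) - 1) = _ * ψ (N * j - 1) - ψ (N * (j - 1) - 1)
      have g1 := hx (j - 1)
      have g2 := hy (j - 1)
      rw [sub_add_cancel] at g1 g2
      rw [hy j, g1, g2]
      linear_combination (-ψ (N * (j - 1) - 1)) * hdet
  · refine trace_real (x := fun j => ψ (N * j)) (C := B) (fun j => ?_)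
      (fun j => hψB _) (by simpa using h0)
    show ψ (N * (j + 1)) = _ * ψ (N * j) - ψ (N * (j - 1))
    have g1 := hx (j - 1)
    have g2 := hy (j - 1)
    rw [sub_add_cancel] at g1 g2
    rw [hx j, g1, g2]
    linear_combination (-ψ (N * (j - 1))) * hdet

/-- an irrational angle in a neighbourhood, different from the given one -/
theorem exists_angle {θ0 ε : ℝ} (h0 : 0 ≤ θ0) (h1 : θ0 ≤ Real.pi) (hε : 0 < ε) :
    ∃ r : ℝ, Irrational r ∧ 0 < r * Real.pi ∧ r * Real.pi < Real.pi ∧ r * Real.pi ≠ θ0 ∧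
      |r * Real.pi - θ0| < ε := by
  have hpi := Real.pi_pos
  rcases le_or_gt θ0 (Real.pi / 2) with h | h
  · obtain ⟨r, hr, hr1, hr2⟩ := exists_irrational_btwn
      (show θ0 / Real.pi < min (θ0 + ε) Real.pi / Real.pi from
        div_lt_div_of_pos_right (lt_min (by linarith) (by linarith)) hpi)
    rw [div_lt_iff₀ hpi] at hr1
    rw [lt_div_iff₀ hpi] at hr2
    have h2 := hr2.trans_le (min_le_left _ _)
    have h3 := hr2.trans_le (min_le_right _ _)
    exact ⟨r, hr, by linarith, h3, by linarith, by rw [abs_lt]; constructor <;> linarith⟩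
  · obtain ⟨r, hr, hr1, hr2⟩ := exists_irrational_btwn
      (show max (θ0 - ε) 0 / Real.pi < θ0 / Real.pi from
        div_lt_div_of_pos_right (max_lt (by linarith) (by linarith)) hpi)
    rw [div_lt_iff₀ hpi] at hr1
    rw [lt_div_iff₀ hpi] at hr2
    have h2 := (le_max_left _ _).trans_lt hr1
    have h3 := (le_max_right _ _).trans_lt hr1
    exact ⟨r, hr, h3, by linarith, by linarith, by rw [abs_lt]; constructor <;> linarith⟩

/-- small sines of multiples of an irrational angle -/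
theorem small_sin {r : ℝ} (hr : Irrational r) {ε : ℝ} (hε : 0 < ε) :
    ∃ n : ℕ, Real.sin (n * (r * Real.pi)) ≠ 0 ∧ |Real.sin (n * (r * Real.pi))| < ε := by
  obtain ⟨m, hm⟩ := exists_nat_gt (Real.pi / ε)
  have hm0 : 0 < m := by
    have h1 : (0 : ℝ) < m := lt_trans (div_pos Real.pi_pos hε) hm
    exact_mod_cast h1
  obtain ⟨j, k, hk, hkm, hjk⟩ := Real.exists_int_int_abs_mul_sub_le r hm0
  obtain ⟨n, rfl⟩ := Int.eq_ofNat_of_zero_le hk.le
  refine ⟨n, ?_, ?_⟩
  · intro h0
    rw [Real.sin_eq_zero_iff] at h0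
    obtain ⟨i, hi⟩ := h0
    have h1 : (n : ℝ) * r = i := by
      have := Real.pi_pos.ne'
      apply mul_right_cancel₀ this
      linarith
    have hn0 : (n : ℝ) ≠ 0 := by
      have : (0 : ℤ) < n := hk
      exact_mod_cast this.ne'
    have h2 : r = ((i : ℚ) / (n : ℚ) : ℚ) := by
      push_cast
      rw [eq_div_iff hn0, mul_comm]
      exact h1
    exact hr ⟨_, h2.symm⟩
  · have h1 : Real.sin (n * (r * Real.pi)) =
        (-1) ^ j * Real.sin ((n * r - j) * Real.pi) := by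
      have e : (n : ℝ) * (r * Real.pi) = (n * r - j) * Real.pi + j * Real.pi := by ring
      rw [e, Real.sin_add_int_mul_pi]
    have h2 : |Real.sin (n * (r * Real.pi))| = |Real.sin ((n * r - j) * Real.pi)| := by
      rw [h1, abs_mul, abs_zpow, abs_neg, abs_one, _root_.one_zpow, one_mul]
    rw [h2]
    have h3 : |Real.sin ((n * r - j) * Real.pi)| ≤ |(n * r - j) * Real.pi| := Real.abs_sin_le_abs
    have h4 : |(n * r - j) * Real.pi| ≤ 1 / (m + 1) * Real.pi := by
      rw [abs_mul, abs_of_pos Real.pi_pos]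
      refine mul_le_mul_of_nonneg_right ?_ Real.pi_pos.le
      simpa using hjk
    have h5 : 1 / ((m : ℝ) + 1) * Real.pi < ε := by
      rw [div_lt_iff₀ hε] at hm
      rw [one_div, inv_mul_lt_iff₀ (by positivity)]
      nlinarith
    linarith

/-- **END.** -/
theorem end_all (U : Set ℂ) (hU : IsOpen U) (hP : ∀ y ∈ U, y ∈ Qd ∧ PPc y) :
    ∀ y ∈ U, y ∉ periodicPart := by
  intro y0 hy0 hmem
  rw [periodicPart_eq] at hmem
  obtain ⟨w, hwU, hw⟩ := mem_closure_iff.1 hmem U hU hy0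
  obtain ⟨a, N, ha, hN, him, hre⟩ := BP_trace hw.2
  obtain ⟨F, hF⟩ : ∃ F : ℂ → ℂ, F = fun y => Bm a y N 0 0 + Bm a y N 1 1 := ⟨_, rfl⟩
  obtain ⟨H, hH⟩ : ∃ H : ℂ → ℂ, H = fun y => Bm a y N 1 0 := ⟨_, rfl⟩
  have hFd : Differentiable ℂ F := by
    rw [hF]; exact (Bm_differentiable a N 0 0).add (Bm_differentiable a N 1 1)
  have hHd : Differentiable ℂ H := by
    rw [hH]; exact Bm_differentiable a N 1 0
  -- `H` does not vanish in a punctured neighbourhood
  have hHne : ∀ᶠ y in 𝓝[≠] w, H y ≠ 0 := by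
    rcases (hHd.analyticAt w).eventually_eq_zero_or_eventually_ne_zero with h1 | h1
    · exfalso
      have h2 : AnalyticOnNhd ℂ H Set.univ := fun v _ => hHd.analyticAt v
      have h3 : AnalyticOnNhd ℂ (fun _ : ℂ => (0 : ℂ)) Set.univ := fun v _ => analyticAt_const
      have h4 := h2.eq_of_eventuallyEq h3 h1
      refine entry_not_zero ha hN fun y => ?_
      have := congrFun h4 y
      rw [hH] at this
      exact this
    · exact h1
  have hopen : 𝓝 (F w) ≤ map F (𝓝 w) := by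
    rcases (hFd.analyticAt w).eventually_constant_or_nhds_le_map_nhds with h1 | h1
    · exfalso
      have h2 : AnalyticOnNhd ℂ F Set.univ := fun v _ => hFd.analyticAt v
      have h3 : AnalyticOnNhd ℂ (fun _ : ℂ => F w) Set.univ := fun v _ => analyticAt_const
      have h4 := h2.eq_of_eventuallyEq h3 h1
      refine trace_not_const ha hN (F w) fun y => ?_
      have := congrFun h4 y
      rw [hF] at this ⊢
      exact this
    · exact h1
  -- the target
  obtain ⟨t, ht⟩ : ∃ t : ℝ, t = (F w).re := ⟨_, rfl⟩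
  have hFw : F w = (t : ℂ) := by
    apply Complex.ext
    · simp [ht]
    · rw [hF]; simpa using him
  have ht2 : |t| ≤ 2 := by
    rw [ht, hF]; exact hre
  obtain ⟨ht3, ht4⟩ := abs_le.1 ht2
  obtain ⟨θ0, hθ0⟩ : ∃ θ0, θ0 = Real.arccos (t / 2) := ⟨_, rfl⟩
  have hcos : 2 * Real.cos θ0 = t := by
    rw [hθ0, Real.cos_arccos (by linarith) (by linarith)]; ring
  have hθ1 : 0 ≤ θ0 := by rw [hθ0]; exact Real.arccos_nonneg _
  have hθ2 : θ0 ≤ Real.pi := by rw [hθ0]; exact Real.arccos_le_pi _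
  have hBn : U ∩ {y | y = w ∨ H y ≠ 0} ∈ 𝓝 w := by
    refine inter_mem (hU.mem_nhds hwU) ?_
    rw [eventually_nhdsWithin_iff] at hHne
    filter_upwards [hHne] with y hy
    by_cases h : y = w
    · exact Or.inl h
    · exact Or.inr (hy h)
  have hW : F '' (U ∩ {y | y = w ∨ H y ≠ 0}) ∈ 𝓝 (F w) := hopen (image_mem_map hBn)
  have hcont : Continuous (fun θ : ℝ => ((2 * Real.cos θ : ℝ) : ℂ)) := by fun_prop
  have hpre : ∀ᶠ θ in 𝓝 θ0, ((2 * Real.cos θ : ℝ) : ℂ) ∈ F '' (U ∩ {y | y = w ∨ H y ≠ 0}) := by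
    have h1 := hcont.tendsto θ0
    have h2 : ((2 * Real.cos θ0 : ℝ) : ℂ) = F w := by rw [hFw, hcos]
    rw [h2] at h1
    exact h1 hW
  obtain ⟨ε, hε, hball⟩ := Metric.eventually_nhds_iff.1 hpre
  obtain ⟨r, hr, hr1, hr2, hr3, hr4⟩ := exists_angle hθ1 hθ2 hε
  obtain ⟨y, ⟨hyU, hyH⟩, hFy⟩ := hball (y := r * Real.pi) (by rw [Real.dist_eq]; exact hr4)
  have hyw : y ≠ w := by
    rintro rfl
    rw [hFw, ← hcos] at hFy
    have h1 : Real.cos θ0 = Real.cos (r * Real.pi) := by
      have : (2 * Real.cos θ0 : ℝ) = 2 * Real.cos (r * Real.pi) := by exact_mod_cast hFy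
      linarith
    exact hr3 (Real.injOn_cos ⟨hθ1, hθ2⟩ ⟨hr1.le, hr2.le⟩ h1).symm
  have hHy : H y ≠ 0 := hyH.resolve_left hyw
  obtain ⟨⟨hyre, _⟩, δ, hδ, hPP⟩ := hP y hyU
  have hy0' : y ≠ 0 := by
    rintro rfl
    simp at hyre
  obtain ⟨g1, g2, g3, g4⟩ := Gm_eq a hy0' N
  have hG10 : Gm a y N 1 0 ≠ 0 := by
    rw [g3]
    rw [hH] at hHy
    exact mul_ne_zero hy0' hHy
  have hdet : Gm a y N 0 0 * Gm a y N 1 1 - Gm a y N 0 1 * Gm a y N 1 0 = 1 := by
    rw [g1, g2, g3, g4]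
    have := Bm_det a y N
    have e : y⁻¹ * Bm a y N 0 1 * (y * Bm a y N 1 0) = Bm a y N 0 1 * Bm a y N 1 0 := by
      field_simp
    rw [e]
    exact this
  have htr : Gm a y N 0 0 + Gm a y N 1 1 = ((2 * Real.cos (r * Real.pi) : ℝ) : ℂ) := by
    rw [g1, g4, ← hFy, hF]
  have hsin : 0 < Real.sin (r * Real.pi) := Real.sin_pos_of_pos_of_lt_pi hr1 hr2
  have hGn : 0 < ‖Gm a y N 1 0‖ := norm_pos_iff.2 hG10
  obtain ⟨n, hn1, hn2⟩ := small_sin hr (ε := δ * Real.sin (r * Real.pi) / ‖Gm a y N 1 0‖)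
    (by positivity)
  have hpe := pow_entry hdet htr n
  have hmemG : Gm a y N ^ n ∈ Gp y := Submonoid.pow_mem _ (Gm_mem ha y N) n
  have hnorm := congrArg norm hpe
  rw [norm_mul, norm_mul, Complex.norm_real, Complex.norm_real, Real.norm_eq_abs,
    Real.norm_eq_abs, abs_of_pos hsin] at hnorm
  rw [lt_div_iff₀ hGn] at hn2
  rcases hPP _ hmemG with h | h
  · rw [h, norm_zero, zero_mul] at hnorm
    have : 0 < |Real.sin (n * (r * Real.pi))| * ‖Gm a y N 1 0‖ :=
      mul_pos (abs_pos.2 hn1) hGn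
    linarith
  · have : δ * Real.sin (r * Real.pi) ≤ ‖(Gm a y N ^ n) 1 0‖ * Real.sin (r * Real.pi) :=
      mul_le_mul_of_nonneg_right h hsin.le
    linarith

end Pool.Agent.M4.W66
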