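import Pool.Agent.helper66.M4.Word
import Pool.Agent.helper81.FZ.SpecBP

/-! # M4 (MP_1b8d20_an): symmetries of the periodic part and values of the Farey polynomials -/

set_option autoImplicit false

namespace Pool.Agent.M4.W66

open Complex ComplexConjugate Pool.Agent.FZ Pool.Agent.FZR

theorem BP_I {w : ℂ} (h : BP w) : BP (I * w) := by
  obtain ⟨c, hc, ⟨p, hp, hper⟩, φ, hφ, ⟨B, hB⟩, i0, hi0⟩ := h
  refine ⟨fun i => -c i, fun i => sgn_neg (hc i), ⟨p, hp, fun n => by show -c (n + p) = -c n; rw [hper]⟩,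
    fun i => I ^ i * φ i, fun i => ?_, ⟨B, fun i => ?_⟩, i0, ?_⟩
  · have h1 : (I : ℂ) ^ (i + 1) = I ^ i * I := zpow_add_one₀ I_ne_zero i
    have h2 : (I : ℂ) ^ i = I ^ (i - 1) * I := by
      rw [← zpow_add_one₀ I_ne_zero, sub_add_cancel]
    show I ^ (i + 1) * φ (i + 1) = (I * w) • (I ^ i * φ i) - (-c i) • (I ^ (i - 1) * φ (i - 1))
    rw [hφ i, h1, h2, smul_eq_mul, smul_eq_mul, smul_eq_mul, smul_eq_mul]
    linear_combination (-(I ^ (i - 1) * c i * φ (i - 1))) * I_mul_I
  · rw [norm_mul, norm_zpow, norm_I, one_zpow, one_mul]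
    exact hB i
  · exact mul_ne_zero (zpow_ne_zero _ I_ne_zero) hi0

theorem BP_conj {w : ℂ} (h : BP w) : BP (conj w) := by
  obtain ⟨c, hc, ⟨p, hp, hper⟩, φ, hφ, ⟨B, hB⟩, i0, hi0⟩ := h
  refine ⟨c, hc, ⟨p, hp, hper⟩, fun i => conj (φ i), fun i => ?_, ⟨B, fun i => ?_⟩, i0, ?_⟩
  · show conj (φ (i + 1)) = conj w • conj (φ i) - c i • conj (φ (i - 1))
    rw [hφ i, smul_eq_mul, smul_eq_mul, smul_eq_mul, smul_eq_mul, map_sub, map_mul, map_mul]
    rcases hc i with h | h <;> rw [h] <;> simp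
  · rw [Complex.norm_conj]
    exact hB i
  · simpa using hi0

theorem mem_I {z : ℂ} (h : z ∈ periodicPart) : I * z ∈ periodicPart := by
  rw [periodicPart_eq] at h ⊢
  refine map_mem_closure (f := fun x => I * x) (by fun_prop) h ?_
  intro w hw
  exact ⟨mul_ne_zero I_ne_zero hw.1, BP_I hw.2⟩

theorem mem_neg {z : ℂ} (h : z ∈ periodicPart) : -z ∈ periodicPart := by
  have := mem_I (mem_I h)
  rwa [← mul_assoc, I_mul_I, neg_one_mul] at this

theorem mem_conj {z : ℂ} (h : z ∈ periodicPart) : conj z ∈ periodicPart := by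
  rw [periodicPart_eq] at h ⊢
  refine map_mem_closure (f := fun x => conj x) Complex.continuous_conj h ?_
  intro w hw
  exact ⟨by simpa using hw.1, BP_conj hw.2⟩

/-- the symmetries in the form of the assembly -/
theorem sym_all : (∀ z : ℂ, z ∈ periodicPart → -z ∈ periodicPart) ∧
    ∀ z : ℂ, z ∈ periodicPart → conj z ∈ periodicPart :=
  ⟨fun _ h => mem_neg h, fun _ h => mem_conj h⟩

/-- a fourth root of unity times a real number of `[-2,2]` -/
theorem BP_unit {u : ℂ} (hu : u ^ 4 = 1) {x : ℝ} (h1 : -2 ≤ x) (h2 : x ≤ 2) :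
    BP (u * x) := by
  have h : (u - 1) * (u + 1) * ((u - I) * (u + I)) = 0 := by
    linear_combination hu - (u ^ 2 - 1) * I_sq
  have hx := BP_real h1 h2
  have hx' := BP_real (x := -x) (by linarith) (by linarith)
  rcases mul_eq_zero.1 h with h | h
  · rcases mul_eq_zero.1 h with h | h
    · rw [sub_eq_zero.1 h, one_mul]; exact hx
    · rw [eq_neg_of_add_eq_zero_left h]
      push_cast at hx'
      rwa [neg_one_mul]
  · rcases mul_eq_zero.1 h with h | h
    · rw [sub_eq_zero.1 h]; exact BP_I hx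
    · rw [eq_neg_of_add_eq_zero_left h]
      have := BP_I hx'
      push_cast at this
      rwa [mul_neg, ← neg_mul] at this

/-- Farey polynomials are large and do not take values in `[-2,2]` outside the periodic part. -/
theorem good_all {z : ℂ} (hz : z ∉ periodicPart) : 1 ≤ ‖z‖ ∧ (∀ w, 1 ≤ ‖Nf w z‖) ∧
    ∀ w, (Nf w z).im = 0 → 2 < |(Nf w z).re| := by
  have hz' : z ∉ closure BPs := by rwa [← periodicPart_eq]
  have hzi : z ∉ interior (closure BPs) := fun h => hz' (interior_subset h)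
  have hl := large hzi
  have h1 : 1 ≤ ‖z‖ := by
    have := hl 0 (fun _ => 1) (fun _ => Or.inl rfl)
    rwa [K_zero, mul_one] at this
  have hz0 : z ≠ 0 := by
    intro h
    rw [h, norm_zero] at h1
    linarith
  refine ⟨h1, fun w => ?_, fun w him => ?_⟩
  · obtain ⟨n, k, u, hk, hu, h⟩ := word w
    have hu1 : ‖u‖ = 1 := by
      have : ‖u‖ ^ 4 = 1 := by rw [← norm_pow, hu, norm_one]
      exact (pow_eq_one_iff_of_nonneg (norm_nonneg _) (by norm_num)).1 this
    rw [h z hz0, norm_mul, hu1, one_mul]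
    exact hl n k hk
  · by_contra hcon
    rw [not_lt] at hcon
    obtain ⟨n, k, u, hk, hu, h⟩ := word w
    have hu0 : u ≠ 0 := by
      intro h0
      rw [h0] at hu
      norm_num at hu
    obtain ⟨x, hx⟩ : ∃ x : ℝ, x = (Nf w z).re := ⟨_, rfl⟩
    have hx2 : Nf w z = (x : ℂ) := by
      apply Complex.ext
      · simp [hx]
      · simp [him]
    rw [← hx] at hcon
    obtain ⟨hc1, hc2⟩ := abs_le.1 hcon
    have hKx : z * K z k n = u⁻¹ * x := by
      rw [← hx2, h z hz0]
      field_simp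
    have hK : K z k n ≠ 0 := by
      intro h0
      have := hl n k hk
      rw [h0, mul_zero, norm_zero] at this
      linarith
    have hbp : BP (z * K z k n) := by
      rw [hKx]
      exact BP_unit (by rw [inv_pow, hu, inv_one]) hc1 hc2
    exact hz' (subset_closure ⟨hz0, BP_lift hk n hK hbp⟩)

end Pool.Agent.M4.W66
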