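import Pool.Agent.helper81.FZ.SpecBP

/-! # M4 (MP_1b8d20_an): the numerical range: `|Re z| + |Im z| ≤ 2` on the periodic part -/

set_option autoImplicit false

namespace Pool.Agent.M4.W66

open Complex ComplexConjugate Pool.Agent.FZ Pool.Agent.FZR Filter Topology

theorem two_norm_mul_le (x y : ℂ) : 2 * ‖x * conj y‖ ≤ ‖x‖ ^ 2 + ‖y‖ ^ 2 := by
  rw [norm_mul, Complex.norm_conj]
  nlinarith [sq_nonneg (‖x‖ - ‖y‖)]

theorem window (w : ℂ) {c φ : ℤ → ℂ} (hc : ∀ i, c i = 1 ∨ c i = -1)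
    (hφ : ∀ i, φ (i + 1) = w • φ i - c i • φ (i - 1)) (m : ℤ) (N : ℕ) :
    (|w.re| + |w.im| - 2) * ∑ n ∈ Finset.range N, ‖φ (m + n)‖ ^ 2 ≤
      3 * (‖φ (m - 1)‖ ^ 2 + ‖φ m‖ ^ 2 + ‖φ (m + N - 1)‖ ^ 2 + ‖φ (m + N)‖ ^ 2) := by
  obtain ⟨σ, hσ, hσw⟩ : ∃ σ : ℝ, (σ = 1 ∨ σ = -1) ∧ σ * w.re = |w.re| := by
    rcases le_or_gt 0 w.re with h | h
    · exact ⟨1, Or.inl rfl, by rw [abs_of_nonneg h, one_mul]⟩
    · exact ⟨-1, Or.inr rfl, by rw [abs_of_neg h]; ring⟩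
  obtain ⟨τ, hτ, hτw⟩ : ∃ τ : ℝ, (τ = 1 ∨ τ = -1) ∧ τ * w.im = |w.im| := by
    rcases le_or_gt 0 w.im with h | h
    · exact ⟨1, Or.inl rfl, by rw [abs_of_nonneg h, one_mul]⟩
    · exact ⟨-1, Or.inr rfl, by rw [abs_of_neg h]; ring⟩
  obtain ⟨t, ht⟩ : ∃ t : ℤ → ℂ, ∀ n, t n = φ (n + 1) * conj (φ n) := ⟨_, fun _ => rfl⟩
  obtain ⟨a, ha⟩ : ∃ a : ℤ → ℝ, ∀ n, a n = σ * (t n).re + τ * (t n).im := ⟨_, fun _ => rfl⟩
  obtain ⟨b, hb⟩ : ∃ b : ℤ → ℝ, ∀ n, b n = σ * (c (n + 1) * conj (t n)).re +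
    τ * (c (n + 1) * conj (t n)).im := ⟨_, fun _ => rfl⟩
  have htn : ∀ n, 2 * ‖t n‖ ≤ ‖φ (n + 1)‖ ^ 2 + ‖φ n‖ ^ 2 := by
    intro n
    rw [ht]
    exact two_norm_mul_le _ _
  have hf : ∀ n, (|w.re| + |w.im|) * ‖φ n‖ ^ 2 = a n + b (n - 1) := by
    intro n
    have h1 : w * ((‖φ n‖ ^ 2 : ℝ) : ℂ) = t n + c n * conj (t (n - 1)) := by
      have h2 : φ n * conj (φ n) = ((‖φ n‖ ^ 2 : ℝ) : ℂ) := by
        rw [Complex.mul_conj, Complex.normSq_eq_norm_sq]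
      rw [← h2, ht, ht, sub_add_cancel, map_mul, Complex.conj_conj, hφ n, smul_eq_mul, smul_eq_mul]
      ring
    have h3 : (w * ((‖φ n‖ ^ 2 : ℝ) : ℂ)).re = w.re * ‖φ n‖ ^ 2 := Complex.re_mul_ofReal _ _
    have h4 : (w * ((‖φ n‖ ^ 2 : ℝ) : ℂ)).im = w.im * ‖φ n‖ ^ 2 := Complex.im_mul_ofReal _ _
    rw [h1, Complex.add_re] at h3
    rw [h1, Complex.add_im] at h4
    rw [ha, hb, sub_add_cancel, ← hσw, ← hτw]
    linear_combination (-σ) * h3 + (-τ) * h4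
  have hab : ∀ n, a n + b n ≤ ‖φ (n + 1)‖ ^ 2 + ‖φ n‖ ^ 2 := by
    intro n
    refine le_trans ?_ (htn n)
    have h1 := Complex.abs_re_le_norm (t n)
    have h2 := Complex.abs_im_le_norm (t n)
    have h3 := abs_le.1 h1
    have h4 := abs_le.1 h2
    rw [ha, hb]
    rcases hc (n + 1) with h | h <;> rw [h] <;> simp only [one_mul, neg_one_mul, Complex.conj_re,
      Complex.conj_im, Complex.neg_re, Complex.neg_im] <;>
      rcases hσ with h' | h' <;> rcases hτ with h'' | h'' <;> rw [h', h''] <;> linarith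
  have hbn : ∀ n, |b n| ≤ ‖φ (n + 1)‖ ^ 2 + ‖φ n‖ ^ 2 := by
    intro n
    refine le_trans ?_ (htn n)
    have h1 := Complex.abs_re_le_norm (t n)
    have h2 := Complex.abs_im_le_norm (t n)
    have h3 := abs_le.1 h1
    have h4 := abs_le.1 h2
    rw [hb, abs_le]
    rcases hc (n + 1) with h | h <;> rw [h] <;> simp only [one_mul, neg_one_mul, Complex.conj_re,
      Complex.conj_im, Complex.neg_re, Complex.neg_im] <;>
      rcases hσ with h' | h' <;> rcases hτ with h'' | h'' <;> rw [h', h''] <;> constructor <;> linarith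
  have key : ∀ N : ℕ, (|w.re| + |w.im|) * ∑ n ∈ Finset.range N, ‖φ (m + n)‖ ^ 2 ≤
      2 * ∑ n ∈ Finset.range N, ‖φ (m + n)‖ ^ 2 + ‖φ (m + N)‖ ^ 2 - ‖φ m‖ ^ 2 + b (m - 1) -
        b (m + N - 1) := by
    intro N
    induction N with
    | zero => simp
    | succ N ih =>
      rw [Finset.sum_range_succ, mul_add, mul_add, hf (m + N)]
      have h1 := hab (m + N)
      have e1 : m + ((N + 1 : ℕ) : ℤ) = m + N + 1 := by push_cast; ring
      rw [e1, add_sub_cancel_right]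
      linarith
  have h1 := key N
  have h2 := abs_le.1 (hbn (m - 1))
  have h3 := abs_le.1 (hbn (m + N - 1))
  rw [sub_add_cancel] at h2 h3
  have g1 := sq_nonneg ‖φ (m - 1)‖
  have g2 := sq_nonneg ‖φ m‖
  have g3 := sq_nonneg ‖φ (m + N - 1)‖
  have g4 := sq_nonneg ‖φ (m + N)‖
  linarith [h2.1, h2.2, h3.1, h3.2]

theorem BP_wide {w : ℂ} (h : BP w) : |w.re| + |w.im| ≤ 2 := by
  by_contra hcon
  rw [not_le] at hcon
  obtain ⟨c, hc, _, φ, hφ, ⟨B, hB⟩, i0, hi0⟩ := h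
  have hδ : 0 < |w.re| + |w.im| - 2 := by linarith
  have hB2 : ∀ i, ‖φ i‖ ^ 2 ≤ B ^ 2 := fun i => pow_le_pow_left₀ (norm_nonneg _) (hB i) 2
  have hsum : Summable (fun i : ℤ => ‖φ i‖ ^ 2) := by
    refine summable_of_sum_le (c := 12 * B ^ 2 / (|w.re| + |w.im| - 2)) (fun i => by positivity) ?_
    intro u
    obtain ⟨K, hK⟩ : ∃ K : ℕ, ∀ i ∈ u, -(K : ℤ) ≤ i ∧ i ≤ K := by
      refine ⟨∑ i ∈ u, i.natAbs, fun i hi => ?_⟩
      have := Finset.single_le_sum (f := fun i : ℤ => i.natAbs) (fun _ _ => Nat.zero_le _) hi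
      omega
    have h1 := window w hc hφ (-(K : ℤ)) (2 * K + 1)
    have h2 : ∑ i ∈ u, ‖φ i‖ ^ 2 ≤ ∑ n ∈ Finset.range (2 * K + 1), ‖φ (-(K : ℤ) + n)‖ ^ 2 := by
      rw [← Finset.sum_image (s := Finset.range (2 * K + 1)) (g := fun n : ℕ => -(K : ℤ) + n)
        (f := fun i => ‖φ i‖ ^ 2) (by intro x _ y _ hxy; simpa using hxy)]
      apply Finset.sum_le_sum_of_subset_of_nonneg
      · intro i hi
        rw [Finset.mem_image]
        have := hK i hi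
        refine ⟨(i + K).toNat, ?_, ?_⟩
        · rw [Finset.mem_range]; omega
        · omega
      · intro i _ _
        positivity
    refine h2.trans ?_
    rw [le_div_iff₀ hδ]
    have g1 := hB2 (-(K : ℤ) - 1)
    have g2 := hB2 (-(K : ℤ))
    have g3 := hB2 (-(K : ℤ) + ((2 * K + 1 : ℕ) : ℤ) - 1)
    have g4 := hB2 (-(K : ℤ) + ((2 * K + 1 : ℕ) : ℤ))
    linarith
  have hc0 := hsum.tendsto_cofinite_zero
  have hinj : ∀ s : ℤ, Tendsto (fun N : ℕ => i0 + N + s) atTop cofinite := by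
    intro s
    rw [← Nat.cofinite_eq_atTop]
    apply Function.Injective.tendsto_cofinite
    intro x y hxy
    simpa using hxy
  have hinj' : ∀ s : ℤ, Tendsto (fun N : ℕ => i0 - N + s) atTop cofinite := by
    intro s
    rw [← Nat.cofinite_eq_atTop]
    apply Function.Injective.tendsto_cofinite
    intro x y hxy
    simpa using hxy
  have hlim : Tendsto (fun N : ℕ => 3 * (‖φ (i0 - N + -1)‖ ^ 2 + ‖φ (i0 - N + 0)‖ ^ 2 +
      ‖φ (i0 + N + 0)‖ ^ 2 + ‖φ (i0 + N + 1)‖ ^ 2)) atTop (𝓝 (3 * (0 + 0 + 0 + 0))) :=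
    ((((hc0.comp (hinj' (-1))).add (hc0.comp (hinj' 0))).add (hc0.comp (hinj 0))).add
      (hc0.comp (hinj 1))).const_mul 3
  have hle : ∀ N : ℕ, (|w.re| + |w.im| - 2) * ‖φ i0‖ ^ 2 ≤
      3 * (‖φ (i0 - N + -1)‖ ^ 2 + ‖φ (i0 - N + 0)‖ ^ 2 +
      ‖φ (i0 + N + 0)‖ ^ 2 + ‖φ (i0 + N + 1)‖ ^ 2) := by
    intro N
    have h1 := window w hc hφ (i0 - N) (2 * N + 1)
    have h2 : ‖φ i0‖ ^ 2 ≤ ∑ n ∈ Finset.range (2 * N + 1), ‖φ (i0 - N + n)‖ ^ 2 := by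
      have := Finset.single_le_sum (f := fun n : ℕ => ‖φ (i0 - N + n)‖ ^ 2)
        (s := Finset.range (2 * N + 1)) (fun _ _ => by positivity)
        (Finset.mem_range.2 (show N < 2 * N + 1 by omega))
      simp only [sub_add_cancel] at this
      exact this
    have e1 : i0 - (N : ℤ) + ((2 * N + 1 : ℕ) : ℤ) - 1 = i0 + N + 0 := by push_cast; ring
    have e2 : i0 - (N : ℤ) + ((2 * N + 1 : ℕ) : ℤ) = i0 + N + 1 := by push_cast; ring
    have e3 : i0 - (N : ℤ) - 1 = i0 - N + -1 := by ring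
    have e4 : i0 - (N : ℤ) = i0 - N + 0 := by ring
    rw [e1, e2, e3] at h1
    have h3 := mul_le_mul_of_nonneg_left h2 hδ.le
    rw [← e4]
    linarith
  have hfin := ge_of_tendsto hlim (Eventually.of_forall hle)
  have hpos : 0 < ‖φ i0‖ ^ 2 := by
    have : 0 < ‖φ i0‖ := norm_pos_iff.2 hi0
    positivity
  have := mul_pos hδ hpos
  linarith

/-- the numerical range -/
theorem wide_all (z : ℂ) (h : 2 < |z.re| + |z.im|) : z ∉ periodicPart := by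
  intro hz
  rw [periodicPart_eq] at hz
  have hcl : IsClosed {z : ℂ | |z.re| + |z.im| ≤ 2} :=
    isClosed_le (by fun_prop) continuous_const
  have : z ∈ {z : ℂ | |z.re| + |z.im| ≤ 2} :=
    closure_minimal (fun w hw => BP_wide hw.2) hcl hz
  exact absurd h (not_lt.2 this)

end Pool.Agent.M4.W66
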