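import Pool.Agent.helper66.M4.Zone
import Pool.Agent.helper95.M4.Chk

/-! # M4 (MP_1b8d20_an): the zone lemma on the Farey tree

For a point `z` at which all Farey polynomials are `≥ 1` in absolute value and none of them takes
a value in `[-2,2]`: `‖z‖² ≥ 1.277`, `‖Nf w z‖² ≥ 1.69` for `w ≠ []`, `‖Nf w z‖² ≥ 1.83` for
mixed words `w`.
-/

set_option autoImplicit false

namespace Pool.Agent.M4

open Complex ComplexConjugate

theorem Tr_right (w : List Bool) (z : ℂ) (n : ℕ) :
    Lf (List.replicate n false ++ true :: w) z = Nf w z ∧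
      Rf (List.replicate 0 false ++ true :: w) z = Rf w z ∧
      Rf (List.replicate (n + 1) false ++ true :: w) z =
        Nf (List.replicate n false ++ true :: w) z ∧
      Nf (List.replicate (n + 1) false ++ true :: w) z =
        Nf w z * Nf (List.replicate n false ++ true :: w) z -
          Rf (List.replicate n false ++ true :: w) z := by
  have hL : ∀ n : ℕ, Lf (List.replicate n false ++ true :: w) z = Nf w z := by
    intro n
    induction n with
    | zero => rfl
    | succ n ih =>
      rw [List.replicate_succ, List.cons_append]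
      exact ih
  refine ⟨hL n, rfl, rfl, ?_⟩
  rw [← hL n]
  rfl

theorem Tr_left (w : List Bool) (z : ℂ) (n : ℕ) :
    Rf (List.replicate n true ++ false :: w) z = Nf w z ∧
      Lf (List.replicate 0 true ++ false :: w) z = Lf w z ∧
      Lf (List.replicate (n + 1) true ++ false :: w) z =
        Nf (List.replicate n true ++ false :: w) z ∧
      Nf (List.replicate (n + 1) true ++ false :: w) z =
        Nf w z * Nf (List.replicate n true ++ false :: w) z -
          Lf (List.replicate n true ++ false :: w) z := by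
  have hR : ∀ n : ℕ, Rf (List.replicate n true ++ false :: w) z = Nf w z := by
    intro n
    induction n with
    | zero => rfl
    | succ n ih =>
      rw [List.replicate_succ, List.cons_append]
      exact ih
  refine ⟨hR n, rfl, rfl, ?_⟩
  rw [← hR n, mul_comm]
  rfl

/-- The fan about the vertex `w`. -/
theorem exists_fan (w : List Bool) (z : ℂ) : ∃ x : ℤ → ℂ, Fan (Nf w z) x ∧ x 0 = Lf w z ∧
    x 1 = Rf w z ∧ (∀ n : ℕ, x (n + 2) = Nf (List.replicate n false ++ true :: w) z) ∧
    ∀ n : ℕ, x (-1 - n) = Nf (List.replicate n true ++ false :: w) z := by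
  let x : ℤ → ℂ := fun k => match k with
    | Int.ofNat 0 => Lf w z
    | Int.ofNat 1 => Rf w z
    | Int.ofNat (n + 2) => Nf (List.replicate n false ++ true :: w) z
    | Int.negSucc n => Nf (List.replicate n true ++ false :: w) z
  have h0 : x 0 = Lf w z := rfl
  have h1 : x 1 = Rf w z := rfl
  have hp : ∀ n : ℕ, x (n + 2) = Nf (List.replicate n false ++ true :: w) z := by
    intro n
    rfl
  have hm : ∀ n : ℕ, x (-1 - n) = Nf (List.replicate n true ++ false :: w) z := by
    intro n
    have : (-1 - (n : ℤ)) = Int.negSucc n := by rw [Int.negSucc_eq]; ring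
    rw [this]
  have hpR : ∀ n : ℕ, x (n + 1) = Rf (List.replicate n false ++ true :: w) z := by
    intro n
    cases n with
    | zero => rfl
    | succ n =>
      have e : (((n + 1 : ℕ) : ℤ) + 1) = (n : ℤ) + 2 := by push_cast; ring
      rw [e, hp, (Tr_right w z n).2.2.1]
  have hmL : ∀ n : ℕ, x (-n) = Lf (List.replicate n true ++ false :: w) z := by
    intro n
    cases n with
    | zero => rfl
    | succ n =>
      have e : (-((n + 1 : ℕ) : ℤ)) = -1 - (n : ℤ) := by push_cast; ring
      rw [e, hm, (Tr_left w z n).2.2.1]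
  -- the recursion to the right
  have sR : ∀ n : ℕ, x (n + 2) = Nf w z * x (n + 1) - x n := by
    intro n
    cases n with
    | zero => simp only [Nat.cast_zero, zero_add]; rw [h1, h0]; rfl
    | succ n =>
      have e1 : (((n + 1 : ℕ) : ℤ) + 2) = (((n + 1 : ℕ)) : ℤ) + 2 := rfl
      rw [hp (n + 1), (Tr_right w z n).2.2.2, ← hp n, ← hpR n]
      push_cast
      have e2 : (n : ℤ) + 1 + 1 = (n : ℤ) + 2 := by ring
      rw [e2]
  have sL : ∀ n : ℕ, x (-1 - n) = Nf w z * x (-n) - x (1 - n) := by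
    intro n
    cases n with
    | zero =>
      simp only [Nat.cast_zero, sub_zero, neg_zero]
      rw [h1, h0, mul_comm]; rfl
    | succ n =>
      rw [hm (n + 1), (Tr_left w z n).2.2.2, ← hm n, ← hmL n]
      have e2 : (1 : ℤ) - ((n + 1 : ℕ) : ℤ) = -n := by push_cast; ring
      have e3 : (-((n + 1 : ℕ) : ℤ)) = -1 - (n : ℤ) := by push_cast; ring
      rw [e2, e3]
  refine ⟨x, ⟨?_, ?_⟩, h0, h1, hp, hm⟩
  · intro k
    obtain ⟨n, hn⟩ := Int.eq_nat_or_neg k
    rcases hn with hn | hn
    · cases n with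
      | zero =>
        have := sL 0
        simp only [Nat.cast_zero, sub_zero, neg_zero] at this
        rw [hn]
        simp only [Nat.cast_zero, zero_add, zero_sub]
        rw [this]; ring
      | succ n =>
        have := sR n
        rw [hn]
        push_cast
        have e1 : (n : ℤ) + 1 + 1 = n + 2 := by ring
        have e2 : (n : ℤ) + 1 - 1 = n := by ring
        rw [e1, e2, this]
    · have := sL n
      rw [hn]
      have e1 : -(n : ℤ) + 1 = 1 - n := by ring
      have e2 : -(n : ℤ) - 1 = -1 - n := by ring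
      rw [e1, e2, this]; ring
  · intro k
    obtain ⟨n, hn⟩ := Int.eq_nat_or_neg k
    rcases hn with hn | hn
    · cases n with
      | zero =>
        have := Mk_Tr w z
        unfold Mk at this
        rw [hn]
        simp only [Nat.cast_zero, zero_add]
        rw [h0, h1]
        linear_combination this
      | succ n =>
        have := Mk_Tr (List.replicate n false ++ true :: w) z
        unfold Mk at this
        rw [(Tr_right w z n).1, ← hp n, ← hpR n] at this
        rw [hn]
        push_cast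
        have e1 : (n : ℤ) + 1 + 1 = n + 2 := by ring
        rw [e1]
        linear_combination this
    · cases n with
      | zero =>
        have := Mk_Tr w z
        unfold Mk at this
        rw [hn]
        simp only [Nat.cast_zero, zero_add, neg_zero]
        rw [h0, h1]
        linear_combination this
      | succ n =>
        have := Mk_Tr (List.replicate n true ++ false :: w) z
        unfold Mk at this
        rw [(Tr_left w z n).1, ← hm n, ← hmL n] at this
        rw [hn]
        have e2 : -((n + 1 : ℕ) : ℤ) + 1 = -n := by push_cast; ring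
        have e3 : (-((n + 1 : ℕ) : ℤ)) = -1 - (n : ℤ) := by push_cast; ring
        rw [e2, e3]
        linear_combination this

/-- The zone lemma with the two end point means. -/
theorem zone' {P : ℂ} {x : ℤ → ℂ} (hx : Fan P x) (hP : P.im = 0 → 2 < |P.re|) {M : ℝ}
    (hM0 : 0 ≤ M) (hM2 : M ≤ 2)
    (h : ∀ k : ℤ, M ≤ (‖x (k - 1)‖ ^ 2 + ‖x (k + 1)‖ ^ 2) / 2 ∧
      M ≤ ‖x (k - 1)‖ ^ 2 / 4 + ‖x k‖ ^ 2 / 2 + ‖x (k + 1)‖ ^ 2 / 4) :
    4 * M / (2 + M) ≤ ‖P‖ ^ 2 := by
  refine zone hx (fun hc => absurd (hP hc.1) (not_lt.2 hc.2)) hM0 hM2 ?_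
  intro k q h1 h2
  obtain ⟨ha, hb⟩ := h k
  nlinarith [mul_le_mul_of_nonneg_left ha (show 0 ≤ 4 * q - 1 by linarith),
    mul_le_mul_of_nonneg_left hb (show 0 ≤ 2 - 4 * q by linarith)]

/-- The means of three consecutive terms, from lower bounds of the terms. -/
theorem means {X : ℤ → ℝ} {u v c : ℝ} (huv : u ≤ v) (hvc : v ≤ c) (hp : ∀ k : ℤ, 2 ≤ k → c ≤ X k)
    (hm : ∀ k : ℤ, k ≤ -1 → c ≤ X k) (h01 : (u ≤ X 0 ∧ v ≤ X 1) ∨ (v ≤ X 0 ∧ u ≤ X 1)) (k : ℤ) :
    u / 2 + v / 4 + c / 4 ≤ (X (k - 1) + X (k + 1)) / 2 ∧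
      u / 2 + v / 4 + c / 4 ≤ X (k - 1) / 4 + X k / 2 + X (k + 1) / 4 := by
  have hc : k ≤ -2 ∨ k = -1 ∨ k = 0 ∨ k = 1 ∨ k = 2 ∨ 3 ≤ k := by omega
  rcases hc with hk | hk | hk | hk | hk | hk
  · have g1 := hm (k - 1) (by omega)
    have g2 := hm k (by omega)
    have g3 := hm (k + 1) (by omega)
    constructor <;> linarith
  · have g1 := hm (k - 1) (by omega)
    have g2 := hm k (by omega)
    have e : k + 1 = 0 := by omega
    rw [e]
    rcases h01 with ⟨g4, g5⟩ | ⟨g4, g5⟩ <;> constructor <;> linarith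
  · have g1 := hm (-1) (by omega)
    have e : k + 1 = 1 := by omega
    have e' : k - 1 = -1 := by omega
    rw [e, e', hk]
    rcases h01 with ⟨g4, g5⟩ | ⟨g4, g5⟩ <;> constructor <;> linarith
  · have g1 := hp 2 (by omega)
    have e : k - 1 = 0 := by omega
    have e' : k + 1 = 2 := by omega
    rw [e, e', hk]
    rcases h01 with ⟨g4, g5⟩ | ⟨g4, g5⟩ <;> constructor <;> linarith
  · have g1 := hp (k + 1) (by omega)
    have g2 := hp k (by omega)
    have e : k - 1 = 1 := by omega
    rw [e]
    rcases h01 with ⟨g4, g5⟩ | ⟨g4, g5⟩ <;> constructor <;> linarith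
  · have g1 := hp (k - 1) (by omega)
    have g2 := hp k (by omega)
    have g3 := hp (k + 1) (by omega)
    constructor <;> linarith

/-- The zone lemma at the vertex `w`, from bounds of the neighbours. -/
theorem zone_at (w : List Bool) (z : ℂ) (hr : (Nf w z).im = 0 → 2 < |(Nf w z).re|) {u v c : ℝ}
    (hu : 0 ≤ u) (huv : u ≤ v) (hvc : v ≤ c) (hc2 : c ≤ 2)
    (hc : ∀ w' : List Bool, (true ∈ w' ∨ false ∈ w') → (true ∈ w → true ∈ w') →
      (false ∈ w → false ∈ w') → w' ≠ w → w'.length > w.length → c ≤ ‖Nf w' z‖ ^ 2)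
    (h01 : (u ≤ ‖Lf w z‖ ^ 2 ∧ v ≤ ‖Rf w z‖ ^ 2) ∨ (v ≤ ‖Lf w z‖ ^ 2 ∧ u ≤ ‖Rf w z‖ ^ 2)) :
    4 * (u / 2 + v / 4 + c / 4) / (2 + (u / 2 + v / 4 + c / 4)) ≤ ‖Nf w z‖ ^ 2 := by
  obtain ⟨x, hx, x0, x1, xp, xm⟩ := exists_fan w z
  have hxp' : ∀ k : ℤ, 2 ≤ k → c ≤ ‖x k‖ ^ 2 := by
    intro k hk
    obtain ⟨n, hn⟩ := Int.eq_ofNat_of_zero_le (show 0 ≤ k - 2 by omega)
    have e : k = (n : ℤ) + 2 := by omega
    rw [e, xp n]
    refine hc _ ?_ ?_ ?_ ?_ ?_
    · simp
    · intro _; simp
    · intro h; simp [h]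
    · intro h
      have := congrArg List.length h
      simp at this
      omega
    · simp; omega
  have hxm' : ∀ k : ℤ, k ≤ -1 → c ≤ ‖x k‖ ^ 2 := by
    intro k hk
    obtain ⟨n, hn⟩ := Int.eq_ofNat_of_zero_le (show 0 ≤ -1 - k by omega)
    have e : k = -1 - (n : ℤ) := by omega
    rw [e, xm n]
    refine hc _ ?_ ?_ ?_ ?_ ?_
    · simp
    · intro h; simp [h]
    · intro _; simp
    · intro h
      have := congrArg List.length h
      simp at this
      omega
    · simp; omega
  rw [← x0, ← x1] at h01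
  exact zone' hx hr (by linarith) (by linarith)
    (fun k => means huv hvc hxp' hxm' h01 k)

/-- Lower bounds of the squares of the Farey polynomials at `z`. -/
structure ZB (z : ℂ) (Z a d : ℝ) : Prop where
  bz : Z ≤ ‖z‖ ^ 2
  ba : ∀ w : List Bool, w ≠ [] → a ≤ ‖Nf w z‖ ^ 2
  bd : ∀ w : List Bool, true ∈ w → false ∈ w → d ≤ ‖Nf w z‖ ^ 2

theorem nsq_Nf_nil (z : ℂ) : ‖Nf [] z‖ ^ 2 = (‖z‖ ^ 2) ^ 2 := by
  show ‖-I * z ^ 2‖ ^ 2 = _
  rw [norm_mul, norm_neg, norm_I, one_mul, norm_pow]

/-- every left entry is the root entry or a vertex. -/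
theorem Lf_of_true {w : List Bool} (h : true ∈ w) (z : ℂ) : ∃ v, Lf w z = Nf v z := by
  induction w with
  | nil => simp at h
  | cons b w ih =>
    cases b with
    | true => exact ⟨w, rfl⟩
    | false =>
      have h' : true ∈ w := by simpa using h
      obtain ⟨v, hv⟩ := ih h'
      exact ⟨v, hv⟩

theorem Rf_of_false {w : List Bool} (h : false ∈ w) (z : ℂ) : ∃ v, Rf w z = Nf v z := by
  induction w with
  | nil => simp at h
  | cons b w ih =>
    cases b with
    | false => exact ⟨w, rfl⟩
    | true =>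
      have h' : false ∈ w := by simpa using h
      obtain ⟨v, hv⟩ := ih h'
      exact ⟨v, hv⟩

theorem Lf_of_not {w : List Bool} (h : true ∉ w) (z : ℂ) : Lf w z = z := by
  induction w with
  | nil => rfl
  | cons b w ih =>
    cases b with
    | true => simp at h
    | false => exact ih (by simpa using h)

theorem Rf_of_not {w : List Bool} (h : false ∉ w) (z : ℂ) : Rf w z = -I * z := by
  induction w with
  | nil => rfl
  | cons b w ih =>
    cases b with
    | false => simp at h
    | true => exact ih (by simpa using h)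

/-- One step of the bootstrap. -/
theorem ZB.next {z : ℂ} {Z a d : ℝ} (h : ZB z Z a d) (hr : ∀ w, (Nf w z).im = 0 → 2 < |(Nf w z).re|)
    (h1 : 1 ≤ Z) (h3 : Z ^ 2 ≤ a) (h4 : a ≤ d) (h5 : d ≤ 2)
    {Z' a' d' : ℝ} (hZ0 : 0 ≤ Z')
    (hZ : Z' ^ 2 ≤ 4 * (Z / 2 + Z / 4 + a / 4) / (2 + (Z / 2 + Z / 4 + a / 4)))
    (ha : a' ≤ 4 * (Z / 2 + Z ^ 2 / 4 + a / 4) / (2 + (Z / 2 + Z ^ 2 / 4 + a / 4)))
    (hd : d' ≤ 4 * (Z ^ 2 / 2 + a / 4 + d / 4) / (2 + (Z ^ 2 / 2 + a / 4 + d / 4))) :
    ZB z Z' (min a' d') d' := by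
  obtain ⟨bz, ba, bd⟩ := h
  have hZZ : Z ≤ Z ^ 2 := by nlinarith
  -- all vertices are at least `Z ^ 2`
  have hall : ∀ w, Z ^ 2 ≤ ‖Nf w z‖ ^ 2 := by
    intro w
    by_cases hw : w = []
    · rw [hw, nsq_Nf_nil]
      exact pow_le_pow_left₀ (by linarith) bz 2
    · exact h3.trans (ba w hw)
  have hroot : Z ≤ ‖-I * z‖ ^ 2 := by
    rw [norm_mul, norm_neg, norm_I, one_mul]; exact bz
  have hmix : ∀ w : List Bool, true ∈ w → false ∈ w → d' ≤ ‖Nf w z‖ ^ 2 := by
    intro w ht hf
    refine hd.trans (zone_at w z (hr w) (by linarith) h3 h4 h5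
      (fun w' _ g1 g2 _ _ => bd w' (g1 ht) (g2 hf)) ?_)
    cases w with
    | nil => simp at ht
    | cons b w =>
      cases b with
      | true =>
        right
        obtain ⟨v, hv⟩ := Rf_of_false hf z
        have hf' : false ∈ w := by
          rcases List.mem_cons.1 hf with h | h
          · exact absurd h (by decide)
          · exact h
        exact ⟨ba w (List.ne_nil_of_mem hf'), by rw [hv]; exact hall v⟩
      | false =>
        left
        obtain ⟨v, hv⟩ := Lf_of_true ht z
        have ht' : true ∈ w := by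
          rcases List.mem_cons.1 ht with h | h
          · exact absurd h (by decide)
          · exact h
        exact ⟨by rw [hv]; exact hall v, ba w (List.ne_nil_of_mem ht')⟩
  have hpure : ∀ w : List Bool, w ≠ [] → ¬ (true ∈ w ∧ false ∈ w) → a' ≤ ‖Nf w z‖ ^ 2 := by
    intro w hw hnm
    refine ha.trans (zone_at w z (hr w) (by linarith) hZZ h3 (h4.trans h5)
      (fun w' _ _ _ _ hl => ba w' (by rintro rfl; simp at hl)) ?_)
    cases w with
    | nil => exact absurd rfl hw
    | cons b w =>
      cases b with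
      | true =>
        right
        have hf : false ∉ true :: w := fun h => hnm ⟨by simp, h⟩
        exact ⟨hall w, by rw [Rf_of_not hf]; exact hroot⟩
      | false =>
        left
        have ht : true ∉ false :: w := fun h => hnm ⟨h, by simp⟩
        exact ⟨by rw [Lf_of_not ht]; exact bz, hall w⟩
  have hz' : Z' ≤ ‖z‖ ^ 2 := by
    have hN := zone_at [] z (hr []) (u := Z) (v := Z) (c := a) (by linarith) le_rfl
      (by linarith) (by linarith)
      (fun w' _ _ _ _ hl => ba w' (by rintro rfl; simp at hl)) (Or.inl ⟨bz, hroot⟩)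
    rw [nsq_Nf_nil] at hN
    have h6 : Z' ^ 2 ≤ (‖z‖ ^ 2) ^ 2 := hZ.trans hN
    exact (pow_le_pow_iff_left₀ hZ0 (by positivity) (by norm_num)).1 h6
  refine ⟨hz', ?_, hmix⟩
  intro w hw
  by_cases hm : true ∈ w ∧ false ∈ w
  · exact (min_le_right _ _).trans (hmix w hm.1 hm.2)
  · exact (min_le_left _ _).trans (hpure w hw hm)

/-- The bootstrap. -/
theorem zone_bounds {z : ℂ} (h1 : 1 ≤ ‖z‖) (hbig : ∀ w, 1 ≤ ‖Nf w z‖)
    (hr : ∀ w, (Nf w z).im = 0 → 2 < |(Nf w z).re|) : ZB z 1.277 1.69 1.834 := by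
  have b0 : ZB z 1 1 1 := by
    refine ⟨by nlinarith, fun w _ => ?_, fun w _ _ => ?_⟩
    · have := hbig w; nlinarith
    · have := hbig w; nlinarith
  have b1 := b0.next hr (by norm_num) (by norm_num) (by norm_num) (by norm_num)
    (Z' := 1.154) (a' := 1.333) (d' := 1.333) (by norm_num) (by norm_num) (by norm_num)
    (by norm_num)
  rw [min_eq_left (by norm_num)] at b1
  have b2 := b1.next hr (by norm_num) (by norm_num) (by norm_num) (by norm_num)
    (Z' := 1.224) (a' := 1.533) (d' := 1.599) (by norm_num) (by norm_num) (by norm_num)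
    (by norm_num)
  rw [min_eq_left (by norm_num)] at b2
  have b3 := b2.next hr (by norm_num) (by norm_num) (by norm_num) (by norm_num)
    (Z' := 1.255) (a' := 1.625) (d' := 1.734) (by norm_num) (by norm_num) (by norm_num)
    (by norm_num)
  rw [min_eq_left (by norm_num)] at b3
  have b4 := b3.next hr (by norm_num) (by norm_num) (by norm_num) (by norm_num)
    (Z' := 1.268) (a' := 1.665) (d' := 1.794) (by norm_num) (by norm_num) (by norm_num)
    (by norm_num)
  rw [min_eq_left (by norm_num)] at b4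
  have b5 := b4.next hr (by norm_num) (by norm_num) (by norm_num) (by norm_num)
    (Z' := 1.274) (a' := 1.682) (d' := 1.819) (by norm_num) (by norm_num) (by norm_num)
    (by norm_num)
  rw [min_eq_left (by norm_num)] at b5
  have b6 := b5.next hr (by norm_num) (by norm_num) (by norm_num) (by norm_num)
    (Z' := 1.276) (a' := 1.69) (d' := 1.83) (by norm_num) (by norm_num) (by norm_num)
    (by norm_num)
  rw [min_eq_left (by norm_num)] at b6
  have b7 := b6.next hr (by norm_num) (by norm_num) (by norm_num) (by norm_num)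
    (Z' := 1.277) (a' := 1.69) (d' := 1.834) (by norm_num) (by norm_num) (by norm_num)
    (by norm_num)
  rw [min_eq_left (by norm_num)] at b7
  exact b7

end Pool.Agent.M4
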