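import Pool.Agent.helper95.M4.Final
import Pool.Agent.helper66.M4.Sym
import Pool.Agent.helper66.M4.Wide
import Pool.Agent.helper66.M4.End2
import Pool.Agent.helper66.M4.Zone2

/-! # M4 (MP_1b8d20_an): block VI in the form of the assembly, and the zone lemma for good points -/

set_option autoImplicit false

namespace Pool.Agent.M4

open Pool.Agent.FZ

theorem GOOD : GOOD_stmt := fun _ hq hlt hz =>
  ⟨hq, hlt, (W66.good_all hz).1, (W66.good_all hz).2.1, (W66.good_all hz).2.2⟩

theorem WIDE : WIDE_stmt := W66.wide_all

theorem SYM : SYM_stmt := W66.sym_all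

theorem END : END_stmt := W66.end_all

/-- the zone lemma at good points -/
theorem Good.zb {z : ℂ} (h : Good z) : ZB z 1.277 1.69 1.834 := zone_bounds h.one h.big h.nonreal

end Pool.Agent.M4
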