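import Pool.Agent.helper95.M4.Defs
import Pool.Agent.helper81.FZ.SpecBP

/-! # M4 (MP_1b8d20_an), END, part 1: monodromy matrices of sign sequences in the group -/

set_option autoImplicit false

namespace Pool.Agent.M4.W66

open Complex Matrix Pool.Agent.FZ Pool.Agent.FZR Filter Topology

/-- the monodromy matrices -/
noncomputable def Bm (a : ℕ → ℂ) (y : ℂ) : ℕ → Matrix (Fin 2) (Fin 2) ℂ
  | 0 => 1
  | n + 1 => !![a n * y, -1; 1, 0] * Bm a y n

/-- the same product in the group -/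
noncomputable def Gm (a : ℕ → ℂ) (y : ℂ) : ℕ → Matrix (Fin 2) (Fin 2) ℂ
  | 0 => 1
  | n + 1 => !![a n * y, -y⁻¹; y, 0] * Gm a y n

theorem Gm_eq (a : ℕ → ℂ) {y : ℂ} (hy : y ≠ 0) (n : ℕ) :
    Gm a y n 0 0 = Bm a y n 0 0 ∧ Gm a y n 0 1 = y⁻¹ * Bm a y n 0 1 ∧
      Gm a y n 1 0 = y * Bm a y n 1 0 ∧ Gm a y n 1 1 = Bm a y n 1 1 := by
  induction n with
  | zero => simp [Gm, Bm]
  | succ n ih =>
    obtain ⟨h1, h2, h3, h4⟩ := ih
    refine ⟨?_, ?_, ?_, ?_⟩ <;>
      simp only [Gm, Bm, Matrix.mul_apply, Fin.sum_univ_two, h1, h2, h3, h4] <;>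
      simp <;> field_simp

theorem Bm_det (a : ℕ → ℂ) (y : ℂ) (n : ℕ) :
    Bm a y n 0 0 * Bm a y n 1 1 - Bm a y n 0 1 * Bm a y n 1 0 = 1 := by
  have h : (Bm a y n).det = 1 := by
    induction n with
    | zero => simp [Bm]
    | succ n ih =>
      rw [Bm, Matrix.det_mul, ih, Matrix.det_fin_two_of]
      ring
  rw [Matrix.det_fin_two] at h
  exact h

theorem Gm_mem {a : ℕ → ℂ} (ha : ∀ i, a i = 1 ∨ a i = -1) (y : ℂ) (n : ℕ) : Gm a y n ∈ Gp y := by
  have hS : !![0, -y⁻¹; y, 0] ∈ Gp y := Submonoid.subset_closure (by simp)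
  have hT : !![1, 1; 0, 1] ∈ Gp y := Submonoid.subset_closure (by simp)
  have hT' : !![1, -1; 0, 1] ∈ Gp y := Submonoid.subset_closure (by simp)
  induction n with
  | zero => exact Submonoid.one_mem _
  | succ n ih =>
    refine Submonoid.mul_mem _ ?_ ih
    rcases ha n with h | h
    · have e : !![a n * y, -y⁻¹; y, 0] = !![1, 1; 0, 1] * !![0, -y⁻¹; y, 0] := by
        rw [h]; simp
      rw [e]
      exact Submonoid.mul_mem _ hT hS
    · have e : !![a n * y, -y⁻¹; y, 0] = !![1, -1; 0, 1] * !![0, -y⁻¹; y, 0] := by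
        rw [h]; simp
      rw [e]
      exact Submonoid.mul_mem _ hT' hS

theorem Bm_differentiable (a : ℕ → ℂ) (n : ℕ) (i j : Fin 2) :
    Differentiable ℂ (fun y => Bm a y n i j) := by
  induction n generalizing i j with
  | zero => exact differentiable_const _
  | succ n ih =>
    have h0 := ih 0 j
    have h1 := ih 1 j
    fin_cases i
    · have e : (fun y => Bm a y (n + 1) 0 j) =
          fun y => a n * y * Bm a y n 0 j - Bm a y n 1 j := by
        funext y
        simp [Bm, Matrix.mul_apply, Fin.sum_univ_two]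
        ring
      show Differentiable ℂ (fun y => Bm a y (n + 1) 0 j)
      rw [e]
      exact ((differentiable_const _).mul differentiable_id |>.mul h0).sub h1
    · have e : (fun y => Bm a y (n + 1) 1 j) = fun y => Bm a y n 0 j := by
        funext y
        simp [Bm, Matrix.mul_apply, Fin.sum_univ_two]
      show Differentiable ℂ (fun y => Bm a y (n + 1) 1 j)
      rw [e]
      exact h0

theorem inv_tendsto : Tendsto (fun r : ℝ => ((r : ℂ))⁻¹) atTop (𝓝 0) := by
  have h := tendsto_inv_atTop_zero (𝕜 := ℝ)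
  have h2 := (Complex.continuous_ofReal.tendsto 0).comp h
  rw [Complex.ofReal_zero] at h2
  refine h2.congr fun r => ?_
  simp

/-- asymptotics of the monodromy matrices -/
theorem Bm_asymp (a : ℕ → ℂ) (n : ℕ) :
    Tendsto (fun r : ℝ => Bm a r n 0 0 / (r : ℂ) ^ n) atTop (𝓝 (∏ i ∈ Finset.range n, a i)) ∧
      Tendsto (fun r : ℝ => Bm a r n 0 1 / (r : ℂ) ^ n) atTop (𝓝 0) ∧
      Tendsto (fun r : ℝ => Bm a r n 1 0 / (r : ℂ) ^ n) atTop (𝓝 0) ∧
      Tendsto (fun r : ℝ => Bm a r n 1 1 / (r : ℂ) ^ n) atTop (𝓝 (if n = 0 then 1 else 0)) := by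
  induction n with
  | zero => simp [Bm]
  | succ n ih =>
    obtain ⟨h1, h2, h3, h4⟩ := ih
    have hne : ∀ᶠ r : ℝ in atTop, (r : ℂ) ≠ 0 := by
      filter_upwards [eventually_gt_atTop 0] with r hr
      exact_mod_cast hr.ne'
    refine ⟨?_, ?_, ?_, ?_⟩
    · have h := (h1.const_mul (a n)).sub (h3.mul inv_tendsto)
      rw [mul_zero, sub_zero, mul_comm] at h
      rw [Finset.prod_range_succ]
      refine h.congr' ?_
      filter_upwards [hne] with r hr
      have e : Bm a r (n + 1) 0 0 = a n * r * Bm a r n 0 0 - Bm a r n 1 0 := by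
        simp [Bm, Matrix.mul_apply, Fin.sum_univ_two]
        ring
      rw [e]
      field_simp
      ring
    · have h := (h2.const_mul (a n)).sub (h4.mul inv_tendsto)
      rw [mul_zero, mul_zero, sub_zero] at h
      refine h.congr' ?_
      filter_upwards [hne] with r hr
      have e : Bm a r (n + 1) 0 1 = a n * r * Bm a r n 0 1 - Bm a r n 1 1 := by
        simp [Bm, Matrix.mul_apply, Fin.sum_univ_two]
        ring
      rw [e]
      field_simp
      ring
    · have h := h1.mul inv_tendsto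
      rw [mul_zero] at h
      refine h.congr' ?_
      filter_upwards [hne] with r hr
      have e : Bm a r (n + 1) 1 0 = Bm a r n 0 0 := by
        simp [Bm, Matrix.mul_apply, Fin.sum_univ_two]
      rw [e]
      field_simp
      ring
    · have h := h2.mul inv_tendsto
      rw [mul_zero] at h
      rw [if_neg (Nat.succ_ne_zero n)]
      refine h.congr' ?_
      filter_upwards [hne] with r hr
      have e : Bm a r (n + 1) 1 1 = Bm a r n 0 1 := by
        simp [Bm, Matrix.mul_apply, Fin.sum_univ_two]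
      rw [e]
      field_simp
      ring

theorem prod_ne {a : ℕ → ℂ} (ha : ∀ i, a i = 1 ∨ a i = -1) (n : ℕ) :
    ∏ i ∈ Finset.range n, a i ≠ 0 := by
  rw [Finset.prod_ne_zero_iff]
  intro i _
  exact sgn_ne (ha i)

/-- the trace is not constant -/
theorem trace_not_const {a : ℕ → ℂ} (ha : ∀ i, a i = 1 ∨ a i = -1) {n : ℕ} (hn : 0 < n) (t : ℂ) :
    ¬ ∀ y : ℂ, Bm a y n 0 0 + Bm a y n 1 1 = t := by
  intro h
  obtain ⟨h1, _, _, h4⟩ := Bm_asymp a n
  rw [if_neg hn.ne'] at h4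
  have h5 := h1.add h4
  rw [add_zero] at h5
  have h6 : Tendsto (fun r : ℝ => t * ((r : ℂ)⁻¹) ^ n) atTop (𝓝 (t * 0 ^ n)) :=
    (inv_tendsto.pow n).const_mul t
  rw [zero_pow hn.ne', mul_zero] at h6
  have h7 : (fun r : ℝ => Bm a r n 0 0 / (r : ℂ) ^ n + Bm a r n 1 1 / (r : ℂ) ^ n) =
      fun r : ℝ => t * ((r : ℂ)⁻¹) ^ n := by
    funext r
    rw [← add_div, h, inv_pow, div_eq_mul_inv]
  rw [h7] at h5
  exact prod_ne ha n (tendsto_nhds_unique h5 h6)

/-- the lower left entry is not identically zero -/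
theorem entry_not_zero {a : ℕ → ℂ} (ha : ∀ i, a i = 1 ∨ a i = -1) {n : ℕ} (hn : 0 < n) :
    ¬ ∀ y : ℂ, Bm a y n 1 0 = 0 := by
  intro h
  obtain ⟨m, rfl⟩ : ∃ m, n = m + 1 := ⟨n - 1, by omega⟩
  obtain ⟨h1, _, _, _⟩ := Bm_asymp a m
  have h2 : (fun r : ℝ => Bm a r m 0 0 / (r : ℂ) ^ m) = fun _ => (0 : ℂ) := by
    funext r
    have e : Bm a r (m + 1) 1 0 = Bm a r m 0 0 := by
      simp [Bm, Matrix.mul_apply, Fin.sum_univ_two]
    rw [← e, h, zero_div]
  rw [h2] at h1
  exact prod_ne ha m (tendsto_nhds_unique h1 tendsto_const_nhds)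

/-! ## bounded sequences -/

theorem geom_bdd {y : ℤ → ℂ} {ν : ℂ} {C : ℝ} (h : ∀ j, y (j + 1) = ν * y j)
    (hC : ∀ j, ‖y j‖ ≤ C) (hν : ‖ν‖ ≠ 1) (j : ℤ) : y j = 0 := by
  have hpow : ∀ (j : ℤ) (n : ℕ), y (j + n) = ν ^ n * y j := by
    intro j n
    induction n with
    | zero => simp
    | succ n ih =>
      push_cast
      rw [← add_assoc, h, ih]
      ring
  by_contra h0
  have hpos : 0 < ‖y j‖ := norm_pos_iff.2 h0
  rcases lt_or_gt_of_ne hν with h1 | h1
  · have hlim : Tendsto (fun n : ℕ => ‖ν‖ ^ n * C) atTop (𝓝 (0 * C)) :=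
      (tendsto_pow_atTop_nhds_zero_of_lt_one (norm_nonneg _) h1).mul_const C
    rw [zero_mul] at hlim
    have hle : ∀ n : ℕ, ‖y j‖ ≤ ‖ν‖ ^ n * C := by
      intro n
      have := hpow (j - n) n
      rw [sub_add_cancel] at this
      rw [this, norm_mul, norm_pow]
      exact mul_le_mul_of_nonneg_left (hC _) (by positivity)
    have := ge_of_tendsto hlim (Eventually.of_forall hle)
    linarith
  · obtain ⟨n, hn⟩ := pow_unbounded_of_one_lt (C / ‖y j‖) h1
    have := hC (j + n)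
    rw [hpow, norm_mul, norm_pow] at this
    rw [div_lt_iff₀ hpos] at hn
    linarith

theorem trace_real {x : ℤ → ℂ} {t : ℂ} {C : ℝ} (h : ∀ j, x (j + 1) = t * x j - x (j - 1))
    (hC : ∀ j, ‖x j‖ ≤ C) (h0 : x 0 ≠ 0) : t.im = 0 ∧ |t.re| ≤ 2 := by
  obtain ⟨μ, hμ0, hμ⟩ : ∃ μ : ℂ, μ ≠ 0 ∧ t = μ + μ⁻¹ := by
    obtain ⟨v, hv⟩ := Complex.cos_surjective (t / 2)
    refine ⟨Complex.exp (v * I), Complex.exp_ne_zero _, ?_⟩
    have : t = 2 * Complex.cos v := by rw [hv]; ring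
    rw [this, Complex.two_cos, ← Complex.exp_neg, neg_mul]
  have hμ1 : ‖μ‖ = 1 := by
    by_contra hne
    have hC0 : 0 ≤ C := (norm_nonneg _).trans (hC 0)
    have hy : ∀ j, x (j + 1) - μ * x j = 0 := by
      apply geom_bdd (y := fun j => x (j + 1) - μ * x j) (ν := μ⁻¹) (C := C + ‖μ‖ * C)
      · intro j
        show x (j + 1 + 1) - μ * x (j + 1) = μ⁻¹ * (x (j + 1) - μ * x j)
        rw [h (j + 1), add_sub_cancel_right, hμ]
        field_simp
        ring
      · intro j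
        calc ‖x (j + 1) - μ * x j‖ ≤ ‖x (j + 1)‖ + ‖μ * x j‖ := norm_sub_le _ _
          _ ≤ C + ‖μ‖ * C := by
            rw [norm_mul]
            exact add_le_add (hC _) (mul_le_mul_of_nonneg_left (hC _) (norm_nonneg _))
      · rw [norm_inv]
        intro h1
        exact hne (by rw [inv_eq_one] at h1; exact h1)
    exact h0 (geom_bdd (y := x) (ν := μ) (C := C) (fun j => sub_eq_zero.1 (hy j)) hC hne 0)
  have hinv : μ⁻¹ = (starRingEnd ℂ) μ := by
    rw [Complex.inv_def, Complex.normSq_eq_norm_sq, hμ1]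
    simp
  have ht : t = ((2 * μ.re : ℝ) : ℂ) := by
    rw [hμ, hinv, Complex.add_conj]
  rw [ht]
  refine ⟨Complex.ofReal_im _, ?_⟩
  rw [Complex.ofReal_re, abs_mul, abs_two]
  have := Complex.abs_re_le_norm μ
  rw [hμ1] at this
  linarith

/-! ## powers -/

theorem pow_entry {G : Matrix (Fin 2) (Fin 2) ℂ} {θ : ℝ}
    (hdet : G 0 0 * G 1 1 - G 0 1 * G 1 0 = 1)
    (htr : G 0 0 + G 1 1 = ((2 * Real.cos θ : ℝ) : ℂ)) (n : ℕ) :
    (G ^ n) 1 0 * ((Real.sin θ : ℝ) : ℂ) = ((Real.sin (n * θ) : ℝ) : ℂ) * G 1 0 := by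
  have hsq : G * G = ((2 * Real.cos θ : ℝ) : ℂ) • G - 1 := by
    rw [← htr]
    ext i j
    fin_cases i <;> fin_cases j <;>
      simp [Matrix.mul_apply, Fin.sum_univ_two] <;>
      first
      | linear_combination -hdet
      | ring1
  have hrec : ∀ n : ℕ, (G ^ (n + 2)) 1 0 =
      ((2 * Real.cos θ : ℝ) : ℂ) * (G ^ (n + 1)) 1 0 - (G ^ n) 1 0 := by
    intro n
    have : G ^ (n + 2) = ((2 * Real.cos θ : ℝ) : ℂ) • G ^ (n + 1) - G ^ n := by
      rw [pow_add, pow_two, hsq, mul_sub, mul_one, mul_smul_comm, ← pow_succ]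
    rw [this]
    simp
  have key : (G ^ n) 1 0 * ((Real.sin θ : ℝ) : ℂ) = ((Real.sin (n * θ) : ℝ) : ℂ) * G 1 0 ∧
      (G ^ (n + 1)) 1 0 * ((Real.sin θ : ℝ) : ℂ) =
        ((Real.sin ((n + 1) * θ) : ℝ) : ℂ) * G 1 0 := by
    induction n with
    | zero => simp; ring
    | succ n ih =>
      obtain ⟨h1, h2⟩ := ih
      refine ⟨by push_cast at h2 ⊢; exact h2, ?_⟩
      have h3 : Real.sin (((n : ℝ) + 1 + 1) * θ) =
          2 * Real.cos θ * Real.sin (((n : ℝ) + 1) * θ) - Real.sin (n * θ) := by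
        have e1 : ((n : ℝ) + 1 + 1) * θ = ((n : ℝ) + 1) * θ + θ := by ring
        have e2 : (n : ℝ) * θ = ((n : ℝ) + 1) * θ - θ := by ring
        rw [e1, e2, Real.sin_add, Real.sin_sub]
        ring
      have e : n + 1 + 1 = n + 2 := rfl
      rw [e, hrec n]
      push_cast at h1 h2 h3 ⊢
      have h3' : ((Real.sin (((n : ℝ) + 1 + 1) * θ) : ℝ) : ℂ) =
          2 * Complex.cos θ * Complex.sin (((n : ℂ) + 1) * θ) - Complex.sin (n * θ) := by
        rw [h3]; push_cast; ring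
      push_cast at h3'
      rw [h3']
      linear_combination (2 * Complex.cos θ) * h2 - h1
  exact key.1

end Pool.Agent.M4.W66
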