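import Pool.Agent.helper66.M4.VOpen
import Pool.Agent.helper66.M4.VFin

/-! # M4 (MP_1b8d20_an), block V5: reduction, OPEN, CLOSED for an abstract region `E` -/

set_option autoImplicit false

namespace Pool.Agent.M4

open Complex ComplexConjugate Matrix Filter Topology Metric

/-! ## The finite family of involutions -/

/-- entries -/
noncomputable def eX (v : List Bool) : Fin 3 → ℂ → ℂ
  | 0 => Lf v
  | 1 => Nf v
  | 2 => Rf v

/-- centres -/
noncomputable def ec (v : List Bool) : Fin 3 → ℂ → ℂ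
  | 0 => cL v
  | 1 => cN v
  | 2 => cR v

/-- words -/
def ep (v : List Bool) : Fin 3 → List Lt
  | 0 => (pw v).L
  | 1 => (pw v).N
  | 2 => (pw v).R

/-- the index set -/
abbrev Idx (w : List Bool) : Type := Fin (w.length + 1) × Fin 3 × Bool

/-- the entry with index `i` -/
noncomputable def iX (w : List Bool) (i : Idx w) (z : ℂ) : ℂ :=
  if i.2.2 then eX (w.drop i.1) i.2.1 z else -eX (w.drop i.1) i.2.1 z

/-- the centre with index `i` -/
noncomputable def ic (w : List Bool) (i : Idx w) (z : ℂ) : ℂ :=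
  if i.2.2 then ec (w.drop i.1) i.2.1 z else -ec (w.drop i.1) i.2.1 z

/-- the word with index `i` -/
def ip (w : List Bool) (i : Idx w) : List Lt :=
  if i.2.2 then ep (w.drop i.1) i.2.1 else ngw (ep (w.drop i.1) i.2.1)

theorem NZ_suffix {v w : List Bool} {z : ℂ} (h : NZ w z) (hv : v <:+ w) : NZ v z := by
  obtain ⟨u, rfl⟩ := hv
  induction u with
  | nil => exact h
  | cons b u ih => exact ih h.1

theorem NZ_drop {w : List Bool} {z : ℂ} (h : NZ w z) (k : ℕ) : NZ (w.drop k) z :=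
  NZ_suffix h (List.drop_suffix k w)

theorem eX_ne {v : List Bool} {z : ℂ} (h : NZ v z) (e : Fin 3) : eX v e z ≠ 0 := by
  obtain ⟨_, h1, h2, h3⟩ := h.all
  fin_cases e
  · exact h1
  · exact h2
  · exact h3

theorem ev_ep {v : List Bool} {z : ℂ} (h : NZ v z) (e : Fin 3) :
    ev z (ep v e) = Pm (eX v e z) (ec v e z) := by
  obtain ⟨h1, h2, h3⟩ := ev_pw h
  fin_cases e
  · exact h1
  · exact h2
  · exact h3

theorem iX_ne {w : List Bool} {z : ℂ} (h : NZ w z) (i : Idx w) : iX w i z ≠ 0 := by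
  unfold iX
  split
  · exact eX_ne (NZ_drop h _) _
  · exact neg_ne_zero.2 (eX_ne (NZ_drop h _) _)

theorem ev_ip {w : List Bool} {z : ℂ} (h : NZ w z) (i : Idx w) :
    ev z (ip w i) = Pm (iX w i z) (ic w i z) := by
  unfold iX ic ip
  split
  · exact ev_ep (NZ_drop h _) _
  · exact ev_ngw (ev_ep (NZ_drop h _) _)

theorem eX_cont (v : List Bool) (e : Fin 3) : Continuous (eX v e) := by
  obtain ⟨dL, dN, dR⟩ := Diff_Tr v
  fin_cases e
  · exact dL.continuous
  · exact dN.continuous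
  · exact dR.continuous

theorem NZ_near {w : List Bool} {z : ℂ} (h : NZ w z) : ∀ᶠ y in 𝓝 z, NZ w y := by
  induction w with
  | nil => exact eventually_ne_nhds h
  | cons b w ih =>
    have h1 : ∀ᶠ y in 𝓝 z, Nf (b :: w) y ≠ 0 :=
      ((Diff_Tr (b :: w)).2.1.continuous.continuousAt (x := z)).eventually_ne h.2
    filter_upwards [ih h.1, h1] with y h2 h3
    exact ⟨h2, h3⟩

theorem cen_cont {w : List Bool} {z : ℂ} (h : NZ w z) :
    ContinuousAt (cL w) z ∧ ContinuousAt (cN w) z ∧ ContinuousAt (cR w) z := by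
  induction w with
  | nil =>
    have hz : z ≠ 0 := h
    refine ⟨continuousAt_const, ?_, continuousAt_const⟩
    exact (continuousAt_id.pow 2).inv₀ (pow_ne_zero 2 hz)
  | cons b w ih =>
    obtain ⟨h1, h2, h3⟩ := ih h.1
    obtain ⟨dL, dN, dR⟩ := Diff_Tr w
    have cK := (Diff_Tr (b :: w)).2.1.continuous.continuousAt (x := z)
    obtain ⟨_, n1, n2, n3⟩ := h.1.all
    cases b with
    | true =>
      refine ⟨h2, ?_, h3⟩
      have e : cN (true :: w) = fun z => cN w z + Rf w z / (Nf w z * Nf (true :: w) z) := rfl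
      rw [e]
      exact h2.add (dR.continuous.continuousAt.div (dN.continuous.continuousAt.mul cK)
        (mul_ne_zero n2 h.2))
    | false =>
      refine ⟨h1, ?_, h2⟩
      have e : cN (false :: w) = fun z => cL w z + Nf w z / (Lf w z * Nf (false :: w) z) := rfl
      rw [e]
      exact h1.add (dN.continuous.continuousAt.div (dL.continuous.continuousAt.mul cK)
        (mul_ne_zero n1 h.2))

theorem ec_cont {v : List Bool} {z : ℂ} (h : NZ v z) (e : Fin 3) : ContinuousAt (ec v e) z := by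
  obtain ⟨h1, h2, h3⟩ := cen_cont h
  fin_cases e
  · exact h1
  · exact h2
  · exact h3

theorem iX_cont {w : List Bool} {z : ℂ} (i : Idx w) : ContinuousAt (iX w i) z := by
  obtain ⟨k, e, s⟩ := i
  cases s
  · exact ((eX_cont (w.drop k) e).neg).continuousAt
  · exact (eX_cont (w.drop k) e).continuousAt

theorem ic_cont {w : List Bool} {z : ℂ} (h : NZ w z) (i : Idx w) : ContinuousAt (ic w i) z := by
  obtain ⟨k, e, s⟩ := i
  cases s
  · exact (ec_cont (NZ_drop h k) e).neg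
  · exact ec_cont (NZ_drop h k) e

/-- membership in the union of the discs -/
theorem mem_Uo {w : List Bool} {z y : ℂ} (hy : y ∈ Uo w z) :
    ∃ (i : Idx w) (m : ℤ), i.2.2 = true ∧ ‖y - (ic w i z + m)‖ * ‖iX w i z‖ < 1 := by
  obtain ⟨v, hv, m, hm⟩ := hy
  have hk : v = w.drop (w.length - v.length) := List.suffix_iff_eq_drop.1 hv
  have hlt : w.length - v.length < w.length + 1 := by omega
  have key : ∀ e : Fin 3, ‖y - (ec v e z + m)‖ * ‖eX v e z‖ < 1 →
      ∃ (i : Idx w) (m : ℤ), i.2.2 = true ∧ ‖y - (ic w i z + m)‖ * ‖iX w i z‖ < 1 := by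
    intro e he
    refine ⟨(⟨w.length - v.length, hlt⟩, e, true), m, rfl, ?_⟩
    show ‖y - (ec (w.drop (w.length - v.length)) e z + m)‖ *
      ‖eX (w.drop (w.length - v.length)) e z‖ < 1
    rw [← hk]
    exact he
  rcases hm with h | h | h
  · exact key 0 h
  · exact key 1 h
  · exact key 2 h

theorem real_mem_Uo {w : List Bool} {z y : ℂ} (hz : ‖z‖ < 2) (hy : y.im = 0) : y ∈ Uo w z := by
  refine ⟨[], List.nil_suffix, round y.re, Or.inl ?_⟩
  have h1 : y - (cL [] z + (round y.re : ℂ)) = ((y.re - round y.re : ℝ) : ℂ) := by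
    apply Complex.ext
    · simp [cL, cen]
    · simp [cL, cen, hy]
  have h2 : Lf [] z = z := rfl
  rw [h1, h2, Complex.norm_real, Real.norm_eq_abs]
  have h3 := abs_sub_round y.re
  nlinarith [norm_nonneg z, abs_nonneg (y.re - round y.re)]

/-- compactness: a compact set covered by the open discs is covered by smaller discs -/
theorem cover_q {ι : Type*} (X c : ι → ℂ) {K : Set ℂ} (hK : IsCompact K)
    (h : ∀ y ∈ K, ∃ (i : ι) (m : ℤ), ‖y - (c i + m)‖ * ‖X i‖ < 1) :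
    ∃ q : ℝ, 0 < q ∧ q < 1 ∧ ∀ y ∈ K, ∃ (i : ι) (m : ℤ), ‖y - (c i + m)‖ * ‖X i‖ ≤ q := by
  obtain ⟨n, hn⟩ := hK.elim_directed_cover
    (fun n : ℕ => {y : ℂ | ∃ (i : ι) (m : ℤ), ‖y - (c i + m)‖ * ‖X i‖ < 1 - 1 / ((n : ℝ) + 2)})
    (fun n => by
      have e : {y : ℂ | ∃ (i : ι) (m : ℤ), ‖y - (c i + m)‖ * ‖X i‖ < 1 - 1 / ((n : ℝ) + 2)} =
          ⋃ (i : ι), ⋃ (m : ℤ), {y : ℂ | ‖y - (c i + m)‖ * ‖X i‖ < 1 - 1 / ((n : ℝ) + 2)} := by
        ext y; simp
      rw [e]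
      refine isOpen_iUnion fun i => isOpen_iUnion fun m => ?_
      exact isOpen_lt (by fun_prop) continuous_const)
    (fun y hy => by
      obtain ⟨i, m, him⟩ := h y hy
      rw [Set.mem_iUnion]
      obtain ⟨n, hn⟩ := exists_nat_gt (1 / (1 - ‖y - (c i + m)‖ * ‖X i‖))
      have h1 : 0 < 1 - ‖y - (c i + m)‖ * ‖X i‖ := by linarith
      refine ⟨n, i, m, ?_⟩
      have h2 : 1 / ((n : ℝ) + 2) < 1 - ‖y - (c i + m)‖ * ‖X i‖ := by
        rw [div_lt_iff₀ h1] at hn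
        rw [div_lt_iff₀ (by positivity)]
        nlinarith
      linarith)
    (by
      intro a b
      refine ⟨max a b, ?_, ?_⟩
      · rintro y ⟨i, m, him⟩
        refine ⟨i, m, him.trans_le ?_⟩
        have : (a : ℝ) ≤ (max a b : ℕ) := by exact_mod_cast le_max_left a b
        have := one_div_le_one_div_of_le (show (0 : ℝ) < (a : ℝ) + 2 by positivity)
          (show (a : ℝ) + 2 ≤ ((max a b : ℕ) : ℝ) + 2 by linarith)
        linarith
      · rintro y ⟨i, m, him⟩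
        refine ⟨i, m, him.trans_le ?_⟩
        have : (b : ℝ) ≤ (max a b : ℕ) := by exact_mod_cast le_max_right a b
        have := one_div_le_one_div_of_le (show (0 : ℝ) < (b : ℝ) + 2 by positivity)
          (show (b : ℝ) + 2 ≤ ((max a b : ℕ) : ℝ) + 2 by linarith)
        linarith)
  refine ⟨1 - 1 / ((n : ℝ) + 2), ?_, ?_, fun y hy => ?_⟩
  · have : 1 / ((n : ℝ) + 2) < 1 := by
      rw [div_lt_iff₀ (by positivity)]
      linarith [(Nat.cast_nonneg n : (0 : ℝ) ≤ n)]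
    linarith
  · have : 0 < 1 / ((n : ℝ) + 2) := by positivity
    linarith
  · obtain ⟨i, m, him⟩ := hn hy
    exact ⟨i, m, him.le⟩

/-! ## Words with nonzero lower left entry -/

theorem not_Stb {z : ℂ} (hz : z ≠ 0) {g : List Lt} (h : cc g z ≠ 0) : ¬ Stb g := by
  rintro ⟨u, m, _, hu⟩
  apply h
  rw [cc, hu z hz]
  simp

/-- composition -/
theorem comp_word {z : ℂ} {g h : List Lt} (hg : cc g z ≠ 0)
    (hh : ev z h 1 0 * aa g z + ev z h 1 1 ≠ 0) : cc (h ++ g) z ≠ 0 ∧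
      aa (h ++ g) z = (ev z h 0 0 * aa g z + ev z h 0 1) / (ev z h 1 0 * aa g z + ev z h 1 1) := by
  have h1 : aa g z * cc g z = ev z g 0 0 := by
    rw [aa]; exact div_mul_cancel₀ _ hg
  have h3 : ev z g 1 0 = cc g z := rfl
  have e1 : cc (h ++ g) z = (ev z h 1 0 * aa g z + ev z h 1 1) * cc g z := by
    rw [cc, ev_append, Matrix.mul_apply, Fin.sum_univ_two, ← h1, h3]; ring
  have e2 : ev z (h ++ g) 0 0 = (ev z h 0 0 * aa g z + ev z h 0 1) * cc g z := by
    rw [ev_append, Matrix.mul_apply, Fin.sum_univ_two, ← h1, h3]; ring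
  refine ⟨by rw [e1]; exact mul_ne_zero hh hg, ?_⟩
  have h4 : ev z (h ++ g) 1 0 = cc (h ++ g) z := rfl
  rw [aa, h4, e1, e2]
  field_simp

theorem shift_word {z : ℂ} {g : List Lt} (hg : cc g z ≠ 0) (m : ℤ) :
    cc (Tw m ++ g) z ≠ 0 ∧ aa (Tw m ++ g) z = aa g z + m := by
  have h := comp_word (h := Tw m) hg (by rw [ev_Tw]; simp)
  refine ⟨h.1, ?_⟩
  rw [h.2, ev_Tw]
  simp

theorem neg_word {z : ℂ} {g : List Lt} (hg : cc g z ≠ 0) :
    cc ([.N] ++ g) z ≠ 0 ∧ aa ([.N] ++ g) z = -aa g z := by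
  have e : ev z [.N] = !![I, 0; 0, -I] := by simp [ev_cons, ev_nil, lm]
  have h := comp_word (h := [.N]) hg (by rw [e]; simp)
  refine ⟨h.1, ?_⟩
  rw [h.2, e]
  have hI := I_ne_zero
  simp
  field_simp

/-! ## The region -/

/-- `u` can be moved into `S` by a word. -/
def Hit (z : ℂ) (S : Set ℂ) (u : ℂ) : Prop := ∃ h : List Lt, ev z h 1 0 * u + ev z h 1 1 ≠ 0 ∧
  (ev z h 0 0 * u + ev z h 0 1) / (ev z h 1 0 * u + ev z h 1 1) ∈ S

/-- The properties of the region which are used. -/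
structure EHyp (E : List Bool → ℂ → Set ℂ) : Prop where
  cov : ∀ w z, InT w z → ∀ y : ℂ, y.im < 0 → y ∉ E w z → y ∈ Uo w z
  low : ∀ w z, InT w z → ∃ h : ℝ, ∀ y : ℂ, y.im < -h → y ∈ E w z
  lt : ∀ w0 z0, InT w0 z0 → ∀ w, ∀ u y : ℕ → ℂ, Tendsto u atTop (𝓝 z0) → (∀ n, InT w (u n)) →
    (∀ n, y n ∉ E w (u n)) → Tendsto (fun n => infDist (y n) (E w (u n))) atTop (𝓝 0) →
    ∃ n, Hit (u n) (E w (u n)) (y n)
  cont1 : ∀ w0 z0, InT w0 z0 → ∀ ε : ℝ, 0 < ε → ∀ᶠ z in 𝓝 z0, ∀ w, InT w z →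
    ∀ y ∈ E w z, ∃ y' ∈ E w0 z0, dist y y' ≤ ε
  cont2 : ∀ w0 z0, InT w0 z0 → ∀ ε : ℝ, 0 < ε → ∀ᶠ z in 𝓝 z0, ∀ w, InT w z →
    ∀ y ∈ E w0 z0, ∃ y' ∈ E w z, dist y y' ≤ ε

/-- The strong property of the orbit. -/
def PE (E : List Bool → ℂ → Set ℂ) (z : ℂ) : Prop :=
  PP z ∧ ∀ w, InT w z → ∀ g, ¬ Stb g → aa g z ∉ E w z

theorem InT_ne0 {w : List Bool} {z : ℂ} (h : InT w z) : z ≠ 0 := (NZ_of_Ch h.1).all.1

theorem PP_cc {z : ℂ} (h : PP z) {g : List Lt} (hg : ¬ Stb g) : cc g z ≠ 0 := by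
  obtain ⟨δ, hδ, h⟩ := h
  intro h0
  have := h g hg
  rw [h0, norm_zero] at this
  linarith

variable {E : List Bool → ℂ → Set ℂ}

/-- uniform LT -/
theorem EHyp.unif (hE : EHyp E) {w0 : List Bool} {z0 : ℂ} (h0 : InT w0 z0) :
    ∃ ρ : ℝ, 0 < ρ ∧ ∀ᶠ z in 𝓝 z0, ∀ w, InT w z → ∀ u, u ∉ E w z → infDist u (E w z) < ρ →
      Hit z (E w z) u := by
  by_contra hcon
  push Not at hcon
  have hnear := InT_near h0
  have hex : ∀ n : ℕ, ∃ (z : ℂ) (w : List Bool) (u : ℂ), dist z z0 < 1 / ((n : ℝ) + 1) ∧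
      InT w z ∧ (w = w0 ∨ w = true :: w0 ∨ w = false :: w0) ∧ u ∉ E w z ∧
      infDist u (E w z) < 1 / ((n : ℝ) + 1) ∧ ¬ Hit z (E w z) u := by
    intro n
    have hpos : (0 : ℝ) < 1 / ((n : ℝ) + 1) := by positivity
    have h1 := hcon _ hpos
    have h2 : ∀ᶠ z in 𝓝 z0, dist z z0 < 1 / ((n : ℝ) + 1) := Metric.ball_mem_nhds z0 hpos
    obtain ⟨z, ⟨w, hw, u, hu, hd, hh⟩, h3, h4⟩ := (h1.and_eventually (h2.and hnear)).exists
    refine ⟨z, w, u, h3, hw, ?_, hu, hd, hh⟩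
    rcases h4 w hw with h | h | h
    · exact Or.inl h
    · exact Or.inr (Or.inl h.1)
    · exact Or.inr (Or.inr h.1)
  choose z w u hz hw hww hu hd hh using hex
  have hfr : ∃ w1, ∃ᶠ n in atTop, w n = w1 := by
    have h1 : ∃ᶠ n in atTop, (w n = w0 ∨ w n = true :: w0 ∨ w n = false :: w0) :=
      (Eventually.of_forall hww).frequently
    rw [frequently_or_distrib, frequently_or_distrib] at h1
    rcases h1 with h | h | h
    · exact ⟨_, h⟩
    · exact ⟨_, h⟩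
    · exact ⟨_, h⟩
  obtain ⟨w1, hw1⟩ := hfr
  obtain ⟨φ, hφ, hφw⟩ := extraction_of_frequently_atTop hw1
  have hinv : Tendsto (fun n : ℕ => 1 / ((φ n : ℝ) + 1)) atTop (𝓝 0) :=
    tendsto_one_div_add_atTop_nhds_zero_nat.comp hφ.tendsto_atTop
  obtain ⟨n, hn⟩ := hE.lt w0 z0 h0 w1 (fun n => z (φ n)) (fun n => u (φ n))
    (by
      rw [tendsto_iff_dist_tendsto_zero]
      exact squeeze_zero (fun n => dist_nonneg) (fun n => (hz (φ n)).le) hinv)
    (fun n => by rw [← hφw n]; exact hw (φ n))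
    (fun n => by
      have := hu (φ n)
      rwa [hφw n] at this)
    (squeeze_zero (fun n => infDist_nonneg) (fun n => by
      have := (hd (φ n)).le
      rwa [hφw n] at this) hinv)
  have := hh (φ n)
  rw [hφw n] at this
  exact this hn

/-- the orbit stays away from the region -/
theorem far {w : List Bool} {z : ℂ} (hw : InT w z) (hP : PE E z) {ρ : ℝ}
    (hLT : ∀ u, u ∉ E w z → infDist u (E w z) < ρ → Hit z (E w z) u) :
    ∀ g, ¬ Stb g → ρ ≤ infDist (aa g z) (E w z) := by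
  intro g hg
  by_contra hcon
  push Not at hcon
  obtain ⟨h, hh1, hh2⟩ := hLT _ (hP.2 w hw g hg) hcon
  obtain ⟨k1, k2⟩ := comp_word (PP_cc hP.1 hg) hh1
  rw [← k2] at hh2
  exact hP.2 w hw _ (not_Stb (InT_ne0 hw) k1) hh2

/-- the orbit is covered by smaller discs -/
theorem EHyp.red (hE : EHyp E) {w : List Bool} {z : ℂ} (hw : InT w z) (hPP : PP z) {ρ : ℝ}
    (hρ : 0 < ρ) (hfar : ∀ g, ¬ Stb g → ρ ≤ infDist (aa g z) (E w z)) :
    ∃ q : ℝ, 0 < q ∧ q < 1 ∧ ∀ g, ¬ Stb g → ∃ (i : Idx w) (m : ℤ),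
      ‖aa g z - (ic w i z + m)‖ * ‖iX w i z‖ ≤ q := by
  obtain ⟨h, hh⟩ := hE.low w z hw
  have hz0 := InT_ne0 hw
  have hz2 : ‖z‖ < 2 := hw.1.qd.2
  -- the compact set
  obtain ⟨K, hKd⟩ : ∃ K : Set ℂ, K = {y : ℂ | (0 ≤ y.re ∧ y.re ≤ 1) ∧ (-h ≤ y.im ∧ y.im ≤ 0) ∧
    ρ ≤ infDist y (E w z)} := ⟨_, rfl⟩
  have hKc : IsCompact K := by
    rw [hKd]
    refine Metric.isCompact_of_isClosed_isBounded ?_ ?_
    · have c1 : IsClosed {y : ℂ | 0 ≤ y.re ∧ y.re ≤ 1} :=
        (isClosed_le continuous_const continuous_re).inter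
          (isClosed_le continuous_re continuous_const)
      have c2 : IsClosed {y : ℂ | -h ≤ y.im ∧ y.im ≤ 0} :=
        (isClosed_le continuous_const continuous_im).inter
          (isClosed_le continuous_im continuous_const)
      have c3 : IsClosed {y : ℂ | ρ ≤ infDist y (E w z)} :=
        isClosed_le continuous_const (continuous_infDist_pt _)
      exact c1.inter (c2.inter c3)
    · rw [isBounded_iff_forall_norm_le]
      refine ⟨1 + |h|, ?_⟩
      rintro y ⟨⟨h1, h2⟩, ⟨h3, h4⟩, _⟩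
      refine (Complex.norm_le_abs_re_add_abs_im y).trans ?_
      rw [abs_of_nonneg h1, abs_of_nonpos h4]
      have := neg_abs_le h
      have := le_abs_self h
      linarith
  have hcovK : ∀ y ∈ K, ∃ (i : {i : Idx w // i.2.2 = true}) (m : ℤ),
      ‖y - (ic w i z + m)‖ * ‖iX w i z‖ < 1 := by
    intro y hy
    rw [hKd] at hy
    obtain ⟨_, ⟨_, h4⟩, h5⟩ := hy
    have hyE : y ∉ E w z := by
      intro hmem
      rw [infDist_zero_of_mem hmem] at h5
      linarith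
    have hyU : y ∈ Uo w z := by
      rcases h4.lt_or_eq with h6 | h6
      · exact hE.cov w z hw y h6 hyE
      · exact real_mem_Uo hz2 h6
    obtain ⟨i, m, hi, him⟩ := mem_Uo hyU
    exact ⟨⟨i, hi⟩, m, him⟩
  obtain ⟨q, hq0, hq1, hq⟩ := cover_q (fun i : {i : Idx w // i.2.2 = true} => iX w i z)
    (fun i => ic w i z) hKc hcovK
  -- the orbit points below the real line
  have hlow : ∀ g, ¬ Stb g → (aa g z).im ≤ 0 → ∃ (i : {i : Idx w // i.2.2 = true}) (m : ℤ),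
      ‖aa g z - (ic w i z + m)‖ * ‖iX w i z‖ ≤ q := by
    intro g hg him
    have hcg := PP_cc hPP hg
    obtain ⟨s1, s2⟩ := shift_word hcg (-⌊(aa g z).re⌋)
    have hf := hfar _ (not_Stb hz0 s1)
    have hmem : aa g z + ((-⌊(aa g z).re⌋ : ℤ) : ℂ) ∈ K := by
      rw [hKd]
      rw [s2] at hf
      have e1 : (aa g z + ((-⌊(aa g z).re⌋ : ℤ) : ℂ)).re = Int.fract (aa g z).re := by
        rw [Complex.add_re, Complex.intCast_re, Int.fract]
        push_cast
        ring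
      have e2 : (aa g z + ((-⌊(aa g z).re⌋ : ℤ) : ℂ)).im = (aa g z).im := by simp
      refine ⟨⟨?_, ?_⟩, ⟨?_, ?_⟩, hf⟩
      · rw [e1]; exact Int.fract_nonneg _
      · rw [e1]; exact (Int.fract_lt_one _).le
      · by_contra hcon
        push Not at hcon
        have := hh _ hcon
        rw [infDist_zero_of_mem this] at hf
        linarith
      · rw [e2]; exact him
    obtain ⟨i, m, him'⟩ := hq _ hmem
    refine ⟨i, m + ⌊(aa g z).re⌋, ?_⟩
    have e : aa g z - (ic w i z + ((m + ⌊(aa g z).re⌋ : ℤ) : ℂ)) =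
        aa g z + ((-⌊(aa g z).re⌋ : ℤ) : ℂ) - (ic w i z + m) := by push_cast; ring
    rw [e]
    exact him'
  refine ⟨q, hq0, hq1, fun g hg => ?_⟩
  rcases le_or_gt (aa g z).im 0 with him | him
  · obtain ⟨i, m, h1⟩ := hlow g hg him
    exact ⟨i, m, h1⟩
  · obtain ⟨s1, s2⟩ := neg_word (PP_cc hPP hg)
    obtain ⟨⟨⟨k, e, s⟩, hs⟩, m, h1⟩ := hlow _ (not_Stb hz0 s1) (by rw [s2, neg_im]; linarith)
    simp only at hs
    subst hs
    refine ⟨(k, e, false), -m, ?_⟩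
    rw [s2] at h1
    have e1 : ic w (k, e, true) z = ec (w.drop k) e z := rfl
    have e2 : ic w (k, e, false) z = -ec (w.drop k) e z := rfl
    have e3 : iX w (k, e, true) z = eX (w.drop k) e z := rfl
    have e4 : iX w (k, e, false) z = -eX (w.drop k) e z := rfl
    simp only [e1, e3] at h1
    rw [e2, e4, norm_neg]
    have e5 : aa g z - (-ec (w.drop k) e z + ((-m : ℤ) : ℂ)) =
        -(-aa g z - (ec (w.drop k) e z + m)) := by push_cast; ring
    rw [e5, norm_neg]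
    exact h1

theorem exists_min_pos {w : List Bool} {z : ℂ} (h : NZ w z) :
    ∃ μ : ℝ, 0 < μ ∧ ∀ i : Idx w, μ < ‖iX w i z‖ := by
  obtain ⟨i0, hi0⟩ := Finite.exists_min (fun i : Idx w => ‖iX w i z‖)
  have h1 : 0 < ‖iX w i0 z‖ := norm_pos_iff.2 (iX_ne h i0)
  refine ⟨‖iX w i0 z‖ / 2, by positivity, fun i => ?_⟩
  have := hi0 i
  linarith

/-- near a point all entries stay bounded from below -/
theorem near_min {w : List Bool} {z : ℂ} (h : NZ w z) :
    ∃ μ : ℝ, 0 < μ ∧ ∀ᶠ y in 𝓝 z, NZ w y ∧ ∀ i : Idx w, μ < ‖iX w i y‖ := by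
  obtain ⟨μ, hμ, h1⟩ := exists_min_pos h
  refine ⟨μ, hμ, ?_⟩
  have h2 := Filter.eventually_all.2 fun i : Idx w =>
    ((iX_cont (z := z) i).norm).eventually_const_lt (h1 i)
  filter_upwards [NZ_near h, h2] with y h3 h4
  exact ⟨h3, h4⟩

/-- **OPEN** -/
theorem EHyp.opn (hE : EHyp E) : ∀ z ∈ TT, PE E z → ∀ᶠ y in 𝓝 z, y ∈ TT → PE E y := by
  rintro z0 ⟨w0, h0⟩ hP
  have hNZ := NZ_of_Ch h0.1
  have hz0 := InT_ne0 h0
  obtain ⟨ρ, hρ, hunif⟩ := hE.unif h0
  have hfar := far h0 hP (hunif.self_of_nhds w0 h0)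
  obtain ⟨q, hq0, hq1, hq⟩ := hE.red h0 hP.1 hρ hfar
  obtain ⟨δ, hδ, hPP⟩ := hP.1
  have hopen := open_abs (ip w0) (iX w0) (ic w0) hz0 (fun i => iX_cont i) (ic_cont hNZ)
    (iX_ne hNZ) ((NZ_near hNZ).mono fun z hz => ev_ip hz) hδ hq0 hq1 hPP hq
    (ε := ρ / 3) (by positivity)
  obtain ⟨μ, hμ, hmin⟩ := near_min hNZ
  filter_upwards [hopen, hmin, hE.cont1 w0 z0 h0 (ρ / 3) (by positivity)] with z h1 h2 h3
  intro _
  refine ⟨⟨μ, hμ, fun g hg => ?_⟩, fun w hw g hg hmem => ?_⟩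
  · obtain ⟨_, _, i, hi⟩ := h1 g hg
    exact (h2.2 i).le.trans hi
  · obtain ⟨_, h5, _⟩ := h1 g hg
    obtain ⟨y', hy', hd⟩ := h3 w hw _ hmem
    have h6 := hfar g hg
    have h7 := infDist_le_dist_of_mem (x := aa g z0) hy'
    have h8 : dist (aa g z0) (aa g z) ≤ ρ / 3 := by
      rw [dist_comm, dist_eq_norm]; exact h5
    have h9 := dist_triangle (aa g z0) (aa g z) y'
    linarith

/-- **CLOSED** -/
theorem EHyp.cls (hE : EHyp E) : ∀ z ∈ TT, (∃ᶠ y in 𝓝 z, y ∈ TT ∧ PE E y) → PE E z := by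
  rintro z0 ⟨w0, h0⟩ hfr
  have hNZ := NZ_of_Ch h0.1
  have hz0 := InT_ne0 h0
  obtain ⟨ρ, hρ, hunif⟩ := hE.unif h0
  have hnear := InT_near h0
  -- a uniform lower bound of the entries
  obtain ⟨μ, hμ, hmin⟩ : ∃ μ : ℝ, 0 < μ ∧ ∀ᶠ y in 𝓝 z0, ∀ w, InT w y → ∀ i : Idx w,
      μ < ‖iX w i y‖ := by
    obtain ⟨μ0, hμ0, m0⟩ := near_min hNZ
    have aux : ∀ b : Bool, ∃ μ : ℝ, 0 < μ ∧ ∀ᶠ y in 𝓝 z0, NZ (b :: w0) z0 →
        ∀ i : Idx (b :: w0), μ < ‖iX (b :: w0) i y‖ := by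
      intro b
      by_cases hb : NZ (b :: w0) z0
      · obtain ⟨μ1, hμ1, m1⟩ := near_min hb
        exact ⟨μ1, hμ1, m1.mono fun y hy _ => hy.2⟩
      · exact ⟨1, one_pos, Eventually.of_forall fun y h => absurd h hb⟩
    obtain ⟨μ1, hμ1, m1⟩ := aux true
    obtain ⟨μ2, hμ2, m2⟩ := aux false
    refine ⟨min μ0 (min μ1 μ2), lt_min hμ0 (lt_min hμ1 hμ2), ?_⟩
    filter_upwards [m0, m1, m2, hnear] with y h1 h2 h3 h4
    intro w hw i
    rcases h4 w hw with h | ⟨h, _, hn⟩ | ⟨h, _, hn⟩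
    · subst h
      exact (min_le_left _ _).trans_lt (h1.2 i)
    · subst h
      exact ((min_le_right _ _).trans (min_le_left _ _)).trans_lt (h2 hn i)
    · subst h
      exact ((min_le_right _ _).trans (min_le_right _ _)).trans_lt (h3 hn i)
  -- at the good points
  have hgood : ∃ᶠ y in 𝓝 z0, (∃ w, InT w y ∧ ∀ g, ¬ Stb g → ρ ≤ infDist (aa g y) (E w y)) ∧
      PE E y ∧ ∀ g, ¬ Stb g → μ ≤ ‖cc g y‖ := by
    refine (hfr.and_eventually (hunif.and hmin)).mono ?_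
    rintro y ⟨⟨⟨w, hw⟩, hP⟩, h1, h2⟩
    have hf := far hw hP (h1 w hw)
    obtain ⟨q, hq0, hq1, hq⟩ := hE.red hw hP.1 hρ hf
    obtain ⟨δ, hδ, hPP⟩ := hP.1
    have hr := red_abs (ip w) (fun i => iX w i y) (fun i => ic w i y) (InT_ne0 hw)
      (iX_ne (NZ_of_Ch hw.1)) (ev_ip (NZ_of_Ch hw.1)) hδ hq0 hq1 hPP hq
    refine ⟨⟨w, hw, hf⟩, hP, fun g hg => ?_⟩
    obtain ⟨i, hi⟩ := hr g hg
    exact (h2 w hw i).le.trans hi
  -- continuity of the entries of a word
  have hcont : ∀ (g : List Lt) (a b : Fin 2), ContinuousAt (fun z => ev z g a b) z0 := by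
    intro g
    induction g with
    | nil => intro a b; exact continuousAt_const
    | cons l g ih =>
      intro a b
      have e : (fun z => ev z (l :: g) a b) =
          fun z => lm z l a 0 * ev z g 0 b + lm z l a 1 * ev z g 1 b := by
        funext z
        rw [ev_cons, Matrix.mul_apply, Fin.sum_univ_two]
      rw [e]
      have hl : ∀ a c : Fin 2, ContinuousAt (fun z => lm z l a c) z0 := by
        intro a c
        cases l
        · exact continuousAt_const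
        · exact continuousAt_const
        · exact continuousAt_const
        · fin_cases a <;> fin_cases c
          · exact continuousAt_const
          · exact (continuousAt_inv₀ hz0).neg
          · exact continuousAt_id
          · exact continuousAt_const
      exact ((hl a 0).mul (ih 0 b)).add ((hl a 1).mul (ih 1 b))
  have hPP : PP z0 := by
    refine ⟨μ, hμ, fun g hg => ?_⟩
    by_contra hcon
    push Not at hcon
    have h1 : ∀ᶠ y in 𝓝 z0, ‖cc g y‖ < μ := (hcont g 1 0).norm.eventually_lt_const hcon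
    obtain ⟨y, ⟨_, _, h2⟩, h3⟩ := (hgood.and_eventually h1).exists
    exact absurd (h2 g hg) (not_le.2 h3)
  refine ⟨hPP, fun w hw g hg hmem => ?_⟩
  have hcg := PP_cc hPP hg
  have haa : ContinuousAt (fun y => aa g y) z0 := (hcont g 0 0).div (hcont g 1 0) hcg
  have h1 : ∀ᶠ y in 𝓝 z0, dist (aa g y) (aa g z0) < ρ / 3 := by
    have := haa.eventually (Metric.ball_mem_nhds (aa g z0) (show 0 < ρ / 3 by positivity))
    exact this
  have h2 := hE.cont2 w z0 hw (ρ / 3) (by positivity)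
  obtain ⟨y, ⟨⟨w', hw', hf⟩, _, _⟩, h3, h4⟩ := (hgood.and_eventually (h1.and h2)).exists
  obtain ⟨y', hy', hd⟩ := h4 w' hw' _ hmem
  have h5 := hf g hg
  have h6 := infDist_le_dist_of_mem (x := aa g y) hy'
  have h7 := dist_triangle (aa g y) (aa g z0) y'
  linarith

/-- the strong property implies discreteness -/
theorem PE_ppc {z : ℂ} (hz : z ∈ TT) (hP : PE E z) : PPc z := by
  obtain ⟨w, hw⟩ := hz
  have hz0 := InT_ne0 hw
  obtain ⟨δ, hδ, hPP⟩ := hP.1
  refine ⟨δ, hδ, fun g hg => ?_⟩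
  have hword : ∃ g' : List Lt, ev z g' = g := by
    induction hg using Submonoid.closure_induction with
    | mem x hx =>
      simp only [Set.mem_insert_iff, Set.mem_singleton_iff] at hx
      rcases hx with h | h | h | h
      · exact ⟨[.T], by rw [h]; simp [ev_cons, ev_nil, lm]⟩
      · exact ⟨[.Ti], by rw [h]; simp [ev_cons, ev_nil, lm]⟩
      · exact ⟨[.N], by rw [h]; simp [ev_cons, ev_nil, lm]⟩
      · exact ⟨[.J], by rw [h]; simp [ev_cons, ev_nil, lm]⟩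
    | one => exact ⟨[], rfl⟩
    | mul x y _ _ ihx ihy =>
      obtain ⟨a, ha⟩ := ihx
      obtain ⟨b, hb⟩ := ihy
      exact ⟨a ++ b, by rw [ev_append, ha, hb]⟩
  obtain ⟨g', rfl⟩ := hword
  by_cases hs : Stb g'
  · left
    obtain ⟨u, m, _, hu⟩ := hs
    rw [hu z hz0]
    simp
  · right
    exact hPP g' hs

end Pool.Agent.M4
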