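import Pool.Agent.helper95.M4.V1

/-! # M4 (MP_1b8d20_an), block V: the orbit moves slowly (abstract form of OPEN)

A finite family of involutions `Pm (X i z) (c i z)` represented by words `p i`.  If at `z0` every
point of the orbit of infinity lies in one of the discs of radius `q / |X i|`, `q < 1`, around the
translates of the centres, then the whole orbit moves continuously, uniformly.
-/

set_option autoImplicit false

namespace Pool.Agent.M4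

open Complex Matrix Filter Topology

theorem Pm_sq {X c : ℂ} (hX : X ≠ 0) : Pm X c * Pm X c = -1 := by
  ext i j
  fin_cases i <;> fin_cases j <;>
    simp [Pm, Matrix.mul_apply, Fin.sum_univ_two] <;> field_simp <;> ring

/-- one step of the contraction -/
theorem one_step {X0 c0 X c a0 a : ℂ} {q ε η : ℝ} (hq0 : 0 < q) (hX0 : X0 ≠ 0) (hX : X ≠ 0)
    (ha0 : 1 / q ≤ ‖a0 - c0‖ * ‖X0‖) (ha : ‖a - a0‖ ≤ ε) (hc : ‖c - c0‖ ≤ η)
    (hs : q * ‖X0‖ * (ε + η) < 1)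
    (h1 : 1 ≤ ‖X‖ / ‖X0‖ * (1 / q - ‖X0‖ * (ε + η)))
    (h2 : η + ‖X0 ^ 2 - X ^ 2‖ / ‖X0‖ ^ 2 / ‖X‖ + q ^ 2 * (ε + η) / (1 - q * ‖X0‖ * (ε + η)) ≤ ε) :
    1 ≤ ‖a - c‖ * ‖X‖ ∧
      ‖(c - 1 / (X ^ 2 * (a - c))) - (c0 - 1 / (X0 ^ 2 * (a0 - c0)))‖ ≤ ε := by
  have hX0' : 0 < ‖X0‖ := norm_pos_iff.2 hX0
  have hX' : 0 < ‖X‖ := norm_pos_iff.2 hX
  have hd : ‖(a - c) - (a0 - c0)‖ ≤ ε + η := by
    calc ‖(a - c) - (a0 - c0)‖ = ‖(a - a0) - (c - c0)‖ := by congr 1; ring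
      _ ≤ ‖a - a0‖ + ‖c - c0‖ := norm_sub_le _ _
      _ ≤ ε + η := add_le_add ha hc
  have hd0 : 1 / q / ‖X0‖ ≤ ‖a0 - c0‖ := by rwa [div_le_iff₀ hX0']
  have hlow : 1 / q / ‖X0‖ - (ε + η) ≤ ‖a - c‖ := by
    have h3 := norm_sub_norm_le (a0 - c0) (a - c)
    have h4 := norm_sub_rev (a0 - c0) (a - c)
    linarith
  have hA : ‖X‖ / ‖X0‖ * (1 / q - ‖X0‖ * (ε + η)) ≤ ‖a - c‖ * ‖X‖ := by
    calc ‖X‖ / ‖X0‖ * (1 / q - ‖X0‖ * (ε + η)) = (1 / q / ‖X0‖ - (ε + η)) * ‖X‖ := by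
          field_simp
      _ ≤ _ := mul_le_mul_of_nonneg_right hlow hX'.le
  have hone : 1 ≤ ‖a - c‖ * ‖X‖ := h1.trans hA
  refine ⟨hone, ?_⟩
  have hac : a - c ≠ 0 := by
    intro h
    rw [h, norm_zero, zero_mul] at hone
    linarith
  have hqpos : 0 < 1 / q := by positivity
  have hac0 : a0 - c0 ≠ 0 := by
    intro h
    rw [h, norm_zero, zero_mul] at ha0
    linarith
  have hacn : 0 < ‖a - c‖ := norm_pos_iff.2 hac
  have hacn0 : 0 < ‖a0 - c0‖ := norm_pos_iff.2 hac0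
  -- the difference
  have e : (c - 1 / (X ^ 2 * (a - c))) - (c0 - 1 / (X0 ^ 2 * (a0 - c0))) =
      (c - c0) - (X0 ^ 2 - X ^ 2) / (X0 ^ 2 * X ^ 2 * (a - c)) +
        ((a - c) - (a0 - c0)) / (X0 ^ 2 * (a - c) * (a0 - c0)) := by
    field_simp
    ring
  have hb1 : ‖(X0 ^ 2 - X ^ 2) / (X0 ^ 2 * X ^ 2 * (a - c))‖ ≤
      ‖X0 ^ 2 - X ^ 2‖ / ‖X0‖ ^ 2 / ‖X‖ := by
    rw [norm_div, norm_mul, norm_mul, norm_pow, norm_pow, div_div]
    apply div_le_div_of_nonneg_left (norm_nonneg _) (by positivity)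
    have : ‖X‖ ≤ ‖X‖ ^ 2 * ‖a - c‖ := by nlinarith
    nlinarith [sq_nonneg ‖X0‖]
  have hb2 : ‖((a - c) - (a0 - c0)) / (X0 ^ 2 * (a - c) * (a0 - c0))‖ ≤
      q ^ 2 * (ε + η) / (1 - q * ‖X0‖ * (ε + η)) := by
    rw [norm_div, norm_mul, norm_mul, norm_pow]
    have hpos : 0 < 1 - q * ‖X0‖ * (ε + η) := by linarith
    rw [div_le_div_iff₀ (by positivity) hpos]
    have h3 : (1 - q * ‖X0‖ * (ε + η)) ≤ q * ‖X0‖ * ‖a - c‖ := by
      have := mul_le_mul_of_nonneg_left hlow (show 0 ≤ q * ‖X0‖ by positivity)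
      calc 1 - q * ‖X0‖ * (ε + η) = q * ‖X0‖ * (1 / q / ‖X0‖ - (ε + η)) := by field_simp
        _ ≤ _ := this
    have h4 : 1 ≤ q * ‖X0‖ * ‖a0 - c0‖ := by
      rw [div_le_iff₀ hq0] at ha0
      linarith
    have h5 : 1 - q * ‖X0‖ * (ε + η) ≤ q ^ 2 * (‖X0‖ ^ 2 * ‖a - c‖ * ‖a0 - c0‖) := by
      calc 1 - q * ‖X0‖ * (ε + η) ≤ (q * ‖X0‖ * ‖a - c‖) * 1 := by rw [mul_one]; exact h3
        _ ≤ (q * ‖X0‖ * ‖a - c‖) * (q * ‖X0‖ * ‖a0 - c0‖) :=
            mul_le_mul_of_nonneg_left h4 (by positivity)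
        _ = _ := by ring
    have h6 : 0 ≤ ε + η := (norm_nonneg _).trans hd
    calc ‖(a - c) - (a0 - c0)‖ * (1 - q * ‖X0‖ * (ε + η))
        ≤ (ε + η) * (q ^ 2 * (‖X0‖ ^ 2 * ‖a - c‖ * ‖a0 - c0‖)) :=
          mul_le_mul hd h5 hpos.le h6
      _ = _ := by ring
  rw [e]
  calc _ ≤ ‖(c - c0) - (X0 ^ 2 - X ^ 2) / (X0 ^ 2 * X ^ 2 * (a - c))‖ +
        ‖((a - c) - (a0 - c0)) / (X0 ^ 2 * (a - c) * (a0 - c0))‖ := norm_add_le _ _
    _ ≤ (‖c - c0‖ + ‖(X0 ^ 2 - X ^ 2) / (X0 ^ 2 * X ^ 2 * (a - c))‖) +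
        ‖((a - c) - (a0 - c0)) / (X0 ^ 2 * (a - c) * (a0 - c0))‖ :=
        add_le_add_left (norm_sub_le _ _) _
    _ ≤ ε := by linarith

/-- the product with an involution twice -/
theorem ev_twice {z X c : ℂ} {P g : List Lt} (hX : X ≠ 0) (hP : ev z P = Pm X c) :
    ev z (P ++ (P ++ g)) = -ev z g := by
  rw [ev_append, ev_append, hP, ← Matrix.mul_assoc, Pm_sq hX, neg_one_mul]

theorem cc_twice {z X c : ℂ} {P g : List Lt} (hX : X ≠ 0) (hP : ev z P = Pm X c) :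
    ‖cc (P ++ (P ++ g)) z‖ = ‖cc g z‖ := by
  rw [cc, ev_twice hX hP, Matrix.neg_apply, norm_neg]; rfl

theorem aa_twice {z X c : ℂ} {P g : List Lt} (hX : X ≠ 0) (hP : ev z P = Pm X c) :
    aa (P ++ (P ++ g)) z = aa g z := by
  rw [aa, ev_twice hX hP, Matrix.neg_apply, Matrix.neg_apply, neg_div_neg_eq]; rfl

/-- the conditions of `one_step` hold near `z0` -/
theorem near_step {X c : ℂ → ℂ} {z0 : ℂ} (hX : ContinuousAt X z0) (hc : ContinuousAt c z0)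
    (hX0 : X z0 ≠ 0) {q ε : ℝ} (hq0 : 0 < q) (hq : q < 1) (hε : 0 < ε)
    (hs : q * ‖X z0‖ * ε < 1 - q) :
    ∀ᶠ z in 𝓝 z0, X z ≠ 0 ∧ ‖c z - c z0‖ ≤ ε ∧ q * ‖X z0‖ * (ε + ‖c z - c z0‖) < 1 ∧
      1 ≤ ‖X z‖ / ‖X z0‖ * (1 / q - ‖X z0‖ * (ε + ‖c z - c z0‖)) ∧
      ‖c z - c z0‖ + ‖X z0 ^ 2 - X z ^ 2‖ / ‖X z0‖ ^ 2 / ‖X z‖ +
        q ^ 2 * (ε + ‖c z - c z0‖) / (1 - q * ‖X z0‖ * (ε + ‖c z - c z0‖)) ≤ ε := by
  have hn : 0 < ‖X z0‖ := norm_pos_iff.2 hX0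
  have h0 : Tendsto (fun z => ‖c z - c z0‖) (𝓝 z0) (𝓝 0) := by
    have : Tendsto (fun z => ‖c z - c z0‖) (𝓝 z0) (𝓝 ‖c z0 - c z0‖) :=
      (hc.sub continuousAt_const).norm
    rwa [sub_self, norm_zero] at this
  have hXn : Tendsto (fun z => ‖X z‖) (𝓝 z0) (𝓝 ‖X z0‖) := hX.norm
  have hs1 : Tendsto (fun z => q * ‖X z0‖ * (ε + ‖c z - c z0‖)) (𝓝 z0)
      (𝓝 (q * ‖X z0‖ * (ε + 0))) := (h0.const_add ε).const_mul _
  rw [add_zero] at hs1
  have e1 : ∀ᶠ z in 𝓝 z0, X z ≠ 0 := hX.eventually_ne hX0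
  have e2 : ∀ᶠ z in 𝓝 z0, ‖c z - c z0‖ < ε := h0.eventually_lt_const hε
  have e3 : ∀ᶠ z in 𝓝 z0, q * ‖X z0‖ * (ε + ‖c z - c z0‖) < 1 :=
    hs1.eventually_lt_const (by linarith)
  have e4 : ∀ᶠ z in 𝓝 z0,
      1 < ‖X z‖ / ‖X z0‖ * (1 / q - ‖X z0‖ * (ε + ‖c z - c z0‖)) := by
    have h1 : Tendsto (fun z => ‖X z‖ / ‖X z0‖ * (1 / q - ‖X z0‖ * (ε + ‖c z - c z0‖))) (𝓝 z0)
        (𝓝 (‖X z0‖ / ‖X z0‖ * (1 / q - ‖X z0‖ * (ε + 0)))) :=
      (hXn.div_const _).mul (((h0.const_add ε).const_mul _).const_sub _)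
    refine h1.eventually_const_lt ?_
    rw [div_self hn.ne', one_mul, add_zero, lt_sub_iff_add_lt]
    rw [lt_div_iff₀ hq0]
    linarith
  have e5 : ∀ᶠ z in 𝓝 z0, ‖c z - c z0‖ + ‖X z0 ^ 2 - X z ^ 2‖ / ‖X z0‖ ^ 2 / ‖X z‖ +
        q ^ 2 * (ε + ‖c z - c z0‖) / (1 - q * ‖X z0‖ * (ε + ‖c z - c z0‖)) < ε := by
    have h1 : Tendsto (fun z => ‖X z0 ^ 2 - X z ^ 2‖) (𝓝 z0) (𝓝 ‖X z0 ^ 2 - X z0 ^ 2‖) :=
      (continuousAt_const.sub (hX.pow 2)).norm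
    rw [sub_self, norm_zero] at h1
    have h2 : 1 - q * ‖X z0‖ * ε ≠ 0 := by
      have : 0 < 1 - q * ‖X z0‖ * ε := by linarith
      exact this.ne'
    have h3 : Tendsto (fun z => ‖c z - c z0‖ + ‖X z0 ^ 2 - X z ^ 2‖ / ‖X z0‖ ^ 2 / ‖X z‖ +
        q ^ 2 * (ε + ‖c z - c z0‖) / (1 - q * ‖X z0‖ * (ε + ‖c z - c z0‖))) (𝓝 z0)
        (𝓝 (0 + 0 / ‖X z0‖ ^ 2 / ‖X z0‖ + q ^ 2 * (ε + 0) / (1 - q * ‖X z0‖ * ε))) :=
      (h0.add ((h1.div_const _).div hXn hn.ne')).add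
        (((h0.const_add ε).const_mul _).div (hs1.const_sub 1) h2)
    refine h3.eventually_lt_const ?_
    rw [zero_div, zero_div, add_zero, zero_add, add_zero]
    have h4 : 0 < 1 - q * ‖X z0‖ * ε := by linarith
    rw [div_lt_iff₀ h4]
    nlinarith [mul_pos hq0 hε, mul_pos (mul_pos hq0 hn) hε]
  filter_upwards [e1, e2, e3, e4, e5] with z g1 g2 g3 g4 g5
  exact ⟨g1, g2.le, g3, g4.le, g5.le⟩

/-- **OPEN, abstract form.** -/
theorem open_abs {ι : Type*} [Finite ι] (p : ι → List Lt) (X c : ι → ℂ → ℂ) {z0 : ℂ}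
    (hz0 : z0 ≠ 0) (hXc : ∀ i, ContinuousAt (X i) z0) (hcc : ∀ i, ContinuousAt (c i) z0)
    (hX0 : ∀ i, X i z0 ≠ 0) (hp : ∀ᶠ z in 𝓝 z0, ∀ i, ev z (p i) = Pm (X i z) (c i z))
    {δ q : ℝ} (hδ : 0 < δ) (hq0 : 0 < q) (hq : q < 1)
    (hPP : ∀ g, ¬ Stb g → δ ≤ ‖cc g z0‖)
    (hR : ∀ g, ¬ Stb g → ∃ (i : ι) (m : ℤ), ‖aa g z0 - (c i z0 + m)‖ * ‖X i z0‖ ≤ q)
    {ε : ℝ} (hε : 0 < ε) :
    ∀ᶠ z in 𝓝 z0, ∀ g, ¬ Stb g →
      cc g z ≠ 0 ∧ ‖aa g z - aa g z0‖ ≤ ε ∧ ∃ i, ‖X i z‖ ≤ ‖cc g z‖ := by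
  -- a small `ε₁`
  obtain ⟨M, hM⟩ : ∃ M : ℝ, ∀ i, ‖X i z0‖ ≤ M := by
    obtain ⟨M, hM⟩ := (Set.finite_range (fun i => ‖X i z0‖)).bddAbove
    exact ⟨M, fun i => hM ⟨i, rfl⟩⟩
  obtain ⟨ε1, hε1, hε1', hεM⟩ : ∃ ε1 : ℝ, 0 < ε1 ∧ ε1 ≤ ε ∧ ∀ i, q * ‖X i z0‖ * ε1 < 1 - q := by
    refine ⟨min ε ((1 - q) / 2 / (q * (|M| + 1))), lt_min hε ?_, min_le_left _ _, fun i => ?_⟩
    · have : 0 < 1 - q := by linarith
      positivity
    · have h1 : ‖X i z0‖ ≤ |M| + 1 := (hM i).trans (by linarith [le_abs_self M])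
      have hq1 : 0 < 1 - q := by linarith
      have hp1 : 0 < q * (|M| + 1) := by positivity
      calc q * ‖X i z0‖ * min ε ((1 - q) / 2 / (q * (|M| + 1)))
          ≤ q * (|M| + 1) * ((1 - q) / 2 / (q * (|M| + 1))) := by
            apply mul_le_mul (mul_le_mul_of_nonneg_left h1 hq0.le) (min_le_right _ _)
              (le_min hε.le (by positivity)) hp1.le
        _ = (1 - q) / 2 := by field_simp
        _ < 1 - q := by linarith
  have hnear := Filter.eventually_all.2 fun i =>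
    near_step (hXc i) (hcc i) (hX0 i) hq0 hq hε1 (hεM i)
  have hzne : ∀ᶠ z in 𝓝 z0, z ≠ 0 := eventually_ne_nhds hz0
  filter_upwards [hnear, hp, hzne] with z hz hpz hzz
  have hpz0 : ∀ i, ev z0 (p i) = Pm (X i z0) (c i z0) := hp.self_of_nhds
  have key : ∀ n : ℕ, ∀ g, ¬ Stb g → ‖cc g z0‖ * q ^ n < δ →
      cc g z ≠ 0 ∧ ‖aa g z - aa g z0‖ ≤ ε1 ∧ ∃ i, ‖X i z‖ ≤ ‖cc g z‖ := by
    intro n
    induction n with
    | zero =>
      intro g hg h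
      rw [pow_zero, mul_one] at h
      exact absurd (hPP g hg) (not_le.2 h)
    | succ n ih =>
      intro g hg h
      obtain ⟨i, m, him⟩ := hR g hg
      obtain ⟨g1, g2, g3, g4, g5⟩ := hz i
      have hP0 : ev z0 (shw m (p i)) = Pm (X i z0) (c i z0 + m) := ev_shw (hpz0 i) m
      have hP : ev z (shw m (p i)) = Pm (X i z) (c i z + m) := ev_shw (hpz i) m
      have hcg : cc g z0 ≠ 0 := by
        intro h0
        have := hPP g hg
        rw [h0, norm_zero] at this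
        linarith
      by_cases hst : Stb (shw m (p i) ++ g)
      · obtain ⟨s1, s2⟩ := aa_of_stb hzz g1 hP hst
        obtain ⟨s3, s4⟩ := aa_of_stb hz0 (hX0 i) hP0 hst
        refine ⟨?_, ?_, i, s2.ge⟩
        · rw [← norm_pos_iff, s2]; exact norm_pos_iff.2 g1
        · rw [s1, s3]
          have e : c i z + (m : ℂ) - (c i z0 + m) = c i z - c i z0 := by ring
          rw [e]; exact g2
      · have hn := norm_cc_mul hP0 hcg
        have hlt : ‖cc (shw m (p i) ++ g) z0‖ * q ^ n < δ := by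
          calc ‖cc (shw m (p i) ++ g) z0‖ * q ^ n
              = (‖aa g z0 - (c i z0 + m)‖ * ‖X i z0‖) * (‖cc g z0‖ * q ^ n) := by
                rw [hn]; ring
            _ ≤ q * (‖cc g z0‖ * q ^ n) := mul_le_mul_of_nonneg_right him (by positivity)
            _ = ‖cc g z0‖ * q ^ (n + 1) := by ring
            _ < δ := h
        obtain ⟨k1, k2, k3⟩ := ih _ hst hlt
        -- the point is not the centre
        have hne : aa g z0 ≠ c i z0 + m := by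
          intro h0
          have := hPP _ hst
          rw [hn, h0, sub_self, norm_zero, zero_mul, zero_mul] at this
          linarith
        have haa0 := aa_mul (hX0 i) hP0 hcg hne
        have hfar : 1 / q ≤ ‖aa (shw m (p i) ++ g) z0 - (c i z0 + m)‖ * ‖X i z0‖ := by
          have hXn : 0 < ‖X i z0‖ := norm_pos_iff.2 (hX0 i)
          have hgn : 0 < ‖aa g z0 - (c i z0 + m)‖ := norm_pos_iff.2 (sub_ne_zero.2 hne)
          have e : aa (shw m (p i) ++ g) z0 - (c i z0 + m) =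
              -(1 / (X i z0 ^ 2 * (aa g z0 - (c i z0 + m)))) := by rw [haa0]; ring
          rw [e, norm_neg, norm_div, norm_one, norm_mul, norm_pow]
          have e2 : 1 / (‖X i z0‖ ^ 2 * ‖aa g z0 - (c i z0 + m)‖) * ‖X i z0‖ =
              1 / (‖aa g z0 - (c i z0 + m)‖ * ‖X i z0‖) := by
            field_simp
          rw [e2]
          exact one_div_le_one_div_of_le (by positivity) him
        have hcm : ‖(c i z + m) - (c i z0 + m)‖ ≤ ‖c i z - c i z0‖ := by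
          have e : c i z + (m : ℂ) - (c i z0 + m) = c i z - c i z0 := by ring
          rw [e]
        obtain ⟨t1, t2⟩ := one_step hq0 (hX0 i) g1 hfar k2 hcm g3 g4 g5
        have hne2 : aa (shw m (p i) ++ g) z ≠ c i z + m := by
          intro h0
          rw [h0, sub_self, norm_zero, zero_mul] at t1
          linarith
        have hne3 : aa (shw m (p i) ++ g) z0 ≠ c i z0 + m := by
          intro h0
          rw [h0, sub_self, norm_zero, zero_mul] at hfar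
          have : 0 < 1 / q := by positivity
          linarith
        have hcg0 : cc (shw m (p i) ++ g) z0 ≠ 0 := by
          intro h0
          have := hPP _ hst
          rw [h0, norm_zero] at this
          linarith
        have r1 := aa_mul g1 hP k1 hne2
        have r2 := aa_mul (hX0 i) hP0 hcg0 hne3
        rw [aa_twice g1 hP] at r1
        rw [aa_twice (hX0 i) hP0] at r2
        have r3 := norm_cc_mul hP k1
        rw [cc_twice g1 hP] at r3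
        have hge : ‖cc (shw m (p i) ++ g) z‖ ≤ ‖cc g z‖ := by
          rw [r3]
          exact le_mul_of_one_le_left (norm_nonneg _) t1
        refine ⟨?_, ?_, ?_⟩
        · rw [← norm_pos_iff]
          exact (norm_pos_iff.2 k1).trans_le hge
        · rw [r1, r2]
          exact t2
        · obtain ⟨j, hj⟩ := k3
          exact ⟨j, hj.trans hge⟩
  intro g hg
  obtain ⟨n, hn⟩ := exists_pow_lt_of_lt_one (show 0 < δ / (‖cc g z0‖ + 1) by positivity) hq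
  have hlt : ‖cc g z0‖ * q ^ n < δ := by
    rw [lt_div_iff₀ (by positivity)] at hn
    have := pow_pos hq0 n
    nlinarith
  obtain ⟨k1, k2, k3⟩ := key n g hg hlt
  exact ⟨k1, k2.trans hε1', k3⟩

/-- **reduction**: with covering discs of radius `q / |X i|` all lower left entries are at least
the smallest `|X i|`. -/
theorem red_abs {ι : Type*} (p : ι → List Lt) (X c : ι → ℂ) {z : ℂ} (hz : z ≠ 0)
    (hX : ∀ i, X i ≠ 0) (hp : ∀ i, ev z (p i) = Pm (X i) (c i))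
    {δ q : ℝ} (hδ : 0 < δ) (hq0 : 0 < q) (hq : q < 1)
    (hPP : ∀ g, ¬ Stb g → δ ≤ ‖cc g z‖)
    (hR : ∀ g, ¬ Stb g → ∃ (i : ι) (m : ℤ), ‖aa g z - (c i + m)‖ * ‖X i‖ ≤ q) :
    ∀ g, ¬ Stb g → ∃ i, ‖X i‖ ≤ ‖cc g z‖ := by
  have key : ∀ n : ℕ, ∀ g, ¬ Stb g → ‖cc g z‖ * q ^ n < δ → ∃ i, ‖X i‖ ≤ ‖cc g z‖ := by
    intro n
    induction n with
    | zero =>
      intro g hg h
      rw [pow_zero, mul_one] at h
      exact absurd (hPP g hg) (not_le.2 h)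
    | succ n ih =>
      intro g hg h
      obtain ⟨i, m, him⟩ := hR g hg
      have hP : ev z (shw m (p i)) = Pm (X i) (c i + m) := ev_shw (hp i) m
      have hcg : cc g z ≠ 0 := by
        intro h0
        have := hPP g hg
        rw [h0, norm_zero] at this
        linarith
      by_cases hst : Stb (shw m (p i) ++ g)
      · exact ⟨i, (aa_of_stb hz (hX i) hP hst).2.ge⟩
      · have hn := norm_cc_mul hP hcg
        have hle : ‖cc (shw m (p i) ++ g) z‖ ≤ ‖cc g z‖ := by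
          rw [hn]
          exact mul_le_of_le_one_left (norm_nonneg _) (him.trans hq.le)
        have hlt : ‖cc (shw m (p i) ++ g) z‖ * q ^ n < δ := by
          calc ‖cc (shw m (p i) ++ g) z‖ * q ^ n
              = (‖aa g z - (c i + m)‖ * ‖X i‖) * (‖cc g z‖ * q ^ n) := by
                rw [hn]; ring
            _ ≤ q * (‖cc g z‖ * q ^ n) := mul_le_mul_of_nonneg_right him (by positivity)
            _ = ‖cc g z‖ * q ^ (n + 1) := by ring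
            _ < δ := h
        obtain ⟨j, hj⟩ := ih _ hst hlt
        exact ⟨j, hj.trans hle⟩
  intro g hg
  obtain ⟨n, hn⟩ := exists_pow_lt_of_lt_one (show 0 < δ / (‖cc g z‖ + 1) by positivity) hq
  have hlt : ‖cc g z‖ * q ^ n < δ := by
    rw [lt_div_iff₀ (by positivity)] at hn
    have := pow_pos hq0 n
    nlinarith
  exact key n g hg hlt

end Pool.Agent.M4
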