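import Pool.Agent.helper66.M4.Wall
import Pool.Agent.helper8.M4V.VH
import Pool.Agent.helper30.M4.BaseW

/-! # M4, block V: `PP_stmt` -/

set_option autoImplicit false

namespace Pool.Agent.M4

open Complex ComplexConjugate Topology Filter

theorem VHYP : VHyp vs ds := ⟨fun _ _ h0 _ hfr => VH_lim h0 hfr, WALL⟩

theorem EHYP : EHyp (EE vs ds) := VHYP.ehyp

/-- Near a corner with `‖z‖ = 2` the region stays away from the smaller discs around the
integers. -/
def BASEE_stmt : Prop := ∀ z0 ∈ Qd, ‖z0‖ = 2 → ∀ η : ℝ, 0 < η → ∀ᶠ y in 𝓝 z0, ∀ w, InT w y →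
  ∀ u ∈ EE vs ds w y, ∀ m : ℤ, 1 / 2 - η < ‖u - m‖

/-- **Block V from `BASE_E`.** -/
theorem PP_of (hB : BASEE_stmt) : PP_stmt (PE (EE vs ds)) where
  opn := EHYP.opn
  cls := EHYP.cls
  base := by
    intro z hz h2
    obtain ⟨η, h0, _, h⟩ := B_near hz h2
    filter_upwards [h, B_PP hz h2, hB z hz h2 (η / 2) (by linarith)] with y h3 h4 h5 _
    refine ⟨h4, fun w hw g hg hmem => ?_⟩
    obtain ⟨⟨m, hm⟩, _⟩ := h3 g hg
    exact absurd hm (not_le.2 (h5 w hw _ hmem m))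
  ppc := fun _ hz hP => PE_ppc hz hP

end Pool.Agent.M4
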