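import Pool.Agent.helper8.M4V.Cnt
import Pool.Agent.helper95.M4.EH

/-! # M4, block V: WALL (the regions of the parent and of the child coincide at a wall) -/

set_option autoImplicit false

namespace Pool.Agent.M4

open Complex ComplexConjugate Topology Filter
open M4J (thL)

/-- two chains with the same direction and the same nondegenerate slabs -/
theorem Er_sub {X c v X' c' v' : ℤ → ℂ} {d : ℂ} (h : Chn X c v d)
    (nd : ∀ j, v (j - 1) = v j → v j ≠ v (j + 1))
    (hf : ∀ j, v (j - 1) = v j ∨ ∃ k, X' k = X j ∧ c' k = c j ∧ v' (k - 1) = v (j - 1) ∧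
      v' k = v j) : Er X c v d ⊆ Er X' c' v' d := by
  have key : ∀ (j : ℤ) (y : ℂ), v (j - 1) ≠ v j → InS v d j y → Bel X c d j y →
      y ∈ Er X' c' v' d := by
    intro j y hne hs hb
    rcases hf j with h1 | ⟨k, k1, k2, k3, k4⟩
    · exact absurd h1 hne
    · rw [mem_Er]
      refine ⟨k, ?_, ?_⟩
      · unfold InS; rw [k3, k4]; exact hs
      · unfold Bel; rw [k1, k2]; exact hb
  intro y hy
  obtain ⟨j, hs, hb⟩ := mem_Er.1 hy
  by_cases hj : v (j - 1) = v j
  · have hs' : InS v d (j + 1) y := by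
      refine ⟨?_, ?_⟩
      · rw [add_sub_cancel_right, ← hj]; exact hs.1
      · exact hs.2.trans (h.ximono (by linarith))
    refine key (j + 1) y ?_ hs' ((h.bel_succ hs hs').1 hb)
    rw [add_sub_cancel_right]
    exact nd j hj
  · exact key j y hj hs hb

/-- the two remaining half angles are determined -/
theorem ths_wall {A B : ℂ} (hA : A ≠ 0) (hB : B ≠ 0) (him : (A * conj B).im ≠ 0)
    {α β α' β' : ℝ} (h1 : 0 ≤ α) (h2 : 0 ≤ β) (h3 : α + β = Real.pi / 2) (h1' : 0 ≤ α')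
    (h2' : 0 ≤ β') (h3' : α' + β' = Real.pi / 2)
    (h : 2 * (Real.sin α : ℂ) / A + 2 * (Real.sin β : ℂ) / B = 1)
    (h' : 2 * (Real.sin α' : ℂ) / A + 2 * (Real.sin β' : ℂ) / B = 1) : α' = α ∧ β' = β := by
  have e1 : ((Real.sin β : ℝ) : ℂ) * A + ((Real.sin α : ℝ) : ℂ) * B =
      ((Real.sin β' : ℝ) : ℂ) * A + ((Real.sin α' : ℝ) : ℂ) * B := by
    have h4 : (2 * (Real.sin α : ℂ) / A + 2 * (Real.sin β : ℂ) / B) * (A * B / 2) =
        (Real.sin β : ℂ) * A + (Real.sin α : ℂ) * B := by field_simp; ring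
    have h5 : (2 * (Real.sin α' : ℂ) / A + 2 * (Real.sin β' : ℂ) / B) * (A * B / 2) =
        (Real.sin β' : ℂ) * A + (Real.sin α' : ℂ) * B := by field_simp; ring
    rw [← h4, ← h5, h, h']
  obtain ⟨s1, s2⟩ := indep him e1
  have hpi := Real.pi_pos
  constructor
  · exact (Real.injOn_sin ⟨by linarith, by linarith⟩ ⟨by linarith, by linarith⟩ s2).symm
  · exact (Real.injOn_sin ⟨by linarith, by linarith⟩ ⟨by linarith, by linarith⟩ s1).symm

theorem vs_0 (w : List Bool) (z : ℂ) (a : ℤ) : vs w z (3 * a) =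
    cL w z + a - I * exp (thL (Lf w z) (Nf w z) (Rf w z) * I) / Lf w z := by
  unfold vs; rw [cs_0, ths_0, Xs_0]

theorem vs_1 (w : List Bool) (z : ℂ) (a : ℤ) : vs w z (3 * a + 1) =
    cN w z + a - I * exp (thL (Nf w z) (Rf w z) (Lf w z) * I) / Nf w z := by
  unfold vs; rw [cs_1, ths_1, Xs_1]

theorem vs_2 (w : List Bool) (z : ℂ) (a : ℤ) : vs w z (3 * a + 2) =
    cR w z + a - I * exp (thL (Rf w z) (Lf w z) (Nf w z) * I) / Rf w z := by
  unfold vs; rw [cs_2, ths_2, Xs_2]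

theorem nd_of {w : List Bool} {z : ℂ} (hz : NZ w z) (h : WTop (Lf w z) (Nf w z) (Rf w z)) :
    ∀ j, vs w z (j - 1) = vs w z j → vs w z j ≠ vs w z (j + 1) :=
  fun j hj => (vs_nd hz h j hj).1

theorem thL_zero {X Y Z : ℂ} (hY : Y ≠ 0) (hZ : Z ≠ 0) (hYZ : 0 ≤ (Y * conj Z).re)
    (h1 : ‖X‖ ≤ ‖Y‖ + ‖Z‖) (h2 : ‖Y‖ ≤ ‖X‖ + ‖Z‖) (h3 : ‖Z‖ ≤ ‖X‖ + ‖Y‖)
    (h : ‖X‖ = ‖Y - I * Z‖) : thL X Y Z = 0 := by
  obtain ⟨s1, s2⟩ := sgn_weak (X := X) hY hZ hYZ h1 h2 h3
  have a1 := s1.2 h.le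
  by_contra hne
  have a2 : 0 < thL X Y Z := lt_of_le_of_ne a1 (Ne.symm hne)
  exact absurd h (s2.1 a2).ne

/-- the left wall -/
theorem wall_L {w : List Bool} {z : ℂ} (h : InT w z) (hz : NZ w z) (hz' : NZ (true :: w) z)
    (hL : ‖Lf w z‖ = ‖Nf w z - I * Rf w z‖) :
    Er (Xs (true :: w) z) (cs (true :: w) z) (vs (true :: w) z) (ds (true :: w) z) =
      Er (Xs w z) (cs w z) (vs w z) (ds w z) := by
  have had := ADM w z h.1
  have hm := Mk_Tr w z
  have hR : ‖Rf w z‖ < ‖Lf w z - I * Nf w z‖ := by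
    rcases h.2.ne with h1 | h1
    · exact absurd hL h1.ne
    · exact h1
  have him : 0 < (Nf w z).im := IDL_im had hm h.2.reNR h.2.reLN hL hR
  have wp : WTop (Lf w z) (Nf w z) (Rf w z) := h.wtop
  have wc : WTop (Lf (true :: w) z) (Nf (true :: w) z) (Rf (true :: w) z) :=
    WTop_childL had hm h.2.reNR him hL
  obtain ⟨_, n1, n2, n3⟩ := hz.all
  have cn1 : Nf (true :: w) z ≠ 0 := hz'.2
  -- the degenerate angles
  have t0 : thL (Lf w z) (Nf w z) (Rf w z) = 0 := by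
    have := wp.n1; have := wp.n2; have := wp.n3
    exact thL_zero n2 n3 h.2.reNR.le (by linarith) (by linarith) (by linarith) hL
  have hK : ‖Nf (true :: w) z‖ = ‖Rf w z - I * Nf w z‖ := by
    have hprod : ‖Lf w z‖ * ‖Nf w z * Rf w z - Lf w z‖ =
        ‖Nf w z - I * Rf w z‖ * ‖Nf w z + I * Rf w z‖ := by
      rw [← norm_mul, ← norm_mul]
      congr 1
      unfold Mk at hm
      linear_combination -hm + (Rf w z) ^ 2 * I_sq
    rw [← hL] at hprod
    have h1 := mul_left_cancel₀ (norm_ne_zero_iff.2 n1) hprod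
    have e : Rf w z - I * Nf w z = -I * (Nf w z + I * Rf w z) := by
      linear_combination (Rf w z) * I_sq
    rw [e, norm_mul, norm_neg, norm_I, one_mul]
    exact h1
  have t1' : thL (Nf (true :: w) z) (Rf (true :: w) z) (Lf (true :: w) z) = 0 := by
    have q1 := wc.n1; have q2 := wc.n2; have q3 := wc.n3
    rw [Lf_true, Rf_true] at q1 q2 q3 ⊢
    have hr : 0 ≤ (Rf w z * conj (Nf w z)).re := by
      have := h.2.reNR.le
      simp only [mul_re, conj_re, conj_im] at this ⊢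
      linarith
    exact thL_zero n3 n2 hr (by linarith) (by linarith) (by linarith) hK
  -- the angles agree
  obtain ⟨a1, a2, a3, _, _, _, a7⟩ := wp.angles
  obtain ⟨b1, b2, b3, _, _, _, b7⟩ := wc.angles
  have s1 := sum_sin hz wp
  have s2 := sum_sin hz' wc
  rw [t0, Real.sin_zero, ofReal_zero, mul_zero, zero_div, zero_add] at s1
  rw [t1', Real.sin_zero, ofReal_zero, mul_zero, zero_div, add_zero] at s2
  rw [t0, zero_add] at a7
  rw [t1', add_zero] at b7
  rw [Lf_true, Rf_true] at s2 b1 b3 b7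
  have himNR : (Nf w z * conj (Rf w z)).im ≠ 0 := by
    have h1 := mul_pos him had.reR
    have h2 := mul_neg_of_pos_of_neg wp.reN had.imR
    simp only [mul_im, conj_re, conj_im]
    intro h3
    linarith
  obtain ⟨ea, eb⟩ := ths_wall n2 n3 himNR a2 a3 a7 b1 b3 b7 s1 s2
  -- direction
  have hd : ds (true :: w) z = ds w z := by
    unfold ds oms psi
    have x0 := Xs_0 (true :: w) z 0
    have x1 := Xs_1 (true :: w) z 0
    have x2 := Xs_2 (true :: w) z 0
    have y0 := Xs_0 w z 0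
    have y1 := Xs_1 w z 0
    have y2 := Xs_2 w z 0
    have u0 := ths_0 (true :: w) z 0
    have u1 := ths_1 (true :: w) z 0
    have u2 := ths_2 (true :: w) z 0
    have v0 := ths_0 w z 0
    have v1 := ths_1 w z 0
    have v2 := ths_2 w z 0
    rw [t1'] at u1
    rw [t0] at v0
    rw [Lf_true, Rf_true] at u0 u2
    rw [Lf_true] at x0
    rw [Rf_true] at x2
    rw [ea] at u0
    rw [eb] at u2
    norm_num at x0 x1 x2 y0 y1 y2 u0 u1 u2 v0 v1 v2
    rw [x0, x1, x2, y0, y1, y2, u0, u1, u2, v0, v1, v2]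
    simp
  -- corners
  have c0 : ∀ a : ℤ, vs (true :: w) z (3 * a) = vs w z (3 * a + 1) := by
    intro a
    rw [vs_0, vs_1, Lf_true, Rf_true, cL_true, ea]
  have c2 : ∀ a : ℤ, vs (true :: w) z (3 * a + 2) = vs w z (3 * a + 2) := by
    intro a
    rw [vs_2, vs_2, Lf_true, Rf_true, cR_true, eb]
  have c1 : ∀ a : ℤ, vs (true :: w) z (3 * a + 1) = vs w z (3 * a + 1) := by
    intro a
    rw [← c0]
    have := (vs_eq_iff hz' wc (3 * a + 1)).2 (by rw [ths_1]; exact t1')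
    rw [add_sub_cancel_right] at this
    exact this.symm
  have p0 : ∀ a : ℤ, vs w z (3 * a - 1) = vs w z (3 * a) := by
    intro a
    exact (vs_eq_iff hz wp (3 * a)).2 (by rw [ths_0]; exact t0)
  rw [hd]
  have hC : ChS (Xs (true :: w) z) (cs (true :: w) z) (vs (true :: w) z) (ds w z) := by
    have := CHS hz' wc
    rwa [hd] at this
  apply Set.Subset.antisymm
  · refine Er_sub hC.toChn (nd_of hz' wc) ?_
    intro j
    rcases mod3 j with ⟨a, rfl⟩ | ⟨a, rfl⟩ | ⟨a, rfl⟩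
    · right
      refine ⟨3 * a + 1, ?_, ?_, ?_, ?_⟩
      · rw [Xs_0, Xs_1, Lf_true]
      · rw [cs_0, cs_1, cL_true]
      · have e1 : 3 * a - 1 = 3 * (a - 1) + 2 := by ring
        rw [add_sub_cancel_right, ← p0, e1, c2]
      · rw [c0]
    · left
      rw [add_sub_cancel_right, c0, c1]
    · right
      refine ⟨3 * a + 2, ?_, ?_, ?_, ?_⟩
      · rw [Xs_2, Xs_2, Rf_true]
      · rw [cs_2, cs_2, cR_true]
      · have e1 : 3 * a + 2 - 1 = 3 * a + 1 := by ring
        rw [e1, c1]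
      · rw [c2]
  · refine Er_sub (CHS hz wp).toChn (nd_of hz wp) ?_
    intro j
    rcases mod3 j with ⟨a, rfl⟩ | ⟨a, rfl⟩ | ⟨a, rfl⟩
    · left
      exact p0 a
    · right
      refine ⟨3 * a, ?_, ?_, ?_, ?_⟩
      · rw [Xs_0, Xs_1, Lf_true]
      · rw [cs_0, cs_1, cL_true]
      · have e1 : 3 * a - 1 = 3 * (a - 1) + 2 := by ring
        rw [add_sub_cancel_right, ← p0, e1, c2]
      · rw [c0]
    · right
      refine ⟨3 * a + 2, ?_, ?_, ?_, ?_⟩
      · rw [Xs_2, Xs_2, Rf_true]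
      · rw [cs_2, cs_2, cR_true]
      · have e1 : 3 * a + 2 - 1 = 3 * a + 1 := by ring
        rw [e1, c1]
      · rw [c2]

/-- the right wall -/
theorem wall_R {w : List Bool} {z : ℂ} (h : InT w z) (hz : NZ w z) (hz' : NZ (false :: w) z)
    (hR : ‖Rf w z‖ = ‖Lf w z - I * Nf w z‖) :
    Er (Xs (false :: w) z) (cs (false :: w) z) (vs (false :: w) z) (ds (false :: w) z) =
      Er (Xs w z) (cs w z) (vs w z) (ds w z) := by
  have had := ADM w z h.1
  have hm := Mk_Tr w z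
  have hL : ‖Lf w z‖ < ‖Nf w z - I * Rf w z‖ := by
    rcases h.2.ne with h1 | h1
    · exact h1
    · exact absurd hR h1.ne
  have him : (Nf w z).im < 0 := IDR_im had hm h.2.reNR h.2.reLN hR hL
  have wp : WTop (Lf w z) (Nf w z) (Rf w z) := h.wtop
  have wc : WTop (Lf (false :: w) z) (Nf (false :: w) z) (Rf (false :: w) z) :=
    WTop_childR had hm h.2.reLN him hR
  obtain ⟨_, n1, n2, n3⟩ := hz.all
  have cn1 : Nf (false :: w) z ≠ 0 := hz'.2
  -- the degenerate angles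
  have t2 : thL (Rf w z) (Lf w z) (Nf w z) = 0 := by
    have := wp.n1; have := wp.n2; have := wp.n3
    exact thL_zero n1 n2 h.2.reLN.le (by linarith) (by linarith) (by linarith) hR
  have hK : ‖Nf (false :: w) z‖ = ‖Nf w z - I * Lf w z‖ := by
    have hprod : ‖Rf w z‖ * ‖Lf w z * Nf w z - Rf w z‖ =
        ‖Lf w z - I * Nf w z‖ * ‖Lf w z + I * Nf w z‖ := by
      rw [← norm_mul, ← norm_mul]
      congr 1
      unfold Mk at hm
      linear_combination -hm + (Nf w z) ^ 2 * I_sq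
    rw [← hR] at hprod
    have h1 := mul_left_cancel₀ (norm_ne_zero_iff.2 n3) hprod
    have e : Nf w z - I * Lf w z = -I * (Lf w z + I * Nf w z) := by
      linear_combination (Nf w z) * I_sq
    rw [e, norm_mul, norm_neg, norm_I, one_mul]
    exact h1
  have t1' : thL (Nf (false :: w) z) (Rf (false :: w) z) (Lf (false :: w) z) = 0 := by
    have q1 := wc.n1; have q2 := wc.n2; have q3 := wc.n3
    rw [Lf_false, Rf_false] at q1 q2 q3 ⊢
    have hr : 0 ≤ (Nf w z * conj (Lf w z)).re := by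
      have := h.2.reLN.le
      simp only [mul_re, conj_re, conj_im] at this ⊢
      linarith
    exact thL_zero n2 n1 hr (by linarith) (by linarith) (by linarith) hK
  -- the angles agree
  obtain ⟨a1, a2, a3, _, _, _, a7⟩ := wp.angles
  obtain ⟨b1, b2, b3, _, _, _, b7⟩ := wc.angles
  have s1 := sum_sin hz wp
  have s2 := sum_sin hz' wc
  rw [t2, Real.sin_zero, ofReal_zero, mul_zero, zero_div, add_zero] at s1
  rw [t1', Real.sin_zero, ofReal_zero, mul_zero, zero_div, add_zero] at s2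
  rw [t2, add_zero] at a7
  rw [t1', add_zero] at b7
  rw [Lf_false, Rf_false] at s2 b1 b3 b7
  have himLN : (Lf w z * conj (Nf w z)).im ≠ 0 := by
    have h1 := mul_pos had.imL wp.reN
    have h2 := mul_neg_of_pos_of_neg had.reL him
    simp only [mul_im, conj_re, conj_im]
    intro h3
    linarith
  obtain ⟨ea, eb⟩ := ths_wall n1 n2 himLN a1 a2 a7 b1 b3 b7 s1 s2
  -- direction
  have hd : ds (false :: w) z = ds w z := by
    unfold ds oms psi
    have x0 := Xs_0 (false :: w) z 0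
    have x1 := Xs_1 (false :: w) z 0
    have x2 := Xs_2 (false :: w) z 0
    have y0 := Xs_0 w z 0
    have y1 := Xs_1 w z 0
    have y2 := Xs_2 w z 0
    have u0 := ths_0 (false :: w) z 0
    have u1 := ths_1 (false :: w) z 0
    have u2 := ths_2 (false :: w) z 0
    have v0 := ths_0 w z 0
    have v1 := ths_1 w z 0
    have v2 := ths_2 w z 0
    rw [t1'] at u1
    rw [t2] at v2
    rw [Lf_false, Rf_false] at u0 u2
    rw [Lf_false] at x0
    rw [Rf_false] at x2
    rw [ea] at u0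
    rw [eb] at u2
    norm_num at x0 x1 x2 y0 y1 y2 u0 u1 u2 v0 v1 v2
    rw [x0, x1, x2, y0, y1, y2, u0, u1, u2, v0, v1, v2]
    simp
  -- corners
  have c0 : ∀ a : ℤ, vs (false :: w) z (3 * a) = vs w z (3 * a) := by
    intro a
    rw [vs_0, vs_0, Lf_false, Rf_false, cL_false, ea]
  have c2 : ∀ a : ℤ, vs (false :: w) z (3 * a + 2) = vs w z (3 * a + 1) := by
    intro a
    rw [vs_2, vs_1, Lf_false, Rf_false, cR_false, eb]
  have c1 : ∀ a : ℤ, vs (false :: w) z (3 * a + 1) = vs w z (3 * a) := by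
    intro a
    rw [← c0]
    have := (vs_eq_iff hz' wc (3 * a + 1)).2 (by rw [ths_1]; exact t1')
    rw [add_sub_cancel_right] at this
    exact this.symm
  have p2 : ∀ a : ℤ, vs w z (3 * a + 1) = vs w z (3 * a + 2) := by
    intro a
    have := (vs_eq_iff hz wp (3 * a + 2)).2 (by rw [ths_2]; exact t2)
    rwa [show 3 * a + 2 - 1 = 3 * a + 1 by ring] at this
  rw [hd]
  have hC : ChS (Xs (false :: w) z) (cs (false :: w) z) (vs (false :: w) z) (ds w z) := by
    have := CHS hz' wc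
    rwa [hd] at this
  apply Set.Subset.antisymm
  · refine Er_sub hC.toChn (nd_of hz' wc) ?_
    intro j
    rcases mod3 j with ⟨a, rfl⟩ | ⟨a, rfl⟩ | ⟨a, rfl⟩
    · right
      refine ⟨3 * a, ?_, ?_, ?_, ?_⟩
      · rw [Xs_0, Xs_0, Lf_false]
      · rw [cs_0, cs_0, cL_false]
      · have e1 : 3 * a - 1 = 3 * (a - 1) + 2 := by ring
        rw [e1, c2, p2]
      · rw [c0]
    · left
      rw [add_sub_cancel_right, c0, c1]
    · right
      refine ⟨3 * a + 1, ?_, ?_, ?_, ?_⟩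
      · rw [Xs_1, Xs_2, Rf_false]
      · rw [cs_1, cs_2, cR_false]
      · have e1 : 3 * a + 2 - 1 = 3 * a + 1 := by ring
        rw [e1, add_sub_cancel_right, c1]
      · rw [c2]
  · refine Er_sub (CHS hz wp).toChn (nd_of hz wp) ?_
    intro j
    rcases mod3 j with ⟨a, rfl⟩ | ⟨a, rfl⟩ | ⟨a, rfl⟩
    · right
      refine ⟨3 * a, ?_, ?_, ?_, ?_⟩
      · rw [Xs_0, Xs_0, Lf_false]
      · rw [cs_0, cs_0, cL_false]
      · have e1 : 3 * a - 1 = 3 * (a - 1) + 2 := by ring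
        rw [e1, c2, p2]
      · rw [c0]
    · right
      refine ⟨3 * a + 2, ?_, ?_, ?_, ?_⟩
      · rw [Xs_1, Xs_2, Rf_false]
      · rw [cs_1, cs_2, cR_false]
      · have e1 : 3 * a + 2 - 1 = 3 * a + 1 := by ring
        rw [e1, add_sub_cancel_right, c1]
      · rw [c2]
    · left
      rw [show 3 * a + 2 - 1 = 3 * a + 1 by ring]
      exact p2 a

/-- **WALL** (`VHyp.er`). -/
theorem WALL (w0 : List Bool) (z0 : ℂ) (h0 : InT w0 z0) (w : List Bool)
    (hfr : ∃ᶠ z in 𝓝 z0, InT w z) :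
    Er (Xs w z0) (cs w z0) (vs w z0) (ds w z0) = Er (Xs w0 z0) (cs w0 z0) (vs w0 z0) (ds w0 z0) := by
  obtain ⟨z, hz, hn⟩ := (hfr.and_eventually (InT_near h0)).exists
  rcases hn w hz with rfl | ⟨rfl, h1, h2⟩ | ⟨rfl, h1, h2⟩
  · rfl
  · exact wall_L h0 (NZ_of_Ch h0.1) h2 h1
  · exact wall_R h0 (NZ_of_Ch h0.1) h2 h1

end Pool.Agent.M4
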