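import Pool.Agent.helper95.M4.Chk
import Pool.Agent.helper81.FZ.Cont

/-! # M4 (MP_1b8d20_an): Farey polynomials are continuants of sign words

`Pm ℓ` is the product `X_1 T X_2 T ⋯ T X_n` with `X_i = S` or `X_i = D S`.  Its lower left entry
is, up to a power of `i`, `z * K z k (n - 1)` with `k i = ± 1`, and the Farey polynomials are the
lower left entries of such products (concatenation = mediant).
-/

set_option autoImplicit false

namespace Pool.Agent.M4.W66

open Complex Matrix Pool.Agent.FZR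

/-- the letters -/
noncomputable def Xm (z : ℂ) : Bool → Matrix (Fin 2) (Fin 2) ℂ
  | false => !![0, -z⁻¹; z, 0]
  | true => !![0, -I * z⁻¹; -I * z, 0]

/-- the translation -/
def Tm : Matrix (Fin 2) (Fin 2) ℂ := !![1, 1; 0, 1]

/-- the product `X_1 T X_2 T ⋯ T X_n` for the word `b :: ℓ` -/
noncomputable def Pm (z : ℂ) : Bool → List Bool → Matrix (Fin 2) (Fin 2) ℂ
  | b, [] => Xm z b
  | b, b' :: ℓ => Xm z b * Tm * Pm z b' ℓ

theorem Pm_append (z : ℂ) (b b' : Bool) (ℓ ℓ' : List Bool) :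
    Pm z b (ℓ ++ b' :: ℓ') = Pm z b ℓ * Tm * Pm z b' ℓ' := by
  induction ℓ generalizing b with
  | nil => rfl
  | cons c ℓ ih =>
    show Xm z b * Tm * Pm z c (ℓ ++ b' :: ℓ') = Xm z b * Tm * Pm z c ℓ * Tm * Pm z b' ℓ'
    rw [ih]
    simp only [Matrix.mul_assoc]

theorem Xm_sq {z : ℂ} (hz : z ≠ 0) (b : Bool) : Xm z b * Xm z b = -1 := by
  cases b
  · simp only [Xm]
    ext i j
    fin_cases i <;> fin_cases j <;> simp [Matrix.mul_apply, Fin.sum_univ_two, hz]
  · simp only [Xm]
    have h1 : I * z⁻¹ * (I * z) = -1 := by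
      field_simp
      exact I_sq
    have h2 : I * z * (I * z⁻¹) = -1 := by
      field_simp
      exact I_sq
    ext i j
    fin_cases i <;> fin_cases j <;> simp [Matrix.mul_apply, Fin.sum_univ_two, h1, h2]

/-- a product with a translation in the middle -/
theorem mul_T_mul (A B : Matrix (Fin 2) (Fin 2) ℂ) :
    (A * Tm * B) 1 0 = A 1 0 * B 1 0 + (A * B) 1 0 := by
  simp [Tm, Matrix.mul_apply, Fin.sum_univ_two]
  ring

theorem mul_T (A : Matrix (Fin 2) (Fin 2) ℂ) : (A * Tm) 1 0 = A 1 0 := by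
  simp [Tm, Matrix.mul_apply, Fin.sum_univ_two]

theorem T_mul (A : Matrix (Fin 2) (Fin 2) ℂ) : (Tm * A) 1 0 = A 1 0 := by
  simp [Tm, Matrix.mul_apply, Fin.sum_univ_two]

/-! ## the lower left entry -/

/-- the unit of a letter -/
noncomputable def eu : Bool → ℂ
  | false => 1
  | true => -I

/-- the sign of a letter -/
def sg : Bool → ℂ
  | false => 1
  | true => -1

/-- the unit of a word -/
noncomputable def uw : Bool → List Bool → ℂ
  | b, [] => eu b
  | b, b' :: ℓ => eu b * uw b' ℓ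

/-- the signs of a word -/
def kk : List Bool → ℕ → ℂ
  | [], _ => 1
  | b :: _, 0 => sg b
  | _ :: ℓ, n + 1 => kk ℓ n

theorem kk_sgn (ℓ : List Bool) (n : ℕ) : kk ℓ n = 1 ∨ kk ℓ n = -1 := by
  induction ℓ generalizing n with
  | nil => exact Or.inl rfl
  | cons b ℓ ih =>
    cases n with
    | zero => cases b <;> simp [kk, sg]
    | succ n => exact ih n

theorem uw_pow (b : Bool) (ℓ : List Bool) : uw b ℓ ^ 4 = 1 := by
  have hI : (-I) ^ 4 = (1 : ℂ) := by
    rw [Even.neg_pow (by decide)]; exact I_pow_four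
  have he : ∀ b, eu b ^ 4 = 1 := by
    intro b
    cases b
    · exact one_pow 4
    · exact hI
  induction ℓ generalizing b with
  | nil => exact he b
  | cons c ℓ ih =>
    show (eu b * uw c ℓ) ^ 4 = 1
    rw [mul_pow, ih, he, one_mul]

theorem Pm_entry {z : ℂ} (hz : z ≠ 0) (b : Bool) (ℓ : List Bool) :
    Pm z b ℓ 1 0 = uw b ℓ * (z * K z (kk ℓ) ℓ.length) ∧
      (ℓ = [] → Pm z b ℓ 0 0 = 0) ∧
      ∀ b' ℓ', ℓ = b' :: ℓ' → Pm z b ℓ 0 0 = -(sg b * eu b) * uw b' ℓ' * K z (kk ℓ') ℓ'.length := by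
  induction ℓ generalizing b with
  | nil =>
    refine ⟨?_, fun _ => ?_, fun b' ℓ' h => by simp at h⟩
    · cases b <;> simp [Pm, Xm, uw, eu, K_zero]
    · cases b <;> simp [Pm, Xm]
  | cons c ℓ ih =>
    obtain ⟨h1, h2, h3⟩ := ih c
    have hq : Pm z b (c :: ℓ) 1 0 = eu b * (z * (Pm z c ℓ 0 0 + Pm z c ℓ 1 0)) := by
      show (Xm z b * Tm * Pm z c ℓ) 1 0 = _
      cases b <;> simp [Xm, Tm, eu, Matrix.mul_apply, Fin.sum_univ_two] <;> ring
    have hp : Pm z b (c :: ℓ) 0 0 = -(sg b * eu b) * (z⁻¹ * Pm z c ℓ 1 0) := by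
      show (Xm z b * Tm * Pm z c ℓ) 0 0 = _
      cases b <;> simp [Xm, Tm, eu, sg, Matrix.mul_apply, Fin.sum_univ_two] <;> ring
    refine ⟨?_, fun h => by simp at h, ?_⟩
    · rw [hq, h1]
      cases ℓ with
      | nil =>
        rw [h2 rfl]
        simp [uw, K_zero, K_one]
        ring
      | cons d ℓ =>
        rw [h3 d ℓ rfl]
        have e : K z (kk (c :: d :: ℓ)) (c :: d :: ℓ).length =
            z * K z (kk (d :: ℓ)) (d :: ℓ).length - sg c * K z (kk ℓ) ℓ.length := by
          exact K_front z (kk (c :: d :: ℓ)) ℓ.length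
        have e2 : uw b (c :: d :: ℓ) = eu b * (eu c * uw d ℓ) := rfl
        have e3 : uw c (d :: ℓ) = eu c * uw d ℓ := rfl
        rw [e, e2, e3]
        ring
    · intro b' ℓ' h
      obtain ⟨rfl, rfl⟩ := List.cons.inj h
      rw [hp, h1]
      field_simp

/-! ## the words of the Farey tree -/

/-- concatenation of nonempty words -/
def cat (u v : Bool × List Bool) : Bool × List Bool := (u.1, u.2 ++ v.1 :: v.2)

/-- the words of a triple: left and right -/
def FW : List Bool → (Bool × List Bool) × (Bool × List Bool)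
  | [] => ((false, []), (true, []))
  | true :: w => (cat (FW w).1 (FW w).2, (FW w).2)
  | false :: w => ((FW w).1, cat (FW w).1 (FW w).2)

/-- the matrix of a nonempty word -/
noncomputable def Mw (z : ℂ) (u : Bool × List Bool) : Matrix (Fin 2) (Fin 2) ℂ := Pm z u.1 u.2

theorem Mw_cat (z : ℂ) (u v : Bool × List Bool) : Mw z (cat u v) = Mw z u * Tm * Mw z v :=
  Pm_append z _ _ _ _

theorem FW_spec {z : ℂ} (hz : z ≠ 0) (w : List Bool) :
    Mw z (FW w).1 * Mw z (FW w).1 = -1 ∧ Mw z (FW w).2 * Mw z (FW w).2 = -1 ∧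
      (Mw z (FW w).1 * Tm * Mw z (FW w).2) * (Mw z (FW w).1 * Tm * Mw z (FW w).2) = -1 ∧
      Mw z (FW w).1 1 0 = Lf w z ∧ Mw z (FW w).2 1 0 = Rf w z ∧
      (Mw z (FW w).1 * Tm * Mw z (FW w).2) 1 0 = Nf w z := by
  induction w with
  | nil =>
    refine ⟨Xm_sq hz false, Xm_sq hz true, ?_, ?_, ?_, ?_⟩
    · show (Xm z false * Tm * Xm z true) * (Xm z false * Tm * Xm z true) = -1
      have : Xm z false * Tm * Xm z true = !![I, 0; -I * z ^ 2, -I] := by
        simp only [Xm, Tm]
        ext i j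
        fin_cases i <;> fin_cases j <;> simp [Matrix.mul_apply, Fin.sum_univ_two] <;> field_simp
      rw [this]
      ext i j
      fin_cases i <;> fin_cases j <;> simp [Matrix.mul_apply, Fin.sum_univ_two] <;> ring
    · show Xm z false 1 0 = z
      simp [Xm]
    · show Xm z true 1 0 = -I * z
      simp [Xm]
    · show (Xm z false * Tm * Xm z true) 1 0 = -I * z ^ 2
      simp [Xm, Tm, Matrix.mul_apply, Fin.sum_univ_two]
      ring
  | cons b w ih =>
    obtain ⟨hA, hB, hN, hL, hR, hNf⟩ := ih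
    set A := Mw z (FW w).1 with hAd
    set B := Mw z (FW w).2 with hBd
    set N := A * Tm * B with hNd
    have hAN : A * N = -(Tm * B) := by
      rw [hNd, ← Matrix.mul_assoc, ← Matrix.mul_assoc, hA]
      simp
    have hNB : N * B = -(A * Tm) := by
      rw [hNd, Matrix.mul_assoc, hB]
      simp
    cases b with
    | true =>
      have e1 : Mw z (FW (true :: w)).1 = N := Mw_cat z _ _
      have e2 : Mw z (FW (true :: w)).2 = B := rfl
      rw [e1, e2]
      refine ⟨hN, hB, ?_, hNf, hR, ?_⟩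
      · have h1 : N * Tm * B = -(N * (A * N)) := by
          rw [hAN, Matrix.mul_neg, neg_neg, Matrix.mul_assoc]
        rw [h1, neg_mul_neg]
        calc N * (A * N) * (N * (A * N)) = N * A * (N * N) * (A * N) := by
              simp only [Matrix.mul_assoc]
          _ = -(N * (A * A) * N) := by
              rw [hN]; simp only [Matrix.mul_assoc, Matrix.mul_neg, Matrix.neg_mul,
                Matrix.mul_one]
          _ = -1 := by
              rw [hA]; simp only [Matrix.mul_neg, Matrix.neg_mul, Matrix.mul_one, neg_neg, hN]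
      · rw [mul_T_mul, hNB, Matrix.neg_apply, mul_T, hNf, hL, hR]
        show _ = Nf w z * Rf w z - Lf w z
        ring
    | false =>
      have e1 : Mw z (FW (false :: w)).1 = A := rfl
      have e2 : Mw z (FW (false :: w)).2 = N := Mw_cat z _ _
      rw [e1, e2]
      refine ⟨hA, hN, ?_, hL, hNf, ?_⟩
      · have h1 : A * Tm * N = -(N * B * N) := by
          rw [hNB, Matrix.neg_mul, neg_neg]
        rw [h1, neg_mul_neg]
        calc N * B * N * (N * B * N) = N * B * (N * N) * (B * N) := by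
              simp only [Matrix.mul_assoc]
          _ = -(N * (B * B) * N) := by
              rw [hN]; simp only [Matrix.mul_assoc, Matrix.mul_neg, Matrix.neg_mul,
                Matrix.mul_one]
          _ = -1 := by
              rw [hB]; simp only [Matrix.mul_neg, Matrix.neg_mul, Matrix.mul_one, neg_neg, hN]
      · rw [mul_T_mul, hAN, Matrix.neg_apply, T_mul, hNf, hL, hR]
        show _ = Lf w z * Nf w z - Rf w z
        ring

/-- **WORD.** Farey polynomials are, up to a power of `i`, continuants of sign words times `z`. -/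
theorem word (w : List Bool) : ∃ (n : ℕ) (k : ℕ → ℂ) (u : ℂ), (∀ i, k i = 1 ∨ k i = -1) ∧
    u ^ 4 = 1 ∧ ∀ z : ℂ, z ≠ 0 → Nf w z = u * (z * K z k n) := by
  obtain ⟨v, hv⟩ : ∃ v, v = cat (FW w).1 (FW w).2 := ⟨_, rfl⟩
  refine ⟨v.2.length, kk v.2, uw v.1 v.2, kk_sgn _, uw_pow _ _, fun z hz => ?_⟩
  obtain ⟨_, _, _, _, _, h⟩ := FW_spec hz w
  rw [← h, ← Mw_cat, ← hv]
  exact (Pm_entry hz v.1 v.2).1

end Pool.Agent.M4.W66
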