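import Pool.Agent.helper95.M4.Defs

/-! # M4 (MP_1b8d20_an): the zone lemma

A *fan* about the pivot `P` is a bi-infinite sequence `x` with `x (k+1) = P x k - x (k-1)` and the
Markoff relation.  If `P ∉ [-2,2]` then `x k = P / sinh τ * cosh (w + k τ)` with `P = 2 cosh τ`,
`Re τ > 0`, and a weighted mean of three consecutive `‖x k‖²` at the waist of the fan bounds
`‖P‖²` from below.
-/

set_option autoImplicit false

namespace Pool.Agent.M4

open Complex

theorem cosh_surj (c : ℂ) : ∃ u : ℂ, Complex.cosh u = c := by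
  obtain ⟨v, hv⟩ := Complex.cos_surjective c
  refine ⟨v * I, ?_⟩
  rw [Complex.cosh_mul_I]
  exact hv

theorem norm_sq_eq (u : ℂ) : ‖u‖ ^ 2 = u.re ^ 2 + u.im ^ 2 := by
  rw [← Complex.normSq_eq_norm_sq, Complex.normSq_apply]; ring

theorem nsq_cosh (u : ℂ) : ‖Complex.cosh u‖ ^ 2 = Real.sinh u.re ^ 2 + Real.cos u.im ^ 2 := by
  have h : Complex.cosh u = ((Real.cosh u.re * Real.cos u.im : ℝ) : ℂ) +
      ((Real.sinh u.re * Real.sin u.im : ℝ) : ℂ) * I := by
    conv_lhs => rw [← Complex.re_add_im u]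
    rw [Complex.cosh_add, Complex.cosh_mul_I, Complex.sinh_mul_I]
    push_cast
    ring
  rw [norm_sq_eq, h]
  simp only [Complex.add_re, Complex.ofReal_re, Complex.mul_re, Complex.I_re, mul_zero,
    Complex.ofReal_im, Complex.I_im, mul_one, sub_self, add_zero, Complex.add_im,
    Complex.mul_im, zero_add]
  have h1 := Real.cosh_sq u.re
  have h2 := Real.sin_sq_add_cos_sq u.im
  have h3 : Real.sin u.im ^ 2 = 1 - Real.cos u.im ^ 2 := by linarith
  rw [mul_pow, mul_pow, h1, h3]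
  ring

theorem nsq_sinh (u : ℂ) : ‖Complex.sinh u‖ ^ 2 = Real.sinh u.re ^ 2 + Real.sin u.im ^ 2 := by
  have h : Complex.sinh u = ((Real.sinh u.re * Real.cos u.im : ℝ) : ℂ) +
      ((Real.cosh u.re * Real.sin u.im : ℝ) : ℂ) * I := by
    conv_lhs => rw [← Complex.re_add_im u]
    rw [Complex.sinh_add, Complex.cosh_mul_I, Complex.sinh_mul_I]
    push_cast
    ring
  rw [norm_sq_eq, h]
  simp only [Complex.add_re, Complex.ofReal_re, Complex.mul_re, Complex.I_re, mul_zero,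
    Complex.ofReal_im, Complex.I_im, mul_one, sub_self, add_zero, Complex.add_im,
    Complex.mul_im, zero_add]
  have h1 := Real.cosh_sq u.re
  have h2 := Real.sin_sq_add_cos_sq u.im
  have h3 : Real.sin u.im ^ 2 = 1 - Real.cos u.im ^ 2 := by linarith
  rw [mul_pow, mul_pow, h1, h3]
  ring

/-- the parameter of the pivot -/
theorem exists_tau {P : ℂ} (hP : ¬ (P.im = 0 ∧ |P.re| ≤ 2)) :
    ∃ τ : ℂ, 0 < τ.re ∧ P = 2 * Complex.cosh τ := by
  obtain ⟨u, hu⟩ := cosh_surj (P / 2)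
  have hP2 : P = 2 * Complex.cosh u := by rw [hu]; ring
  rcases lt_trichotomy u.re 0 with h | h | h
  · exact ⟨-u, by simpa using h, by rw [Complex.cosh_neg]; exact hP2⟩
  · exfalso
    apply hP
    have hu' : u = (u.im : ℂ) * I := by
      apply Complex.ext <;> simp [h]
    rw [hP2, hu', Complex.cosh_mul_I, ← Complex.ofReal_cos]
    constructor
    · simp
    · have h1 := Real.abs_cos_le_one u.im
      have : ((2 : ℂ) * ((Real.cos u.im : ℝ) : ℂ)).re = 2 * Real.cos u.im := by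
        rw [Complex.mul_re]; simp only [Complex.ofReal_re, Complex.ofReal_im]; simp
      rw [this, abs_mul, abs_two]
      linarith
  · exact ⟨u, h, hP2⟩

theorem sinh_ne_zero_of_re {τ : ℂ} (h : 0 < τ.re) : Complex.sinh τ ≠ 0 := by
  intro h0
  have h1 := nsq_sinh τ
  rw [h0] at h1
  have h2 : 0 < Real.sinh τ.re := Real.sinh_pos_iff.2 h
  have h3 := sq_nonneg (Real.sin τ.im)
  have h4 : 0 < Real.sinh τ.re ^ 2 := by positivity
  simp at h1
  linarith

theorem fan_param {P : ℂ} {x : ℤ → ℂ} (hx : Fan P x) (hP : ¬ (P.im = 0 ∧ |P.re| ≤ 2)) :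
    ∃ τ w : ℂ, 0 < τ.re ∧ P = 2 * Complex.cosh τ ∧
      ∀ k : ℤ, x k = P / Complex.sinh τ * Complex.cosh (w + k * τ) := by
  obtain ⟨τ, hτ, hPτ⟩ := exists_tau hP
  have hs : Complex.sinh τ ≠ 0 := sinh_ne_zero_of_re hτ
  have hP0 : P ≠ 0 := by
    rintro rfl
    exact hP (by simp)
  obtain ⟨w0, hw0⟩ := cosh_surj (x 0 * Complex.sinh τ / P)
  have hx0 : x 0 = P / Complex.sinh τ * Complex.cosh w0 := by
    rw [hw0]; field_simp
  -- choose the sign of `w0` such that `x 1` fits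
  have hpm : ∃ w : ℂ, x 0 = P / Complex.sinh τ * Complex.cosh w ∧
      x 1 = P / Complex.sinh τ * Complex.cosh (w + τ) := by
    have hm := hx.mar 0
    rw [zero_add] at hm
    have hfac : (x 1 - P / Complex.sinh τ * Complex.cosh (w0 + τ)) *
        (x 1 - P / Complex.sinh τ * Complex.cosh (-w0 + τ)) = 0 := by
      have e1 : Complex.cosh (w0 + τ) =
        Complex.cosh w0 * Complex.cosh τ + Complex.sinh w0 * Complex.sinh τ := Complex.cosh_add _ _
      have e2 : Complex.cosh (-w0 + τ) =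
        Complex.cosh w0 * Complex.cosh τ - Complex.sinh w0 * Complex.sinh τ := by
        rw [Complex.cosh_add, Complex.cosh_neg, Complex.sinh_neg]; ring
      have e3 : Complex.sinh w0 ^ 2 = Complex.cosh w0 ^ 2 - 1 := Complex.sinh_sq w0
      have e4 : Complex.sinh τ ^ 2 = Complex.cosh τ ^ 2 - 1 := Complex.sinh_sq τ
      have e5 : (x 1 - P / Complex.sinh τ * Complex.cosh (w0 + τ)) *
        (x 1 - P / Complex.sinh τ * Complex.cosh (-w0 + τ)) =
          x 1 ^ 2 - 2 * Complex.cosh τ * x 0 * x 1 +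
            P ^ 2 * (Complex.cosh w0 ^ 2 * Complex.cosh τ ^ 2 -
              (Complex.cosh w0 ^ 2 - 1) * Complex.sinh τ ^ 2) / Complex.sinh τ ^ 2 := by
        rw [e1, e2, hx0, ← e3]
        field_simp
        ring
      rw [e5, ← hPτ]
      have e6 : P ^ 2 * (Complex.cosh w0 ^ 2 * Complex.cosh τ ^ 2 -
              (Complex.cosh w0 ^ 2 - 1) * Complex.sinh τ ^ 2) / Complex.sinh τ ^ 2 =
          x 0 ^ 2 + P ^ 2 := by
        have e7 : Complex.cosh τ ^ 2 = Complex.sinh τ ^ 2 + 1 := by rw [e4]; ring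
        rw [hx0, e7]
        field_simp
        ring
      rw [e6]
      linear_combination hm
    rcases mul_eq_zero.1 hfac with h | h
    · exact ⟨w0, hx0, sub_eq_zero.1 h⟩
    · exact ⟨-w0, by rw [Complex.cosh_neg]; exact hx0, sub_eq_zero.1 h⟩
  obtain ⟨w, h0, h1⟩ := hpm
  refine ⟨τ, w, hτ, hPτ, ?_⟩
  -- the two recursions agree
  have hrec : ∀ u : ℂ, P / Complex.sinh τ * Complex.cosh (u + τ) =
      P * (P / Complex.sinh τ * Complex.cosh u) - P / Complex.sinh τ * Complex.cosh (u - τ) := by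
    intro u
    have e1 : Complex.cosh (u + τ) + Complex.cosh (u - τ) = P * Complex.cosh u := by
      rw [Complex.cosh_add, Complex.cosh_sub, hPτ]; ring
    linear_combination (P / Complex.sinh τ) * e1
  have key : ∀ n : ℕ, (x n = P / Complex.sinh τ * Complex.cosh (w + (n : ℂ) * τ) ∧
      x ((n : ℤ) + 1) = P / Complex.sinh τ * Complex.cosh (w + ((n : ℂ) + 1) * τ)) ∧
      (x (-(n : ℤ)) = P / Complex.sinh τ * Complex.cosh (w - (n : ℂ) * τ) ∧
      x (-(n : ℤ) + 1) = P / Complex.sinh τ * Complex.cosh (w + (1 - (n : ℂ)) * τ)) := by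
    intro n
    induction n with
    | zero =>
      exact ⟨⟨by simpa using h0, by simpa using h1⟩, by simpa using h0, by simpa using h1⟩
    | succ n ih =>
      obtain ⟨⟨a1, a2⟩, b1, b2⟩ := ih
      refine ⟨⟨?_, ?_⟩, ?_, ?_⟩
      · push_cast; exact a2
      · have hs1 := hx.step ((n : ℤ) + 1)
        push_cast
        rw [hs1]
        have e : (n : ℤ) + 1 - 1 = n := by ring
        rw [e, a1, a2]
        have hr := hrec (w + ((n : ℂ) + 1) * τ)
        have g1 : w + ((n : ℂ) + 1) * τ + τ = w + ((n : ℂ) + 1 + 1) * τ := by ring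
        have g2 : w + ((n : ℂ) + 1) * τ - τ = w + (n : ℂ) * τ := by ring
        rw [g1, g2] at hr
        exact hr.symm
      · have hs1 := hx.step (-(n : ℤ))
        have e : -(n : ℤ) - 1 = -((n + 1 : ℕ) : ℤ) := by push_cast; ring
        rw [e] at hs1
        have hs2 : x (-((n + 1 : ℕ) : ℤ)) = P * x (-(n : ℤ)) - x (-(n : ℤ) + 1) := by
          rw [hs1]; ring
        rw [hs2, b1, b2]
        have hr := hrec (w - (n : ℂ) * τ)
        have g1 : w - (n : ℂ) * τ + τ = w + (1 - (n : ℂ)) * τ := by ring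
        have g2 : w - (n : ℂ) * τ - τ = w - (((n + 1 : ℕ) : ℂ)) * τ := by push_cast; ring
        rw [g1, g2] at hr
        linear_combination -hr
      · have e : -((n + 1 : ℕ) : ℤ) + 1 = -(n : ℤ) := by push_cast; ring
        rw [e, b1]
        have g1 : w + (1 - (((n + 1 : ℕ) : ℂ))) * τ = w - (n : ℂ) * τ := by push_cast; ring
        rw [g1]
  intro k
  obtain ⟨n, hn⟩ := Int.eq_nat_or_neg k
  rcases hn with hn | hn
  · have := (key n).1.1
    rw [hn]
    simpa using this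
  · have := (key n).2.1
    rw [hn, this]
    congr 2
    push_cast
    ring

/-- the waist of a fan -/
theorem exists_waist (τ w : ℂ) (hτ : 0 < τ.re) :
    ∃ k : ℤ, |(w + k * τ).re| ≤ τ.re / 2 := by
  refine ⟨-round (w.re / τ.re), ?_⟩
  have h := abs_sub_round (w.re / τ.re)
  have h1 : (w + ((-round (w.re / τ.re) : ℤ) : ℂ) * τ).re =
      (w.re / τ.re - round (w.re / τ.re)) * τ.re := by
    have : (((-round (w.re / τ.re) : ℤ) : ℂ)) = (((-round (w.re / τ.re) : ℤ) : ℝ) : ℂ) := by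
      push_cast; ring
    rw [Complex.add_re, this, Complex.re_ofReal_mul]
    push_cast
    field_simp
    ring
  rw [h1, abs_mul, abs_of_pos hτ]
  calc |w.re / τ.re - round (w.re / τ.re)| * τ.re ≤ 1 / 2 * τ.re :=
        mul_le_mul_of_nonneg_right h hτ.le
    _ = τ.re / 2 := by ring

/-- exact value of the weighted mean at three consecutive places -/
theorem mean_eq (τ w : ℂ) (hs : Real.sin τ.im ≠ 0) (hτ : 0 < τ.re) :
    (1 / (4 * Real.sin τ.im ^ 2)) * ‖2 * Complex.cosh τ / Complex.sinh τ * Complex.cosh (w - τ)‖ ^ 2 +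
      (1 - 2 * (1 / (4 * Real.sin τ.im ^ 2))) *
        ‖2 * Complex.cosh τ / Complex.sinh τ * Complex.cosh w‖ ^ 2 +
      (1 / (4 * Real.sin τ.im ^ 2)) *
        ‖2 * Complex.cosh τ / Complex.sinh τ * Complex.cosh (w + τ)‖ ^ 2 =
    2 * ‖Complex.cosh τ‖ ^ 2 * Real.cosh (2 * w.re) / Real.sin τ.im ^ 2 := by
  have hsh : Complex.sinh τ ≠ 0 := sinh_ne_zero_of_re hτ
  have hn : ‖Complex.sinh τ‖ ≠ 0 := by simpa using hsh
  have hn2 : ‖Complex.sinh τ‖ ^ 2 = Real.sinh τ.re ^ 2 + Real.sin τ.im ^ 2 := nsq_sinh τ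
  have hpos : Real.sinh τ.re ^ 2 + Real.sin τ.im ^ 2 ≠ 0 := by
    rw [← hn2]; exact pow_ne_zero 2 hn
  have c2 : ∀ r : ℝ, Real.sinh r ^ 2 = (Real.cosh (2 * r) - 1) / 2 := by
    intro r
    rw [Real.cosh_two_mul, Real.cosh_sq]; ring
  have d2 : ∀ r : ℝ, Real.cos r ^ 2 = (1 + Real.cos (2 * r)) / 2 := by
    intro r
    rw [Real.cos_two_mul]; ring
  have hc : ∀ u : ℂ, ‖2 * Complex.cosh τ / Complex.sinh τ * Complex.cosh u‖ ^ 2 =
      4 * ‖Complex.cosh τ‖ ^ 2 / (Real.sinh τ.re ^ 2 + Real.sin τ.im ^ 2) *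
        ((Real.cosh (2 * u.re) + Real.cos (2 * u.im)) / 2) := by
    intro u
    rw [norm_mul, norm_div, norm_mul, mul_pow, div_pow, mul_pow, hn2, nsq_cosh u, c2 u.re, d2 u.im]
    rw [Complex.norm_two]
    ring
  rw [hc, hc, hc]
  simp only [Complex.add_re, Complex.add_im, Complex.sub_re, Complex.sub_im]
  have e1 : Real.cosh (2 * (w.re - τ.re)) + Real.cosh (2 * (w.re + τ.re)) =
      2 * Real.cosh (2 * w.re) * (1 + 2 * Real.sinh τ.re ^ 2) := by
    rw [mul_sub, mul_add, Real.cosh_sub, Real.cosh_add, Real.cosh_two_mul τ.re, Real.cosh_sq τ.re]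
    ring
  have e2 : Real.cos (2 * (w.im - τ.im)) + Real.cos (2 * (w.im + τ.im)) =
      2 * Real.cos (2 * w.im) * (1 - 2 * Real.sin τ.im ^ 2) := by
    have : Real.cos (2 * τ.im) = 1 - 2 * Real.sin τ.im ^ 2 := by
      rw [Real.cos_two_mul, Real.cos_sq']; ring
    rw [mul_sub, mul_add, Real.cos_sub, Real.cos_add, this]
    ring
  have e3 : ∀ K q A B C a b c : ℝ, q * (K * ((A + a) / 2)) + (1 - 2 * q) * (K * ((B + b) / 2)) +
      q * (K * ((C + c) / 2)) = K / 2 * (q * (A + C) + (1 - 2 * q) * B + (q * (a + c) +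
        (1 - 2 * q) * b)) := by intros; ring
  rw [e3, e1, e2]
  field_simp
  ring

/-- **Zone lemma** (helper95).  If a weighted mean with weights `q, 1 - 2q, q`, `1/4 ≤ q ≤ 1/2`, of
three consecutive `‖x k‖²` of a fan is always `≥ M` (`M ≤ 2`), then `‖P‖² ≥ 4 M / (2 + M)`. -/
theorem zone {P : ℂ} {x : ℤ → ℂ} (hx : Fan P x) (hP : ¬ (P.im = 0 ∧ |P.re| ≤ 2)) {M : ℝ}
    (hM0 : 0 ≤ M) (hM2 : M ≤ 2)
    (h : ∀ (k : ℤ) (q : ℝ), 1 / 4 ≤ q → q ≤ 1 / 2 →
      M ≤ q * ‖x (k - 1)‖ ^ 2 + (1 - 2 * q) * ‖x k‖ ^ 2 + q * ‖x (k + 1)‖ ^ 2) :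
    4 * M / (2 + M) ≤ ‖P‖ ^ 2 := by
  obtain ⟨τ, w, hτ, hPτ, hxk⟩ := fan_param hx hP
  obtain ⟨k, hk⟩ := exists_waist τ w hτ
  have ha : ‖Complex.cosh τ‖ ^ 2 = Real.sinh τ.re ^ 2 + Real.cos τ.im ^ 2 := nsq_cosh τ
  have hPn : ‖P‖ ^ 2 = 4 * ‖Complex.cosh τ‖ ^ 2 := by
    rw [hPτ, norm_mul, mul_pow, Complex.norm_two]; norm_num
  have hsc := Real.sin_sq_add_cos_sq τ.im
  have hS : 0 ≤ Real.sinh τ.re ^ 2 := sq_nonneg _
  have hM : 0 < 2 + M := by linarith
  rw [div_le_iff₀ hM]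
  by_cases hC : 1 / 2 < Real.cos τ.im ^ 2
  · rw [hPn, ha]
    nlinarith
  · push Not at hC
    have hs2 : 1 / 2 ≤ Real.sin τ.im ^ 2 := by linarith
    have hs1 : Real.sin τ.im ^ 2 ≤ 1 := by nlinarith [sq_nonneg (Real.cos τ.im)]
    have hs0 : Real.sin τ.im ≠ 0 := by
      intro h0; rw [h0] at hs2; norm_num at hs2
    have hq1 : 1 / 4 ≤ 1 / (4 * Real.sin τ.im ^ 2) :=
      one_div_le_one_div_of_le (by linarith) (by linarith)
    have hq2 : 1 / (4 * Real.sin τ.im ^ 2) ≤ 1 / 2 :=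
      one_div_le_one_div_of_le (by norm_num) (by linarith)
    have hav := h k _ hq1 hq2
    have hm := mean_eq τ (w + k * τ) hs0 hτ
    have f1 : x (k - 1) = 2 * Complex.cosh τ / Complex.sinh τ * Complex.cosh (w + k * τ - τ) := by
      rw [hxk, ← hPτ]; congr 2; push_cast; ring
    have f2 : x (k + 1) = 2 * Complex.cosh τ / Complex.sinh τ * Complex.cosh (w + k * τ + τ) := by
      rw [hxk, ← hPτ]; congr 2; push_cast; ring
    have f3 : x k = 2 * Complex.cosh τ / Complex.sinh τ * Complex.cosh (w + k * τ) := by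
      rw [hxk, ← hPτ]
    rw [f1, f2, f3, hm] at hav
    -- `cosh (2 Re w) ≤ cosh (Re τ) ≤ 1 + S / 2`
    have hch : Real.cosh (2 * (w + k * τ).re) ≤ 1 + Real.sinh τ.re ^ 2 / 2 := by
      have h1 : Real.cosh (2 * (w + k * τ).re) ≤ Real.cosh τ.re := by
        rw [Real.cosh_le_cosh, abs_mul, abs_two, abs_of_pos hτ]
        linarith
      have h2 : Real.cosh τ.re ≤ 1 + Real.sinh τ.re ^ 2 / 2 := by
        have h3 := Real.cosh_sq τ.re
        nlinarith [sq_nonneg (Real.sinh τ.re ^ 2), Real.cosh_pos τ.re,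
          sq_nonneg (Real.cosh τ.re - 1)]
      linarith
    have hspos : 0 < Real.sin τ.im ^ 2 := by linarith
    rw [le_div_iff₀ hspos, ha] at hav
    rw [hPn, ha]
    have hsin : Real.sin τ.im ^ 2 = 1 - Real.cos τ.im ^ 2 := by linarith
    rw [hsin] at hav
    set S := Real.sinh τ.re ^ 2
    set C := Real.cos τ.im ^ 2 with hCdef
    have hC0 : 0 ≤ C := sq_nonneg _
    have h5 : M * (1 - C) ≤ 2 * (S + C) * (1 + S / 2) := by
      calc M * (1 - C) ≤ 2 * (S + C) * Real.cosh (2 * (w + k * τ).re) := hav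
        _ ≤ 2 * (S + C) * (1 + S / 2) := by
          apply mul_le_mul_of_nonneg_left hch; linarith
    by_contra hcon
    push Not at hcon
    have h6 : (S + C) * (2 + M) < M := by linarith
    nlinarith [mul_nonneg hS (sub_nonneg.2 (show S + C ≤ M by nlinarith))]

end Pool.Agent.M4
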